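import Pool.Agent.X134.SM.SpecM

/-!
# The supports of the limit measures
-/

open MeasureTheory Matrix Filter
open scoped ContDiff Topology NNReal
open Pool.Agent.Results.MP_7f377f_mp.WilsonLoopsWeakCoupling

namespace Pool.Agent.X134.SM

set_option linter.unusedSectionVars false
set_option linter.unusedVariables false

noncomputable section

variable {D : ℕ}

/-! ### the momentum space -/

lemma sup_nu1 {x : ℝ} (hx : x ∈ Set.Icc (-Real.pi) Real.pi) : Sup nu1 x := by
  intro U hU hxU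
  have hpi := Real.pi_pos
  have hcl : x ∈ closure (Set.Ioo (-Real.pi) Real.pi) := by
    rw [closure_Ioo (by linarith)]
    exact hx
  have hne : (U ∩ Set.Ioo (-Real.pi) Real.pi).Nonempty := mem_closure_iff.1 hcl U hU hxU
  have h1 : 0 < volume (U ∩ Set.Ioo (-Real.pi) Real.pi) :=
    (hU.inter isOpen_Ioo).measure_pos volume hne
  unfold nu1
  rw [Measure.smul_apply, smul_eq_mul, Measure.restrict_apply hU.measurableSet]
  refine ENNReal.mul_pos ?_ ?_
  · rw [Ne, ENNReal.ofReal_eq_zero, not_le]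
    positivity
  · refine (lt_of_lt_of_le h1 (measure_mono ?_)).ne'
    exact Set.inter_subset_inter_right _ Set.Ioo_subset_Ioc_self

lemma sup_kap {θ : Fin D → ℝ} (hθ : ∀ i, θ i ∈ Set.Icc (-Real.pi) Real.pi) : Sup (kap D) θ := by
  intro U hU hxU
  obtain ⟨u, hu, hsub⟩ := isOpen_pi_iff'.1 hU θ hxU
  refine lt_of_lt_of_le ?_ (measure_mono hsub)
  unfold kap
  rw [Measure.pi_pi]
  exact CanonicallyOrderedAdd.prod_pos.2 fun i _ => sup_nu1 (hθ i) (u i) (hu i).1 (hu i).2

lemma sup_kap2 {θ θ' : Fin D → ℝ} (hθ : ∀ i, θ i ∈ Set.Icc (-Real.pi) Real.pi)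
    (hθ' : ∀ i, θ' i ∈ Set.Icc (-Real.pi) Real.pi) : Sup ((kap D).prod (kap D)) (θ, θ') := by
  intro U hU hxU
  obtain ⟨u, v, hu, hv, hxu, hyv, huv⟩ := isOpen_prod_iff.1 hU θ θ' hxU
  refine lt_of_lt_of_le ?_ (measure_mono huv)
  rw [Measure.prod_prod]
  exact ENNReal.mul_pos (sup_kap hθ u hu hxu).ne' (sup_kap hθ' v hv hyv).ne'

/-- reduction of the momenta -/
lemma red (k : Fin D → ℝ) : ∃ k' : Fin D → ℝ, (∀ i, k' i ∈ Set.Icc (-Real.pi) Real.pi) ∧
    (∀ i, Real.cos (k' i) = Real.cos (k i)) ∧ ∀ i, ∃ n : ℤ, k i = k' i + n * (2 * Real.pi) := by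
  have h2 : ∀ i, ∃ n : ℤ, k i = toIocMod Real.two_pi_pos (-Real.pi) (k i) + n * (2 * Real.pi) := by
    intro i
    refine ⟨toIocDiv Real.two_pi_pos (-Real.pi) (k i), ?_⟩
    have := toIocMod_add_toIocDiv_zsmul Real.two_pi_pos (-Real.pi) (k i)
    rw [zsmul_eq_mul] at this
    exact this.symm
  refine ⟨fun i => toIocMod Real.two_pi_pos (-Real.pi) (k i), fun i => ?_, fun i => ?_, h2⟩
  · have h := toIocMod_mem_Ioc Real.two_pi_pos (-Real.pi) (k i)
    have h' : -Real.pi + 2 * Real.pi = Real.pi := by ring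
    rw [h'] at h
    exact ⟨h.1.le, h.2⟩
  · obtain ⟨n, hn⟩ := h2 i
    conv_rhs => rw [hn]
    rw [Real.cos_add_int_mul_two_pi]

lemma om_congr {k k' : Fin D → ℝ} (h : ∀ i, Real.cos (k' i) = Real.cos (k i)) : om 1 k' = om 1 k := by
  unfold om cs
  simp only [h]

lemma Psi_congr {k k' l l' : Fin D → ℝ} (h : ∀ i, Real.cos (k' i) = Real.cos (k i))
    (h' : ∀ i, ∃ n : ℤ, k i = k' i + n * (2 * Real.pi))
    (hl : ∀ i, Real.cos (l' i) = Real.cos (l i))
    (hl' : ∀ i, ∃ n : ℤ, l i = l' i + n * (2 * Real.pi)) : Psi (k', l') = Psi (k, l) := by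
  unfold Psi
  simp only
  rw [om_congr h, om_congr hl]
  congr 1
  funext i
  obtain ⟨n, hn⟩ := h' i
  obtain ⟨m, hm⟩ := hl' i
  rw [hn, hm, Complex.exp_eq_exp_iff_exists_int]
  refine ⟨-(n + m), ?_⟩
  push_cast
  ring

section supp

variable {ι κ : Type*} [Fintype ι] [Fintype κ] [DecidableEq κ] (σ : ι → ℝ) (b : ι → Fin D → ℤ)
  (δ : ι → κ)

/-- the support of the two-particle measure -/
lemma sup_rinf (hw : ∀ᵐ θ ∂(kap D), 0 < wgt σ b δ θ) {a : ℝ} (ha : 0 < a) (k k' : Fin D → ℝ) :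
    Sup (rinf σ b δ a) (Psi (k, k')) := by
  obtain ⟨l, hl1, hl2, hl3⟩ := red k
  obtain ⟨l', hl1', hl2', hl3'⟩ := red k'
  rw [← Psi_congr hl2 hl3 hl2' hl3']
  intro O hO hx
  unfold rinf
  rw [Measure.map_apply Psi_cont.measurable hO.measurableSet, pos_iff_ne_zero]
  intro h0
  rw [withDensity_apply_eq_zero' (dens2_meas σ b δ a).ennreal_ofReal.aemeasurable] at h0
  have h1 : 0 < ((kap D).prod (kap D)) (Psi ⁻¹' O) :=
    sup_kap2 hl1 hl1' _ (hO.preimage Psi_cont) hx
  have h2 : ∀ᵐ p ∂((kap D).prod (kap D)), 0 < wgt σ b δ p.1 :=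
    Measure.quasiMeasurePreserving_fst.ae hw
  have h3 : ∀ᵐ p ∂((kap D).prod (kap D)), 0 < wgt σ b δ p.2 :=
    Measure.quasiMeasurePreserving_snd.ae hw
  refine h1.ne' (le_antisymm ?_ bot_le)
  rw [← h0]
  refine measure_mono_ae ?_
  filter_upwards [h2, h3] with p hp1 hp2 hp
  refine ⟨?_, hp⟩
  show ENNReal.ofReal (a * (wgt σ b δ p.1 * wgt σ b δ p.2)) ≠ 0
  rw [Ne, ENNReal.ofReal_eq_zero, not_le]
  positivity

end supp

/-! ### the plaquette -/

/-- the plaquette at the origin in the space directions `i`, `j` -/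
def plq (i j : Fin D) : Loop (D + 1) :=
  ⟨0, [(i.castSucc, true), (j.castSucc, true), (i.castSucc, false), (j.castSucc, false)], by
    simp only [dest]
    abel⟩

lemma plq_flat (i j : Fin D) : Flat (plq i j) := by
  refine ⟨rfl, fun s hs => ?_⟩
  have h : ∀ k : Fin D, k.castSucc ≠ Fin.last D := fun k => (Fin.castSucc_lt_last k).ne
  simp only [plq, List.mem_cons, List.not_mem_nil, or_false] at hs
  rcases hs with rfl | rfl | rfl | rfl <;> exact h _

lemma plq_cur {i j : Fin D} (hij : i ≠ j) (θ : Fin D → ℝ) :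
    cur (sgL (plq i j)) (posL (plq i j)) (dirL (plq i j)) θ i.castSucc =
      1 - Complex.exp (Complex.I * (θ j : ℝ)) := by
  have hne : j.castSucc ≠ i.castSucc := fun h => hij (Fin.castSucc_injective _ h).symm
  have h0 : cur (sgL (plq i j)) (posL (plq i j)) (dirL (plq i j)) θ i.castSucc =
      ∑ e : Fin 4, if dirL (plq i j) e = i.castSucc then (sgL (plq i j) e : ℂ) *
        Complex.exp (Complex.I * (ph θ (posL (plq i j) e) : ℝ)) else 0 := rfl
  rw [h0, Fin.sum_univ_four]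
  have d0 : dirL (plq i j) (0 : Fin 4) = i.castSucc := rfl
  have d1 : dirL (plq i j) (1 : Fin 4) = j.castSucc := rfl
  have d2 : dirL (plq i j) (2 : Fin 4) = i.castSucc := rfl
  have d3 : dirL (plq i j) (3 : Fin 4) = j.castSucc := rfl
  rw [if_pos d0, if_neg (by rw [d1]; exact hne), if_pos d2, if_neg (by rw [d3]; exact hne)]
  have s0 : sgL (plq i j) (0 : Fin 4) = 1 := rfl
  have s2 : sgL (plq i j) (2 : Fin 4) = -1 := rfl
  have p0 : posL (plq i j) (0 : Fin 4) = 0 := rfl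
  have p2 : posL (plq i j) (2 : Fin 4) = Pi.single j 1 := by
    show spc ((0 : Fin (D + 1) → ℤ) + Pi.single i.castSucc 1 + Pi.single j.castSucc 1 -
      Pi.single i.castSucc 1) = _
    funext l
    unfold spc
    simp only [Pi.add_apply, Pi.sub_apply, Pi.zero_apply]
    by_cases h : l = j
    · subst h
      simp
    · rw [Pi.single_eq_of_ne (fun h' => h (Fin.castSucc_injective _ h')), Pi.single_eq_of_ne h]
      ring
  rw [s0, s2, p0, p2]
  have e0 : ph θ 0 = 0 := by
    unfold ph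
    simp
  have e1 : ph θ (Pi.single j 1) = θ j := by
    unfold ph
    rw [Finset.sum_eq_single j]
    · simp
    · intro l _ hl
      rw [Pi.single_eq_of_ne hl]
      simp
    · intro h
      exact absurd (Finset.mem_univ j) h
  rw [e0, e1]
  simp
  ring

/-- the weight of the plaquette -/
lemma plq_wgt {i j : Fin D} (hij : i ≠ j) : ∀ᵐ θ ∂(kap D),
    0 < wgt (sgL (plq i j)) (posL (plq i j)) (dirL (plq i j)) θ := by
  filter_upwards [kap_ae] with θ hθ
  have h1 := cos_lt (hθ j).1 (hθ j).2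
  have h2 := sinh_pos' (cs_one_gt h1)
  unfold wgt
  refine div_pos ?_ (by positivity)
  unfold cur2
  refine Finset.sum_pos' (fun i _ => sq_nonneg _) ⟨i.castSucc, Finset.mem_univ _, ?_⟩
  rw [plq_cur hij]
  have h3 : 1 - Complex.exp (Complex.I * (θ j : ℝ)) ≠ 0 := by
    intro h
    have h4 : (1 - Complex.exp (Complex.I * (θ j : ℝ))).re = 1 - Real.cos (θ j) := by
      rw [Complex.sub_re, Complex.one_re, mul_comm, Complex.exp_ofReal_mul_I_re]
    rw [h, Complex.zero_re] at h4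
    linarith
  have := norm_pos_iff.2 h3
  positivity

end

end Pool.Agent.X134.SM
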