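import Pool.Agent.X134.SM.SpecL

/-!
# The convergence of the spectral measures
-/

open MeasureTheory Matrix Filter
open scoped Matrix.Norms.Frobenius ContDiff Topology NNReal
open Pool.Agent.H906R3.YM (LD)
open Pool.Agent.W793.YM (Ez lf gz EX)
open Pool.Agent.Results.MP_7f377f_mp.WilsonLoopsWeakCoupling

namespace Pool.Agent.X134.SM

set_option linter.unusedSectionVars false
set_option linter.unusedVariables false

noncomputable section

variable {D N n m : ℕ} {G : Subgroup (UU N)} [MeasurableSpace G] [BorelSpace G]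
  (μ : Measure G) [IsProbabilityMeasure μ] [μ.IsHaarMeasure]

lemma le_sum_abs {ι : Type*} (s : Finset ι) (b : ι → ℝ) {q : ι} (hq : q ∈ s) :
    b q ≤ ∑ q ∈ s, |b q| :=
  (le_abs_self _).trans (Finset.single_le_sum (f := fun q => |b q|) (fun q _ => abs_nonneg _) hq)

/-- **The spectral measures of the Wilson loops.** -/
theorem sp_lim (hD : 2 ≤ D) (hG : IsClosed (G : Set (UU N))) (B : LieBasis G n)
    {γ : Loop (D + 1)} (hγ : Flat γ) {f : ℝ × (Fin D → ℂ) → ℝ} (hf : Continuous f) {ε : ℝ}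
    (hε : 0 < ε) : ∃ β₀ : ℝ, ∀ β : ℝ, β₀ ≤ β →
      ∀ ν : Measure (LinkZ (D + 1) → G), IsInfVol μ β ν → ∀ ρ, IsSp ν (wilson γ) ρ →
        |β ^ 2 * ∫ p, f p ∂ρ - ∫ p, f p ∂(rinf (sgL γ) (posL γ) (dirL γ) (n / 2))| ≤ ε := by
  have := rinf_fin (sgL γ) (posL γ) (dirL γ) hD ((n : ℝ) / 2)
  obtain ⟨s, δ, hδ, hk⟩ := weak (rinf_supp (sgL γ) (posL γ) (dirL γ) ((n : ℝ) / 2))
    hf.measurable hf.continuousOn hε
  choose b hb using fun q : ℕ × (Fin D → ℤ) => cov_lim1 μ hD hG B γ (ptz q.2 q.1) hδ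
  refine ⟨∑ q ∈ s, |b q|, fun β hβ ν hν ρ hρ => ?_⟩
  have hfin := hρ.fin
  have h1 := hk (Real.toNNReal (β ^ 2) • ρ) inferInstance ?_ ?_
  · rw [integral_smul_nnreal_measure, NNReal.smul_def, Real.coe_toNNReal _ (sq_nonneg β),
      smul_eq_mul] at h1
    exact h1
  · rw [Measure.smul_apply, hρ.supp, smul_zero]
  · intro q hq
    have h2 := hb q β ((le_sum_abs s b hq).trans hβ) ν hν
    have h3 : mom (Real.toNNReal (β ^ 2) • ρ) q = ((β ^ 2 * cvZ ν (wilson γ) (ptz q.2 q.1) : ℝ) : ℂ) := by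
      have h4 := hρ.mom q.1 q.2
      unfold mom at h4 ⊢
      rw [integral_smul_nnreal_measure, h4, NNReal.smul_def, Real.coe_toNNReal _ (sq_nonneg β),
        Complex.real_smul]
      push_cast
      ring
    have h5 : mom (rinf (sgL γ) (posL γ) (dirL γ) (n / 2)) q =
        ((n / 2 * inter γ (shl (ptz q.2 q.1) γ) ^ 2 : ℝ) : ℂ) := by
      rw [inter_KF hD hγ]
      exact rinf_mom (sgL γ) (posL γ) (dirL γ) hD (by positivity) q.1 q.2
    rw [h3, h5, ← Complex.ofReal_sub, Complex.norm_real, Real.norm_eq_abs]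
    exact h2

/-- **The spectral measures of the products of separated loop variables.** -/
theorem sp_lim_prod (hD : 2 ≤ D) (hG : IsClosed (G : Set (UU N))) (B : LieBasis G n) (hm : 0 < m)
    {γ : Loop (D + 1)} (hγ : Flat γ) {f : ℝ × (Fin D → ℂ) → ℝ} (hf : Continuous f) {ε : ℝ}
    (hε : 0 < ε) : ∃ S₀ : ℕ, ∀ S, S₀ ≤ S → ∃ β₀ : ℝ, ∀ β : ℝ, β₀ ≤ β →
      ∀ ν : Measure (LinkZ (D + 1) → G), IsInfVol μ β ν →
        ∀ ρ, IsSp ν (fun V => ∏ r : Fin m, loopVar n β (sepL S (fun _ => γ) r) V) ρ →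
        |∫ p, f p ∂ρ - ∫ p, f p ∂(cpw (rinf (sgL γ) (posL γ) (dirL γ) (n / 2)) m)| ≤ ε := by
  have := rinf_fin (sgL γ) (posL γ) (dirL γ) hD ((n : ℝ) / 2)
  have := cpw_fin (rinf (sgL γ) (posL γ) (dirL γ) ((n : ℝ) / 2)) m
  obtain ⟨s, δ, hδ, hk⟩ := weak (cpw_supp (rinf_supp (sgL γ) (posL γ) (dirL γ) ((n : ℝ) / 2)) m)
    hf.measurable hf.continuousOn hε
  choose S₀ hS₀ using fun q : ℕ × (Fin D → ℤ) => cov_lim μ hD hG B hm (fun _ : Fin m => γ)
    (ptz q.2 q.1) hδ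
  refine ⟨∑ q ∈ s, S₀ q, fun S hS => ?_⟩
  have hS' : ∀ q, q ∈ s → S₀ q ≤ S := fun q hq =>
    (Finset.single_le_sum (f := S₀) (fun q _ => Nat.zero_le _) hq).trans hS
  have h0 : ∀ q, ∃ b : ℝ, q ∈ s → ∀ β : ℝ, b ≤ β →
      ∀ ν : Measure (LinkZ (D + 1) → G), IsInfVol μ β ν →
        |cvZ ν (fun V => ∏ r : Fin m, loopVar n β (sepL S (fun _ => γ) r) V) (ptz q.2 q.1) -
          ∏ _r : Fin m, (n / 2 * inter γ (shl (ptz q.2 q.1) γ) ^ 2)| ≤ δ := by
    intro q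
    by_cases hq : q ∈ s
    · obtain ⟨b, hb⟩ := hS₀ q S (hS' q hq)
      exact ⟨b, fun _ => hb⟩
    · exact ⟨0, fun h => absurd h hq⟩
  choose b hb using h0
  refine ⟨∑ q ∈ s, |b q|, fun β hβ ν hν ρ hρ => ?_⟩
  refine hk ρ hρ.fin hρ.supp fun q hq => ?_
  have h2 := hb q hq β ((le_sum_abs s b hq).trans hβ) ν hν
  have h5 : mom (rinf (sgL γ) (posL γ) (dirL γ) (n / 2)) q =
      ((n / 2 * inter γ (shl (ptz q.2 q.1) γ) ^ 2 : ℝ) : ℂ) := by
    rw [inter_KF hD hγ]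
    exact rinf_mom (sgL γ) (posL γ) (dirL γ) hD (by positivity) q.1 q.2
  have h6 := hρ.mom q.1 q.2
  rw [cpw_mom, h5, ← Complex.ofReal_pow, show mom ρ q = _ from h6, ← Complex.ofReal_sub,
    Complex.norm_real, Real.norm_eq_abs]
  rw [Finset.prod_const, Finset.card_univ, Fintype.card_fin] at h2
  exact h2

end

end Pool.Agent.X134.SM
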