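import Pool.Agent.X134.SM.Supp

/-!
# The light cone of the lattice
-/

open MeasureTheory Matrix Filter
open scoped ContDiff Topology NNReal
open Pool.Agent.Results.MP_7f377f_mp.WilsonLoopsWeakCoupling

namespace Pool.Agent.X134.SM

set_option linter.unusedSectionVars false
set_option linter.unusedVariables false

noncomputable section

variable {D : ℕ}

/-- the point of energy `E` and momentum `p` -/
def pt (E : ℝ) (p : Fin D → ℝ) : ℝ × (Fin D → ℂ) :=
  (Real.exp (-E), fun i => Complex.exp (Complex.I * (p i : ℝ)))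

lemma pt_mul (E E' : ℝ) (p p' : Fin D → ℝ) : pt E p * pt E' p' = pt (E + E') (p + p') := by
  unfold pt
  refine Prod.ext ?_ ?_
  · show Real.exp (-E) * Real.exp (-E') = Real.exp (-(E + E'))
    rw [← Real.exp_add]
    congr 1
    ring
  · funext i
    show Complex.exp (Complex.I * (p i : ℝ)) * Complex.exp (Complex.I * (p' i : ℝ)) =
      Complex.exp (Complex.I * ((p + p') i : ℝ))
    rw [← Complex.exp_add, Pi.add_apply]
    push_cast
    congr 1
    ring

lemma pt_zero : pt 0 (0 : Fin D → ℝ) = 1 := by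
  unfold pt
  refine Prod.ext ?_ ?_
  · show Real.exp (-0) = 1
    simp
  · funext i
    simp

lemma Psi_pt (k k' : Fin D → ℝ) : Psi (k, k') = pt (om 1 k + om 1 k') (k + k') := rfl

lemma om_zero : om 1 (0 : Fin D → ℝ) = 0 := by
  unfold om
  rw [cs_one]
  simp

lemma om_max : om 1 (fun _ : Fin D => Real.pi) = Real.arcosh (1 + 2 * D) := by
  unfold om
  rw [cs_one]
  congr 2
  simp
  ring

/-- any energy is a multiple of the energy of a particle -/
lemma exists_q (hD : 1 ≤ D) {e : ℝ} (he : 0 ≤ e) : ∃ (j : ℕ) (q : Fin D → ℝ), e = 2 * j * om 1 q := by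
  obtain ⟨M, hM⟩ : ∃ M : ℝ, M = om 1 (fun _ : Fin D => Real.pi) := ⟨_, rfl⟩
  have hM0 : 0 < M := by
    rw [hM, om_max]
    refine Real.arcosh_pos ?_
    have : (1 : ℝ) ≤ D := by exact_mod_cast hD
    linarith
  obtain ⟨j, hj⟩ := exists_nat_ge (e / (2 * M))
  have hj' : e ≤ 2 * (j + 1 : ℕ) * M := by
    rw [div_le_iff₀ (by positivity)] at hj
    push_cast
    nlinarith
  have hc : ContinuousOn (fun s : ℝ => om 1 (fun _ : Fin D => s)) (Set.Icc 0 Real.pi) :=
    ((om_cont (D := D) one_pos le_rfl).comp (by fun_prop)).continuousOn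
  have h1 := intermediate_value_Icc Real.pi_pos.le hc
  have h2 : e / (2 * (j + 1 : ℕ)) ∈ Set.Icc (om 1 (fun _ : Fin D => (0 : ℝ)))
      (om 1 (fun _ : Fin D => Real.pi)) := by
    constructor
    · have : om 1 (fun _ : Fin D => (0 : ℝ)) = 0 := om_zero
      rw [this]
      positivity
    · rw [← hM, div_le_iff₀ (by positivity)]
      linarith
  obtain ⟨s, hs, hs'⟩ := h1 h2
  refine ⟨j + 1, fun _ => s, ?_⟩
  simp only at hs'
  rw [hs']
  have : ((j + 1 : ℕ) : ℝ) ≠ 0 := by positivity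
  field_simp

section cone

variable {ρ : Measure (ℝ × (Fin D → ℂ))} [IsFiniteMeasure ρ]

/-- the products of the points of the two-particle spectrum fill the light cone -/
theorem cone_sup (hD : 1 ≤ D) (h : ∀ k k', Sup ρ (Psi (k, k'))) {E : ℝ} {p : Fin D → ℝ}
    (hE : om 1 p ≤ E) : ∃ m : ℕ, 0 < m ∧ Sup (cpw ρ m) (pt E p) := by
  obtain ⟨j, q, hq⟩ := exists_q hD (sub_nonneg.2 hE)
  have h1 : ∀ l : ℕ, Sup (cpw ρ l) (pt (2 * l * om 1 q) 0) := by
    intro l
    induction l with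
    | zero =>
      have : (2 * ((0 : ℕ) : ℝ) * om 1 q) = 0 := by push_cast; ring
      rw [this, pt_zero]
      exact sup_one
    | succ l ih =>
      have := cpw_fin ρ l
      have h2 := sup_mul (h q (-q)) ih
      rw [Psi_pt, pt_mul, om_neg] at h2
      have e1 : om 1 q + om 1 q + 2 * l * om 1 q = 2 * (l + 1 : ℕ) * om 1 q := by
        push_cast
        ring
      rw [e1, add_neg_cancel, add_zero] at h2
      exact h2
  refine ⟨j + 1, Nat.succ_pos _, ?_⟩
  have := cpw_fin ρ j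
  have h2 := sup_mul (h p 0) (h1 j)
  rw [Psi_pt, pt_mul, om_zero, ← hq] at h2
  have e1 : om 1 p + 0 + (E - om 1 p) = E := by ring
  rw [e1, add_zero, add_zero] at h2
  exact h2

end cone

section main

variable {N n : ℕ} {G : Subgroup (UU N)} [MeasurableSpace G] [BorelSpace G]
  (μ : Measure G) [IsProbabilityMeasure μ] [μ.IsHaarMeasure]

/-- lower bounds for the spectral measures of open sets -/
lemma lower {ρ' : Measure (ℝ × (Fin D → ℂ))} [IsFiniteMeasure ρ'] {x : ℝ × (Fin D → ℂ)}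
    (h : Sup ρ' x) {O : Set (ℝ × (Fin D → ℂ))} (hO : IsOpen O) (hx : x ∈ O) :
    ∃ (f : ℝ × (Fin D → ℂ) → ℝ) (c : ℝ), Continuous f ∧ 0 < c ∧
      ∀ (ρ : Measure (ℝ × (Fin D → ℂ))) [IsFiniteMeasure ρ] (b : ℝ), 0 ≤ b →
        |b * ∫ p, f p ∂ρ - ∫ p, f p ∂ρ'| ≤ c → c ≤ b * ρ.real O := by
  obtain ⟨f, hf, hf0, hf1, hf2, hf3⟩ := bump h hO hx
  refine ⟨f, (∫ p, f p ∂ρ') / 2, hf, by positivity, fun ρ _ b hb hle => ?_⟩
  have h1 : ∫ p, f p ∂ρ ≤ ρ.real O := by
    have h2 : ∀ p, f p ≤ O.indicator (fun _ => (1 : ℝ)) p := by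
      intro p
      by_cases hp : p ∈ O
      · rw [Set.indicator_of_mem hp]
        exact hf1 p
      · rw [Set.indicator_of_notMem hp, hf2 p hp]
    have h3 : ∫ p, f p ∂ρ ≤ ∫ p, O.indicator (fun _ => (1 : ℝ)) p ∂ρ := by
      refine integral_mono ?_ ?_ h2
      · refine Integrable.mono' (integrable_const (1 : ℝ)) hf.aestronglyMeasurable
          (Eventually.of_forall fun p => ?_)
        rw [Real.norm_eq_abs, abs_of_nonneg (hf0 p)]
        exact hf1 p
      · exact (integrable_const (1 : ℝ)).indicator hO.measurableSet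
    rw [integral_indicator hO.measurableSet, setIntegral_const, smul_eq_mul, mul_one] at h3
    exact h3
  have h4 := mul_le_mul_of_nonneg_left h1 hb
  rw [abs_le] at hle
  linarith [hle.1]

/-- **The two-gluon states.** -/
theorem two_main (hD : 2 ≤ D) (hG : IsClosed (G : Set (UU N))) (B : LieBasis G n) (hn : 0 < n)
    {i j : Fin D} (hij : i ≠ j) (k k' : Fin D → ℝ) {O : Set (ℝ × (Fin D → ℂ))} (hO : IsOpen O)
    (hx : pt (om 1 k + om 1 k') (k + k') ∈ O) : ∃ (c β₀ : ℝ), 0 < c ∧ ∀ β : ℝ, β₀ ≤ β →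
      ∀ ν : Measure (LinkZ (D + 1) → G), IsInfVol μ β ν → ∀ ρ, IsSp ν (wilson (plq i j)) ρ →
        c ≤ β ^ 2 * ρ.real O := by
  have := rinf_fin (sgL (plq i j)) (posL (plq i j)) (dirL (plq i j)) hD ((n : ℝ) / 2)
  have hs := sup_rinf (sgL (plq i j)) (posL (plq i j)) (dirL (plq i j)) (plq_wgt hij)
    (a := (n : ℝ) / 2) (by positivity) k k'
  obtain ⟨f, c, hf, hc, h⟩ := lower hs hO hx
  obtain ⟨β₀, h1⟩ := sp_lim μ hD hG B (plq_flat i j) hf hc
  refine ⟨c, β₀, hc, fun β hβ ν hν ρ hρ => ?_⟩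
  have := hρ.fin
  exact h ρ (β ^ 2) (sq_nonneg β) (h1 β hβ ν hν ρ hρ)

/-- **The light cone.** -/
theorem cone_main (hD : 2 ≤ D) (hG : IsClosed (G : Set (UU N))) (B : LieBasis G n) (hn : 0 < n)
    {i j : Fin D} (hij : i ≠ j) {E : ℝ} {p : Fin D → ℝ} (hE : om 1 p ≤ E)
    {O : Set (ℝ × (Fin D → ℂ))} (hO : IsOpen O) (hx : pt E p ∈ O) :
    ∃ (m : ℕ) (S₀ : ℕ) (c : ℝ), 0 < m ∧ 0 < c ∧ ∀ S, S₀ ≤ S → ∃ β₀ : ℝ, ∀ β : ℝ, β₀ ≤ β →
      ∀ ν : Measure (LinkZ (D + 1) → G), IsInfVol μ β ν →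
        ∀ ρ, IsSp ν (fun V => ∏ r : Fin m, loopVar n β (sepL S (fun _ => plq i j) r) V) ρ →
          c ≤ ρ.real O := by
  have := rinf_fin (sgL (plq i j)) (posL (plq i j)) (dirL (plq i j)) hD ((n : ℝ) / 2)
  obtain ⟨m, hm, hs⟩ := cone_sup (by omega : 1 ≤ D) (sup_rinf (sgL (plq i j)) (posL (plq i j))
    (dirL (plq i j)) (plq_wgt hij) (a := (n : ℝ) / 2) (by positivity)) hE
  have := cpw_fin (rinf (sgL (plq i j)) (posL (plq i j)) (dirL (plq i j)) ((n : ℝ) / 2)) m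
  obtain ⟨f, c, hf, hc, h⟩ := lower hs hO hx
  obtain ⟨S₀, h1⟩ := sp_lim_prod μ hD hG B hm (plq_flat i j) hf hc
  refine ⟨m, S₀, c, hm, hc, fun S hS => ?_⟩
  obtain ⟨β₀, h2⟩ := h1 S hS
  refine ⟨β₀, fun β hβ ν hν ρ hρ => ?_⟩
  have := hρ.fin
  have h3 := h ρ 1 zero_le_one
  rw [one_mul, one_mul] at h3
  exact h3 (h2 β hβ ν hν ρ hρ)

end main

end

end Pool.Agent.X134.SM
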