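import Pool.Agent.X134.SM.Green

/-!
# The Green function in terms of the energies
-/

set_option autoImplicit false
open Finset MeasureTheory Filter Topology
open scoped ENNReal NNReal
open Pool.Agent.W793.SCH (pk green)

namespace Pool.Agent.X134.SM

variable {D : ℕ}

lemma nu1_ae : ∀ᵐ x ∂nu1, x ∈ Set.Ioc (-Real.pi) Real.pi ∧ x ≠ 0 := by
  unfold nu1
  refine Measure.ae_smul_measure ?_ _
  have h1 : ∀ᵐ x ∂(volume.restrict (Set.Ioc (-Real.pi) Real.pi)), x ∈ Set.Ioc (-Real.pi) Real.pi :=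
    ae_restrict_mem measurableSet_Ioc
  have h2 : ∀ᵐ x : ℝ ∂(volume.restrict (Set.Ioc (-Real.pi) Real.pi)), x ≠ 0 := by
    refine ae_restrict_of_ae ?_
    exact Measure.ae_ne volume 0
  filter_upwards [h1, h2] with x hx1 hx2 using ⟨hx1, hx2⟩

lemma kap_ae : ∀ᵐ θ ∂(kap D), ∀ i, θ i ∈ Set.Ioc (-Real.pi) Real.pi ∧ θ i ≠ 0 := by
  unfold kap
  rw [ae_all_iff]
  intro i
  exact (Measure.quasiMeasurePreserving_eval (μ := fun _ : Fin D => nu1) i).ae nu1_ae

lemma cos_lt {x : ℝ} (hx : x ∈ Set.Ioc (-Real.pi) Real.pi) (h0 : x ≠ 0) : Real.cos x < 1 := by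
  have hpi := Real.pi_pos
  refine lt_of_le_of_ne (Real.cos_le_one x) fun h => ?_
  exact h0 ((Real.cos_eq_one_iff_of_lt_of_lt (by linarith [hx.1]) (by linarith [hx.2])).1 h)

lemma cs_one_gt {θ : Fin D → ℝ} {i : Fin D} (h : Real.cos (θ i) < 1) : 1 < cs 1 θ := by
  rw [cs_one]
  have : 0 < ∑ j, (1 - Real.cos (θ j)) := by
    refine sum_pos' (fun j _ => by linarith [Real.cos_le_one (θ j)]) ⟨i, mem_univ i, by linarith⟩
  linarith

/-- the sequence of killing rates -/
noncomputable def sn (n : ℕ) : ℝ := 1 - 1 / ((n : ℝ) + 2)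

lemma sn_mem (n : ℕ) : 1 / 2 ≤ sn n ∧ sn n < 1 := by
  unfold sn
  have h1 : (0 : ℝ) < (n : ℝ) + 2 := by positivity
  constructor
  · have : 1 / ((n : ℝ) + 2) ≤ 1 / 2 :=
      one_div_le_one_div_of_le (by norm_num) (by linarith [Nat.cast_nonneg (α := ℝ) n])
    linarith
  · have : 0 < 1 / ((n : ℝ) + 2) := by positivity
    linarith

lemma sn_lim : Tendsto sn atTop (𝓝 1) := by
  unfold sn
  have h1 : Tendsto (fun n : ℕ => 1 / ((n : ℝ) + 2)) atTop (𝓝 0) := by
    have := tendsto_one_div_add_atTop_nhds_zero_nat (𝕜 := ℝ)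
    have h2 := this.comp (tendsto_add_atTop_nat 1)
    refine h2.congr fun n => ?_
    simp only [Function.comp_apply]
    push_cast
    ring_nf
  simpa using h1.const_sub 1

lemma us_le_green (hD : 2 ≤ D) (n : ℕ) (z : Fin (D + 1) → ℤ) :
    us (D + 1) (sn n) z ≤ green (D + 1) z := by
  obtain ⟨C, _, hsum, _⟩ := Pool.Agent.W793.SCH.a_TR (D + 1) (by omega)
  have hs := sn_mem n
  unfold us green
  refine mul_le_mul_of_nonneg_left ?_ (by positivity)
  refine (us_summable (d := D + 1) (by omega) (by linarith) hs.2 z).tsum_le_tsum (fun k => ?_)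
    (hsum z)
  have := (pk_le_one (D + 1) (by omega) k z).1
  exact mul_le_of_le_one_left this (pow_le_one₀ (by linarith) hs.2.le)

lemma us_lim (hD : 2 ≤ D) (z : Fin (D + 1) → ℤ) :
    Tendsto (fun n => us (D + 1) (sn n) z) atTop (𝓝 (green (D + 1) z)) := by
  obtain ⟨C, _, hsum, _⟩ := Pool.Agent.W793.SCH.a_TR (D + 1) (by omega)
  unfold us green
  refine Tendsto.const_mul _ ?_
  refine tendsto_tsum_of_dominated_convergence (hsum z) (fun k => ?_) (Eventually.of_forall fun n k => ?_)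
  · have h1 := (sn_lim.pow k).mul_const (pk (D + 1) k z)
    rwa [one_pow, one_mul] at h1
  · have hs := sn_mem n
    have hp := (pk_le_one (D + 1) (by omega) k z).1
    rw [Real.norm_eq_abs, abs_of_nonneg (mul_nonneg (pow_nonneg (by linarith) k) hp)]
    exact mul_le_of_le_one_left hp (pow_le_one₀ (by linarith) hs.2.le)

lemma cs_lim (θ : Fin D → ℝ) : Tendsto (fun n => cs (sn n) θ) atTop (𝓝 (cs 1 θ)) := by
  unfold cs
  have h1 : Tendsto (fun n => 1 / sn n) atTop (𝓝 (1 / 1)) :=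
    tendsto_const_nhds.div sn_lim one_ne_zero
  exact tendsto_const_nhds.add ((h1.sub_const 1).const_mul _)

lemma om_lim (θ : Fin D → ℝ) : Tendsto (fun n => om (sn n) θ) atTop (𝓝 (om 1 θ)) := by
  unfold om
  have h1 : ContinuousWithinAt Real.arcosh (Set.Ici 1) (cs 1 θ) :=
    Real.continuousOn_arcosh _ (cs_ge_one one_pos le_rfl θ)
  refine h1.tendsto.comp (tendsto_nhdsWithin_iff.2 ⟨cs_lim θ, Eventually.of_forall fun n => ?_⟩)
  exact cs_ge_one (by linarith [(sn_mem n).1]) (sn_mem n).2.le θ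

lemma sinh_pos' {θ : Fin D → ℝ} (h : 1 < cs 1 θ) : 0 < Real.sinh (om 1 θ) := by
  rw [Real.sinh_pos_iff]
  exact Real.arcosh_pos h

lemma ig_lim {θ : Fin D → ℝ} (h : 1 < cs 1 θ) (x : Fin D → ℤ) (t : ℤ) :
    Tendsto (fun n => 1 / sn n * ig (sn n) x t θ) atTop (𝓝 (ig 1 x t θ)) := by
  have h1 : Tendsto (fun n => 1 / sn n) atTop (𝓝 (1 / 1)) :=
    tendsto_const_nhds.div sn_lim one_ne_zero
  have h2 : Tendsto (fun n => Real.exp (-(om (sn n) θ * |(t : ℝ)|))) atTop
      (𝓝 (Real.exp (-(om 1 θ * |(t : ℝ)|)))) :=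
    (Real.continuous_exp.tendsto _).comp ((om_lim θ).mul_const _).neg
  have h3 : Tendsto (fun n => 2 * Real.sinh (om (sn n) θ)) atTop (𝓝 (2 * Real.sinh (om 1 θ))) :=
    ((Real.continuous_sinh.tendsto _).comp (om_lim θ)).const_mul 2
  have h4 := h1.mul ((h2.div h3 (by have := sinh_pos' h; positivity)).const_mul (Real.cos (ph θ x)))
  rw [div_one, one_mul] at h4
  exact h4

lemma sinh_mono (n : ℕ) (θ : Fin D → ℝ) : Real.sinh (om 1 θ) ≤ Real.sinh (om (sn n) θ) := by
  have hs := sn_mem n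
  rw [sinh_om one_pos le_rfl, sinh_om (by linarith) hs.2.le]
  refine Real.sqrt_le_sqrt ?_
  have h1 : cs 1 θ ≤ cs (sn n) θ := by
    unfold cs
    have h2 : 1 ≤ 1 / sn n := by
      rw [le_div_iff₀ (by linarith)]
      linarith
    have : 0 ≤ 2 * ((D : ℝ) + 1) * (1 / sn n - 1) := by
      have : 0 ≤ 1 / sn n - 1 := by linarith
      positivity
    have e : (1 : ℝ) / 1 - 1 = 0 := by norm_num
    rw [e, mul_zero]
    linarith
  have h3 := cs_ge_one one_pos le_rfl θ
  nlinarith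

/-- integrability of the weight -/
theorem inv_sinh_int (hD : 2 ≤ D) :
    Integrable (fun θ : Fin D → ℝ => 1 / (2 * Real.sinh (om 1 θ))) (kap D) := by
  have hm : Measurable (fun θ : Fin D → ℝ => 1 / (2 * Real.sinh (om 1 θ))) := by
    have := (om_cont (D := D) one_pos le_rfl).measurable
    exact measurable_const.div ((Real.measurable_sinh.comp this).const_mul 2)
  have e0 : ∀ (s : ℝ) (θ : Fin D → ℝ), ig s 0 0 θ = 1 / (2 * Real.sinh (om s θ)) := by
    intro s θ
    unfold ig ph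
    simp
  have hnn : ∀ n (θ : Fin D → ℝ), 0 ≤ 1 / sn n * ig (sn n) 0 0 θ := by
    intro n θ
    rw [e0]
    have h1 := sinh_nonneg' (by linarith [(sn_mem n).1] : 0 < sn n) (sn_mem n).2.le θ
    have h2 : 0 < sn n := by linarith [(sn_mem n).1]
    positivity
  have hint : ∀ n, Integrable (fun θ : Fin D → ℝ => 1 / sn n * ig (sn n) 0 0 θ) (kap D) := fun n =>
    (ig_int (by linarith [(sn_mem n).1]) (sn_mem n).2 _ _).const_mul _
  have hval : ∀ n, ∫ θ, 1 / sn n * ig (sn n) 0 0 θ ∂(kap D) = us (D + 1) (sn n) 0 := by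
    intro n
    rw [us_eq_gR (by linarith [(sn_mem n).1]) (sn_mem n).2, integral_const_mul]
    rfl
  have hlim : ∀ᵐ θ ∂(kap D), Tendsto (fun n => ENNReal.ofReal (1 / sn n * ig (sn n) 0 0 θ)) atTop
      (𝓝 (ENNReal.ofReal (1 / (2 * Real.sinh (om 1 θ))))) := by
    filter_upwards [kap_ae] with θ hθ
    rw [← e0]
    refine ENNReal.tendsto_ofReal (ig_lim (cs_one_gt (i := ⟨0, by omega⟩) (cos_lt (hθ _).1 (hθ _).2)) _ _)
  have hfatou := lintegral_liminf_le' (μ := kap D) (u := atTop)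
    (f := fun (n : ℕ) θ => ENNReal.ofReal (1 / sn n * ig (sn n) 0 0 θ))
    fun n => (hint n).aestronglyMeasurable.aemeasurable.ennreal_ofReal
  have h1 : ∫⁻ θ, ENNReal.ofReal (1 / (2 * Real.sinh (om 1 θ))) ∂(kap D) ≤
      ENNReal.ofReal (green (D + 1) 0) := by
    calc ∫⁻ θ, ENNReal.ofReal (1 / (2 * Real.sinh (om 1 θ))) ∂(kap D) =
        ∫⁻ θ, liminf (fun n => ENNReal.ofReal (1 / sn n * ig (sn n) 0 0 θ)) atTop ∂(kap D) :=
          lintegral_congr_ae (hlim.mono fun θ h => h.liminf_eq.symm)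
      _ ≤ liminf (fun n => ∫⁻ θ, ENNReal.ofReal (1 / sn n * ig (sn n) 0 0 θ) ∂(kap D)) atTop := hfatou
      _ ≤ liminf (fun _ : ℕ => ENNReal.ofReal (green (D + 1) 0)) atTop := by
          refine liminf_le_liminf (Eventually.of_forall fun n => ?_)
          show ∫⁻ θ, ENNReal.ofReal (1 / sn n * ig (sn n) 0 0 θ) ∂(kap D) ≤
            ENNReal.ofReal (green (D + 1) 0)
          rw [← ofReal_integral_eq_lintegral_ofReal (hint n) (Eventually.of_forall fun θ => hnn n θ),
            hval]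
          exact ENNReal.ofReal_le_ofReal (us_le_green hD n 0)
      _ = _ := liminf_const _
  refine ⟨hm.aestronglyMeasurable, ?_⟩
  rw [hasFiniteIntegral_iff_ofReal (Eventually.of_forall fun θ => ?_)]
  · exact lt_of_le_of_lt h1 ENNReal.ofReal_lt_top
  · have := sinh_nonneg' (D := D) one_pos le_rfl θ
    positivity

lemma ig_one_bd (x : Fin D → ℤ) (t : ℤ) (θ : Fin D → ℝ) : |ig 1 x t θ| ≤ 1 / (2 * Real.sinh (om 1 θ)) := by
  have hS := sinh_nonneg' (D := D) one_pos le_rfl θ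
  unfold ig
  rw [abs_mul, abs_div, Real.abs_exp]
  have h1 : |2 * Real.sinh (om 1 θ)| = 2 * Real.sinh (om 1 θ) := abs_of_nonneg (by linarith)
  rw [h1]
  have h2 : Real.exp (-(om 1 θ * |(t : ℝ)|)) ≤ 1 := by
    rw [Real.exp_le_one_iff]
    have := mul_nonneg (om_nonneg one_pos le_rfl θ) (abs_nonneg (t : ℝ))
    linarith
  calc |Real.cos (ph θ x)| * (Real.exp (-(om 1 θ * |(t : ℝ)|)) / (2 * Real.sinh (om 1 θ))) ≤
      1 * (1 / (2 * Real.sinh (om 1 θ))) :=
        mul_le_mul (Real.abs_cos_le_one _) (div_le_div_of_nonneg_right h2 (by linarith))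
          (div_nonneg (Real.exp_pos _).le (by linarith)) (by norm_num)
    _ = _ := one_mul _

lemma ig_one_meas (x : Fin D → ℤ) (t : ℤ) : Measurable (ig 1 x t) := by
  have h1 := (om_cont (D := D) one_pos le_rfl).measurable
  have h2 := (ph_cont x).measurable
  unfold ig
  exact (Real.measurable_cos.comp h2).mul ((Real.measurable_exp.comp
    (h1.mul_const _).neg).div ((Real.measurable_sinh.comp h1).const_mul 2))

lemma ig_one_int (hD : 2 ≤ D) (x : Fin D → ℤ) (t : ℤ) : Integrable (ig 1 x t) (kap D) :=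
  (inv_sinh_int hD).mono' (ig_one_meas x t).aestronglyMeasurable
    (Eventually.of_forall fun θ => by rw [Real.norm_eq_abs]; exact ig_one_bd x t θ)

/-- **The Green function in terms of the energies.** -/
theorem green_eq (hD : 2 ≤ D) (z : Fin (D + 1) → ℤ) :
    green (D + 1) z = ∫ θ, ig 1 (spc z) (z (Fin.last D)) θ ∂(kap D) := by
  refine tendsto_nhds_unique (us_lim hD z) ?_
  have h1 : ∀ n, us (D + 1) (sn n) z = ∫ θ, 1 / sn n * ig (sn n) (spc z) (z (Fin.last D)) θ ∂(kap D) := by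
    intro n
    rw [us_eq_gR (by linarith [(sn_mem n).1]) (sn_mem n).2, integral_const_mul]
    rfl
  simp only [h1]
  refine tendsto_integral_of_dominated_convergence
    (fun θ => 2 * (1 / (2 * Real.sinh (om 1 θ)))) (fun n => ?_) ((inv_sinh_int hD).const_mul 2)
    (fun n => ?_) ?_
  · exact ((ig_int (by linarith [(sn_mem n).1]) (sn_mem n).2 _ _).const_mul _).aestronglyMeasurable
  · filter_upwards [kap_ae] with θ hθ
    have hgt := cs_one_gt (i := ⟨0, by omega⟩) (cos_lt (hθ ⟨0, by omega⟩).1 (hθ _).2)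
    have hs := sn_mem n
    have hs0 : 0 < sn n := by linarith
    have hS := sinh_pos' hgt
    have hSn := lt_of_lt_of_le hS (sinh_mono n θ)
    unfold ig
    rw [Real.norm_eq_abs, abs_mul, abs_mul, abs_div (Real.exp _), Real.abs_exp,
      abs_of_pos (by positivity : 0 < 1 / sn n), abs_of_pos (by positivity : 0 < 2 * Real.sinh (om (sn n) θ))]
    have h2 : Real.exp (-(om (sn n) θ * |((z (Fin.last D) : ℤ) : ℝ)|)) ≤ 1 := by
      rw [Real.exp_le_one_iff]
      have := mul_nonneg (om_nonneg hs0 hs.2.le θ) (abs_nonneg ((z (Fin.last D) : ℤ) : ℝ))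
      linarith
    have h3 : 1 / sn n ≤ 2 := by
      rw [div_le_iff₀ hs0]
      linarith
    have h4 := sinh_mono n θ
    refine mul_le_mul h3 ?_ (by positivity) (by norm_num)
    calc |Real.cos (ph θ (spc z))| * (Real.exp (-(om (sn n) θ * |((z (Fin.last D) : ℤ) : ℝ)|)) /
          (2 * Real.sinh (om (sn n) θ))) ≤ 1 * (1 / (2 * Real.sinh (om 1 θ))) :=
          mul_le_mul (Real.abs_cos_le_one _) (div_le_div₀ (by norm_num) h2 (by positivity)
            (by linarith)) (by positivity) (by norm_num)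
      _ = _ := one_mul _
  · filter_upwards [kap_ae] with θ hθ
    exact ig_lim (cs_one_gt (i := ⟨0, by omega⟩) (cos_lt (hθ _).1 (hθ _).2)) _ _

end Pool.Agent.X134.SM
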