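import Pool.Agent.X134.SM.Cov2

/-!
# The convergence of the spectral measures
-/

open MeasureTheory Matrix Filter
open scoped Matrix.Norms.Frobenius ContDiff Topology
open Pool.Agent.H906R3.YM (LD)
open Pool.Agent.W793.YM (Ez lf gz EX)
open Pool.Agent.Results.MP_7f377f_mp.WilsonLoopsWeakCoupling

namespace Pool.Agent.X134.SM

set_option linter.unusedSectionVars false
set_option linter.unusedVariables false

noncomputable section

variable {D N n m : ℕ}

/-! ### the double sums of the Green function -/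

/-- the links of a loop -/
abbrev lkL (γ : Loop (D + 1)) : List (LinkZ (D + 1) × Bool) := links γ.base γ.steps

/-- signs -/
def sgL (γ : Loop (D + 1)) (e : Fin (lkL γ).length) : ℝ := if ((lkL γ).get e).2 then 1 else -1

/-- positions -/
def posL (γ : Loop (D + 1)) (e : Fin (lkL γ).length) : Fin D → ℤ := spc ((lkL γ).get e).1.1

/-- directions -/
def dirL (γ : Loop (D + 1)) (e : Fin (lkL γ).length) : Fin (D + 1) := ((lkL γ).get e).1.2

lemma links_flat (p : List (Fin (D + 1) × Bool)) (hp : ∀ s ∈ p, s.1 ≠ Fin.last D)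
    (x : Fin (D + 1) → ℤ) (hx : x (Fin.last D) = 0) : ∀ e ∈ links x p, e.1.1 (Fin.last D) = 0 := by
  induction p generalizing x with
  | nil => simp [links]
  | cons s p ih =>
    obtain ⟨i, s⟩ := s
    have hi : i ≠ Fin.last D := hp (i, s) List.mem_cons_self
    have hp' : ∀ s ∈ p, s.1 ≠ Fin.last D := fun s hs => hp s (List.mem_cons_of_mem _ hs)
    have h1 : (Pi.single i 1 : Fin (D + 1) → ℤ) (Fin.last D) = 0 := Pi.single_eq_of_ne (Ne.symm hi) _
    cases s with
    | true =>
      intro e he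
      simp only [links, List.mem_cons] at he
      rcases he with rfl | he
      · exact hx
      · exact ih hp' _ (by rw [Pi.add_apply, hx, h1, add_zero]) e he
    | false =>
      have h2 : (x - Pi.single i 1 : Fin (D + 1) → ℤ) (Fin.last D) = 0 := by
        rw [Pi.sub_apply, hx, h1, sub_zero]
      intro e he
      simp only [links, List.mem_cons] at he
      rcases he with rfl | he
      · exact h2
      · exact ih hp' _ h2 e he

lemma sum_get {α : Type*} (l : List α) (f : α → ℝ) : (l.map f).sum = ∑ i : Fin l.length, f (l.get i) := by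
  rw [← List.sum_ofFn]
  congr 1
  conv_lhs => rw [← List.ofFn_get l]
  rw [List.map_ofFn]
  rfl

/-- the double sum for a loop and a translated loop -/
theorem inter_KF (hD : 2 ≤ D) {γ : Loop (D + 1)} (hγ : Flat γ) (t : ℕ) (x : Fin D → ℤ) :
    inter γ (shl (ptz x t) γ) = KF (sgL γ) (posL γ) (dirL γ) t x := by
  have h0 := inter_sh γ γ 0 (ptz x t)
  rw [shl_zero] at h0
  rw [h0]
  simp only [sum_get]
  have hz := links_flat γ.steps hγ.steps γ.base hγ.base
  rw [← KF_eq (sgL γ) (posL γ) (dirL γ) hD t x (fun e e' => ((lkL γ).get e).1.1 -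
    ((lkL γ).get e').1.1 + (0 - ptz x t))]
  · refine Finset.sum_congr rfl fun e _ => Finset.sum_congr rfl fun e' _ => ?_
    unfold sgL dirL
    simp only [Pool.Agent.Results.MP_7f377f_mp.WilsonLoopsWeakCoupling.green_eq]
  · intro e e'
    funext j
    unfold posL spc
    simp only [Pi.add_apply, Pi.sub_apply, ptz_cast, Pi.zero_apply]
    ring
  · intro e e'
    simp only [Pi.add_apply, Pi.sub_apply, ptz_last, Pi.zero_apply]
    rw [hz _ (List.get_mem _ _), hz _ (List.get_mem _ _)]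
    ring

/-! ### spectral measures -/

/-- spectral measures -/
structure IsSp {G : Type*} [Group G] [TopologicalSpace G] [MeasurableSpace G]
    (ν : Measure (Ez (D + 1) → G)) (O : (Ez (D + 1) → G) → ℝ) (ρ : Measure (ℝ × (Fin D → ℂ))) :
    Prop where
  fin : IsFiniteMeasure ρ
  supp : ρ (KK D)ᶜ = 0
  mom : ∀ (t : ℕ) (x : Fin D → ℤ), mom ρ (t, x) = (cvZ ν O (ptz x t) : ℂ)

section abs

variable {G : Type*} [Group G] [TopologicalSpace G]
  [IsTopologicalGroup G] [CompactSpace G] [SecondCountableTopology G] [MeasurableSpace G]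
  [BorelSpace G] (μ : Measure G) [IsProbabilityMeasure μ] [μ.IsMulLeftInvariant]
  [μ.IsMulRightInvariant] [μ.IsInvInvariant] {L : LD G N n}
  {O : (Ez (D + 1) → G) → ℝ}

theorem sp_exists (hO : TZ O) {β : ℝ} (hβ : 0 ≤ β) {ν : Measure (Ez (D + 1) → G)}
    (hν : InfV μ L β ν) : ∃ ρ, IsSp ν O ρ := by
  obtain ⟨ρ, h1, h2, h3⟩ := exists_measure (corr_Z μ hO hβ hν)
  exact ⟨ρ, h1, h2, fun t x => h3 t x⟩

end abs

section uniq

variable {G : Type*} [Group G] [TopologicalSpace G] [MeasurableSpace G]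
  {ν : Measure (Ez (D + 1) → G)} {O : (Ez (D + 1) → G) → ℝ} {ρ ρ' : Measure (ℝ × (Fin D → ℂ))}

theorem sp_unique (h : IsSp ν O ρ) (h' : IsSp ν O ρ') : ρ = ρ' := by
  have h1 := h.fin
  have h2 := h'.fin
  exact mom_unique h.supp h'.supp fun q => by
    obtain ⟨t, x⟩ := q
    rw [h.mom, h'.mom]

end uniq

/-! ### products of measures -/

lemma mn_mul' (t : ℕ) (x : Fin D → ℤ) (p p' : ℝ × (Fin D → ℂ)) :
    mn t x (p * p') = mn t x p * mn t x p' := by
  unfold mn
  simp only [Prod.fst_mul, Prod.snd_mul, Pi.mul_apply]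
  push_cast
  simp only [mul_pow, mul_zpow, Finset.prod_mul_distrib]
  ring

lemma KK_mul {p p' : ℝ × (Fin D → ℂ)} (h : p ∈ KK D) (h' : p' ∈ KK D) : p * p' ∈ KK D := by
  refine ⟨⟨mul_nonneg h.1.1 h'.1.1, mul_le_one₀ h.1.2 h'.1.1 h'.1.2⟩, fun i => ?_⟩
  show ‖p.2 i * p'.2 i‖ = 1
  rw [norm_mul, h.2 i, h'.2 i, one_mul]

lemma KK_one : (1 : ℝ × (Fin D → ℂ)) ∈ KK D :=
  ⟨⟨zero_le_one, le_rfl⟩, fun i => by
    show ‖(1 : ℂ)‖ = 1
    exact norm_one⟩

/-- the powers of a measure -/
def cpw (ρ : Measure (ℝ × (Fin D → ℂ))) : ℕ → Measure (ℝ × (Fin D → ℂ))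
  | 0 => Measure.dirac 1
  | m + 1 => (ρ.prod (cpw ρ m)).map fun p => p.1 * p.2

/-- the support -/
def Sup {α : Type*} [TopologicalSpace α] [MeasurableSpace α] (ρ : Measure α) (x : α) : Prop :=
  ∀ O : Set α, IsOpen O → x ∈ O → 0 < ρ O

lemma mul_meas : Measurable fun p : (ℝ × (Fin D → ℂ)) × (ℝ × (Fin D → ℂ)) => p.1 * p.2 :=
  (continuous_fst.mul continuous_snd).measurable

lemma cpw_fin (ρ : Measure (ℝ × (Fin D → ℂ))) [IsFiniteMeasure ρ] (m : ℕ) :
    IsFiniteMeasure (cpw ρ m) := by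
  induction m with
  | zero => unfold cpw; infer_instance
  | succ m ih => unfold cpw; infer_instance

lemma cpw_supp {ρ : Measure (ℝ × (Fin D → ℂ))} [IsFiniteMeasure ρ] (h : ρ (KK D)ᶜ = 0) (m : ℕ) :
    cpw ρ m (KK D)ᶜ = 0 := by
  induction m with
  | zero =>
    unfold cpw
    rw [Measure.dirac_apply' _ KK_compact.isClosed.measurableSet.compl]
    simp [KK_one]
  | succ m ih =>
    have := cpw_fin ρ m
    unfold cpw
    rw [Measure.map_apply mul_meas KK_compact.isClosed.measurableSet.compl]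
    have h1 : (fun p : (ℝ × (Fin D → ℂ)) × (ℝ × (Fin D → ℂ)) => p.1 * p.2) ⁻¹' (KK D)ᶜ ⊆
        (KK D)ᶜ ×ˢ Set.univ ∪ Set.univ ×ˢ (KK D)ᶜ := by
      rintro ⟨p, q⟩ hpq
      by_contra hcon
      simp only [Set.mem_union, Set.mem_prod, Set.mem_compl_iff, Set.mem_univ, and_true, true_and,
        not_or, not_not] at hcon
      exact hpq (KK_mul hcon.1 hcon.2)
    refine measure_mono_null h1 (measure_union_null ?_ ?_)
    · rw [Measure.prod_prod, h, zero_mul]
    · rw [Measure.prod_prod, ih, mul_zero]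

lemma cpw_mom {ρ : Measure (ℝ × (Fin D → ℂ))} [IsFiniteMeasure ρ] (m : ℕ) (q : ℕ × (Fin D → ℤ)) :
    mom (cpw ρ m) q = mom ρ q ^ m := by
  induction m with
  | zero =>
    unfold mom cpw
    rw [integral_dirac, pow_zero]
    unfold mn
    simp
  | succ m ih =>
    have := cpw_fin ρ m
    have h1 : mom (cpw ρ (m + 1)) q = mom ρ q * mom (cpw ρ m) q := by
      unfold mom
      rw [cpw, integral_map mul_meas.aemeasurable (mn_meas q.1 q.2).aestronglyMeasurable]
      simp only [mn_mul']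
      rw [integral_prod_mul]
    rw [h1, ih, pow_succ']

lemma sup_one : Sup (Measure.dirac (1 : ℝ × (Fin D → ℂ))) 1 := by
  intro O hO h1
  rw [Measure.dirac_apply' _ hO.measurableSet]
  simp [h1]

lemma sup_mul {ρ ρ' : Measure (ℝ × (Fin D → ℂ))} [IsFiniteMeasure ρ] [IsFiniteMeasure ρ']
    {x y : ℝ × (Fin D → ℂ)} (h : Sup ρ x) (h' : Sup ρ' y) :
    Sup ((ρ.prod ρ').map fun p => p.1 * p.2) (x * y) := by
  intro O hO hxy
  rw [Measure.map_apply mul_meas hO.measurableSet]
  have h1 : IsOpen ((fun p : (ℝ × (Fin D → ℂ)) × (ℝ × (Fin D → ℂ)) => p.1 * p.2) ⁻¹' O) :=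
    hO.preimage (continuous_fst.mul continuous_snd)
  obtain ⟨u, v, hu, hv, hxu, hyv, huv⟩ := isOpen_prod_iff.1 h1 x y hxy
  refine lt_of_lt_of_le ?_ (measure_mono huv)
  rw [Measure.prod_prod]
  exact ENNReal.mul_pos (h u hu hxu).ne' (h' v hv hyv).ne'

/-- a lower bound for the measures of the open sets which is stable -/
lemma bump {ρ : Measure (ℝ × (Fin D → ℂ))} [IsFiniteMeasure ρ] {x : ℝ × (Fin D → ℂ)}
    (h : Sup ρ x) {O : Set (ℝ × (Fin D → ℂ))} (hO : IsOpen O) (hx : x ∈ O) :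
    ∃ f : ℝ × (Fin D → ℂ) → ℝ, Continuous f ∧ (∀ p, 0 ≤ f p) ∧ (∀ p, f p ≤ 1) ∧
      (∀ p, p ∉ O → f p = 0) ∧ 0 < ∫ p, f p ∂ρ := by
  obtain ⟨r, hr, hrO⟩ := Metric.isOpen_iff.1 hO x hx
  refine ⟨fun p => max 0 (1 - dist p x / r), by fun_prop, fun p => le_max_left _ _, fun p => ?_,
    fun p hp => ?_, ?_⟩
  · refine max_le zero_le_one ?_
    have : 0 ≤ dist p x / r := by positivity
    linarith
  · have h1 : r ≤ dist p x := by
      by_contra hcon
      exact hp (hrO (Metric.mem_ball.2 (not_le.1 hcon)))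
    refine max_eq_left ?_
    have : 1 ≤ dist p x / r := (one_le_div hr).2 h1
    linarith
  · have hc : Continuous fun p : ℝ × (Fin D → ℂ) => max 0 (1 - dist p x / r) := by fun_prop
    have hi : Integrable (fun p : ℝ × (Fin D → ℂ) => max 0 (1 - dist p x / r)) ρ := by
      refine Integrable.mono' (integrable_const (1 : ℝ)) hc.aestronglyMeasurable
        (Eventually.of_forall fun p => ?_)
      rw [Real.norm_eq_abs, abs_of_nonneg (le_max_left _ _)]
      refine max_le zero_le_one ?_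
      have : 0 ≤ dist p x / r := by positivity
      linarith
    have hnn : (0 : ℝ × (Fin D → ℂ) → ℝ) ≤ fun p => max 0 (1 - dist p x / r) :=
      fun p => le_max_left _ _
    rw [integral_pos_iff_support_of_nonneg hnn hi]
    refine lt_of_lt_of_le (h (Metric.ball x r) Metric.isOpen_ball (Metric.mem_ball_self hr))
      (measure_mono fun p hp => ?_)
    have h1 : dist p x / r < 1 := (div_lt_one hr).2 (Metric.mem_ball.1 hp)
    rw [Function.mem_support]
    have h2 : 0 < 1 - dist p x / r := by linarith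
    exact (lt_of_lt_of_le h2 (le_max_right _ _)).ne'

end

end Pool.Agent.X134.SM
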