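import Pool.Agent.X134.SM.Lim

/-!
# The limits of the covariances at weak coupling
-/

open MeasureTheory Matrix Filter
open scoped Matrix.Norms.Frobenius ContDiff Topology
open Pool.Agent.H906R3.YM (LD)
open Pool.Agent.W793.YM (Ez lf gz EX)
open Pool.Agent.Results.MP_7f377f_mp.WilsonLoopsWeakCoupling

namespace Pool.Agent.X134.SM

set_option linter.unusedSectionVars false
set_option linter.unusedVariables false

noncomputable section

section inv

variable {D : ℕ} {G : Type*} [Group G] [TopologicalSpace G]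
  [IsTopologicalGroup G] [CompactSpace G] [SecondCountableTopology G] [MeasurableSpace G]
  [BorelSpace G] (μ : Measure G) [IsProbabilityMeasure μ] [μ.IsMulLeftInvariant]
  [μ.IsMulRightInvariant] [μ.IsInvInvariant] {N n : ℕ} {L : LD G N n}
  {O : (Ez (D + 1) → G) → ℝ}

/-- translation invariance of the infinite volume limits -/
lemma int_sh (hO : Continuous O) {β : ℝ} {ν : Measure (Ez (D + 1) → G)} (hν : InfV μ L β ν)
    (v : Fin (D + 1) → ℤ) : ∫ V, O (sh v V) ∂ν = ∫ V, O V ∂ν := by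
  obtain ⟨sq, hsq, hlim⟩ := hν.lim
  refine tendsto_nhds_unique (hlim (fun V => O (sh v V)) (hO.comp (sh_cont v))) ?_
  refine (hlim O hO).congr fun j => ?_
  have h1 := EX_Ot μ (L := L) (m := sq j + 1) (O := O) β v
  unfold Ot at h1
  rw [h1]
  unfold sh
  simp only [add_zero]

end inv

variable {D N n : ℕ} {G : Subgroup (UU N)} [MeasurableSpace G] [BorelSpace G]
  (μ : Measure G) [IsProbabilityMeasure μ] [μ.IsHaarMeasure]

lemma compG (hG : IsClosed (G : Set (UU N))) : CompactSpace G := by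
  have h1 : IsCompact (G : Set (UU N)) := hG.isCompact
  exact isCompact_iff_compactSpace.1 h1

lemma secG : SecondCountableTopology G := by
  have h00 : SecondCountableTopology (UU N) := TopologicalSpace.Subtype.secondCountableTopology _
  exact TopologicalSpace.Subtype.secondCountableTopology _

section

variable [CompactSpace G] [SecondCountableTopology G]

lemma infV_of (B : LieBasis G n) {β : ℝ} {ν : Measure (LinkZ (D + 1) → G)} (h : IsInfVol μ β ν) :
    InfV μ (ld B) β ν := by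
  obtain ⟨sq, hsq, hlim⟩ := h.lim
  refine ⟨h.prob, sq, hsq, fun F hF => ?_⟩
  refine (hlim F hF).congr fun j => ?_
  rw [expect_eq μ B]

end

/-- the moments of a fixed family of loop variables -/
lemma mom_lim1 (hD : 2 ≤ D) (hG : IsClosed (G : Set (UU N))) (B : LieBasis G n) {k : ℕ}
    (γ : Fin k → Loop (D + 1)) {ε : ℝ} (hε : 0 < ε) : ∃ β₀ : ℝ, ∀ β : ℝ, β₀ ≤ β →
      ∀ ν : Measure (LinkZ (D + 1) → G), IsInfVol μ β ν →
        |∫ V, ∏ r, loopVar n β (γ r) V ∂ν - (1 / 2) ^ k * wicks n γ| ≤ ε := by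
  obtain ⟨K, R₀, C, h⟩ := result (d := D + 1) (by omega) G hG μ B k 1
  obtain ⟨M₁, hM₁⟩ := exists_nat_ge (∑ r, ((γ r).length : ℝ))
  obtain ⟨M₂, hM₂⟩ := exists_nat_ge (∑ r, ∑ s, ∑ i, (|(γ r).base i - (γ s).base i| : ℤ) : ℝ)
  obtain ⟨M₃, hM₃⟩ := exists_nat_ge (|C| / ε)
  obtain ⟨R, hR⟩ : ∃ R : ℕ, R = R₀ + M₁ + M₂ + M₃ + 1 := ⟨_, rfl⟩
  refine ⟨(R : ℝ) ^ K, fun β hβ ν hν => ?_⟩
  have h1 := (h R (by omega) β hβ).1 γ (fun r => ?_) (fun r s i => ?_)
  · refine (h1.2 ν hν).trans ?_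
    rw [pow_one]
    have h2 : (0 : ℝ) < R := by rw [hR]; positivity
    rw [div_le_iff₀ h2]
    have h3 : |C| ≤ M₃ * ε := by rwa [div_le_iff₀ hε] at hM₃
    have h4 : (M₃ : ℝ) ≤ R := by exact_mod_cast (by omega : M₃ ≤ R)
    have h5 := le_abs_self C
    nlinarith
  · have h2 : ((γ r).length : ℝ) ≤ ∑ r, ((γ r).length : ℝ) :=
      Finset.single_le_sum (f := fun r => ((γ r).length : ℝ)) (fun r _ => Nat.cast_nonneg _)
        (Finset.mem_univ r)
    have h3 : (γ r).length ≤ M₁ := by exact_mod_cast h2.trans hM₁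
    omega
  · have h2 : (((|(γ r).base i - (γ s).base i| : ℤ)) : ℝ) ≤
        ∑ r, ∑ s, ∑ i, ((|(γ r).base i - (γ s).base i| : ℤ) : ℝ) := by
      have hn : ∀ r s i, (0 : ℝ) ≤ ((|(γ r).base i - (γ s).base i| : ℤ) : ℝ) := fun r s i => by
        exact_mod_cast abs_nonneg _
      refine (Finset.single_le_sum (f := fun i => ((|(γ r).base i - (γ s).base i| : ℤ) : ℝ))
        (fun i _ => hn r s i) (Finset.mem_univ i)).trans ?_
      refine (Finset.single_le_sum (f := fun s => ∑ i, ((|(γ r).base i - (γ s).base i| : ℤ) : ℝ))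
        (fun s _ => Finset.sum_nonneg fun i _ => hn r s i) (Finset.mem_univ s)).trans ?_
      exact Finset.single_le_sum (f := fun r => ∑ s, ∑ i, ((|(γ r).base i - (γ s).base i| : ℤ) : ℝ))
        (fun r _ => Finset.sum_nonneg fun s _ => Finset.sum_nonneg fun i _ => hn r s i)
        (Finset.mem_univ r)
    have h3 : |(γ r).base i - (γ s).base i| ≤ (M₂ : ℤ) := by exact_mod_cast h2.trans hM₂
    have h4 : (M₂ : ℤ) ≤ (R : ℤ) := by rw [hR]; push_cast; omega
    exact h3.trans h4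

end

end Pool.Agent.X134.SM
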