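import Pool.Agent.X134.SM.Cov

/-!
# The limits of the covariances at weak coupling
-/

open MeasureTheory Matrix Filter
open scoped Matrix.Norms.Frobenius ContDiff Topology
open Pool.Agent.H906R3.YM (LD)
open Pool.Agent.W793.YM (Ez lf gz EX)
open Pool.Agent.Results.MP_7f377f_mp.WilsonLoopsWeakCoupling

namespace Pool.Agent.X134.SM

set_option linter.unusedSectionVars false
set_option linter.unusedVariables false

noncomputable section

variable {D N n m : ℕ} {G : Subgroup (UU N)}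

lemma prod_dbl (β : ℝ) (γ : Fin m → Loop (D + 1)) (v : Fin (D + 1) → ℤ) (V : LinkZ (D + 1) → G) :
    ∏ i, loopVar n β (dbl γ v i) V =
      (∏ r, loopVar n β (γ r) V) * ∏ r, loopVar n β (γ r) (sh v V) := by
  rw [← Finset.prod_mul_distrib, ← Equiv.prod_comp finProdFinEquiv, Fintype.prod_prod_type]
  refine Finset.prod_congr rfl fun r _ => ?_
  rw [Fin.prod_univ_two]
  unfold dbl
  simp only [Equiv.symm_apply_apply, if_true]
  rw [shl_zero]
  simp only [one_ne_zero, if_false]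
  rw [loopVar_sh β (γ r) v V (inter_shift _ _ _)]

variable [MeasurableSpace G] [BorelSpace G]
  (μ : Measure G) [IsProbabilityMeasure μ] [μ.IsHaarMeasure]

/-- the covariance of products of separated loop variables -/
theorem cov_lim (hD : 2 ≤ D) (hG : IsClosed (G : Set (UU N))) (B : LieBasis G n) (hm : 0 < m)
    (γ : Fin m → Loop (D + 1)) (v : Fin (D + 1) → ℤ) {ε : ℝ} (hε : 0 < ε) :
    ∃ S₀ : ℕ, ∀ S, S₀ ≤ S → ∃ β₀ : ℝ, ∀ β : ℝ, β₀ ≤ β →
      ∀ ν : Measure (LinkZ (D + 1) → G), IsInfVol μ β ν →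
        |cvZ ν (fun V => ∏ r, loopVar n β (sepL S γ r) V) v -
          ∏ r, (n / 2 * inter (γ r) (shl v (γ r)) ^ 2)| ≤ ε := by
  obtain ⟨η, hη, hη1, hη2⟩ : ∃ η : ℝ, 0 < η ∧ η ≤ 1 ∧ η ≤ ε / 4 :=
    ⟨min 1 (ε / 4), lt_min one_pos (by positivity), min_le_left _ _, min_le_right _ _⟩
  have h1 := Metric.tendsto_atTop.1 (wicks_sep hD n γ v) (ε / 4) (by positivity)
  have h2 := Metric.tendsto_atTop.1 ((wicks_sep0 hD hm n γ).const_mul ((1 / 2 : ℝ) ^ m)) (η / 2)
    (by positivity)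
  obtain ⟨S₁, h1⟩ := h1
  obtain ⟨S₂, h2⟩ := h2
  refine ⟨max S₁ S₂, fun S hS => ?_⟩
  have h1' := h1 S (le_of_max_le_left hS)
  have h2' := h2 S (le_of_max_le_right hS)
  rw [mul_zero, Real.dist_eq, sub_zero] at h2'
  rw [Real.dist_eq] at h1'
  obtain ⟨β₁, h3⟩ := mom_lim1 μ hD hG B (dbl (sepL S γ) v) (ε := ε / 4) (by positivity)
  obtain ⟨β₂, h4⟩ := mom_lim1 μ hD hG B (sepL S γ) (ε := η / 2) (by positivity)
  refine ⟨max β₁ β₂, fun β hβ ν hν => ?_⟩
  have h3' := h3 β (le_of_max_le_left hβ) ν hν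
  have h4' := h4 β (le_of_max_le_right hβ) ν hν
  simp only [prod_dbl] at h3'
  have h5 : |∫ V, ∏ r, loopVar n β (sepL S γ r) V ∂ν| ≤ η := by
    have h6 := abs_add_le ((∫ V, ∏ r, loopVar n β (sepL S γ r) V ∂ν) -
      (1 / 2) ^ m * wicks n (sepL S γ)) ((1 / 2) ^ m * wicks n (sepL S γ))
    rw [sub_add_cancel] at h6
    linarith
  have h6 : (∫ V, ∏ r, loopVar n β (sepL S γ r) V ∂ν) ^ 2 ≤ ε / 4 := by
    rw [← sq_abs]
    have h7 := abs_nonneg (∫ V, ∏ r, loopVar n β (sepL S γ r) V ∂ν)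
    nlinarith
  have h7 := sq_nonneg (∫ V, ∏ r, loopVar n β (sepL S γ r) V ∂ν)
  unfold cvZ
  have h1'' := h1'.le
  rw [abs_le] at h3' h1'' ⊢
  constructor <;> linarith [h3'.1, h3'.2, h1''.1, h1''.2]

/-- the covariance of a single Wilson loop -/
theorem cov_lim1 (hD : 2 ≤ D) (hG : IsClosed (G : Set (UU N))) (B : LieBasis G n)
    (γ : Loop (D + 1)) (v : Fin (D + 1) → ℤ) {ε : ℝ} (hε : 0 < ε) :
    ∃ β₀ : ℝ, ∀ β : ℝ, β₀ ≤ β →
      ∀ ν : Measure (LinkZ (D + 1) → G), IsInfVol μ β ν →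
        |β ^ 2 * cvZ ν (wilson γ) v - n / 2 * inter γ (shl v γ) ^ 2| ≤ ε := by
  obtain ⟨η, hη, hη1, hη2⟩ : ∃ η : ℝ, 0 < η ∧ η ≤ 1 ∧ η ≤ ε / 2 :=
    ⟨min 1 (ε / 2), lt_min one_pos (by positivity), min_le_left _ _, min_le_right _ _⟩
  obtain ⟨β₁, h3⟩ := mom_lim1 μ hD hG B (![γ, shl v γ]) (ε := ε / 2) (by positivity)
  obtain ⟨β₂, h4⟩ := mom_lim1 μ hD hG B (![γ]) (ε := η) hη
  refine ⟨max β₁ β₂, fun β hβ ν hν => ?_⟩
  have := compG hG
  have := secG (G := G)
  have := right_inv μ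
  have := inv_inv' μ
  have hp := hν.prob
  have h3' := h3 β (le_of_max_le_left hβ) ν hν
  have h4' := h4 β (le_of_max_le_right hβ) ν hν
  have hw := wilson_cont (G := G) γ
  have hw' : Continuous fun V : LinkZ (D + 1) → G => wilson γ (sh v V) := hw.comp (sh_cont v)
  rw [wicks_two] at h3'
  rw [wicks_one] at h4'
  simp only [Fin.prod_univ_two, Fin.prod_univ_one, Matrix.cons_val_zero, Matrix.cons_val_one,
    mul_zero, sub_zero, loopVar_sh β γ v _ (inter_shift _ _ _)] at h3' h4'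
  have hi : ∀ f : (LinkZ (D + 1) → G) → ℝ, Continuous f → Integrable f ν := fun f hf =>
    hf.integrable_of_hasCompactSupport (HasCompactSupport.of_compactSpace _)
  have h5 : ∫ V, loopVar n β γ V * loopVar n β γ (sh v V) ∂ν - (∫ V, loopVar n β γ V ∂ν) ^ 2 =
      β ^ 2 * cvZ ν (wilson γ) v := by
    obtain ⟨c, hc⟩ : ∃ c : ℝ, c = β * N - n / 2 * inter γ γ := ⟨_, rfl⟩
    have e1 : ∀ V : LinkZ (D + 1) → G, loopVar n β γ V = c - β * wilson γ V := by
      intro V
      unfold loopVar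
      rw [hc]
      ring
    have e2 : ∫ V, loopVar n β γ V ∂ν = c - β * ∫ V, wilson γ V ∂ν := by
      simp only [e1]
      rw [integral_sub (integrable_const _) ((hi _ hw).const_mul β), integral_const_mul]
      simp
    have e3 : ∫ V, loopVar n β γ V * loopVar n β γ (sh v V) ∂ν = c ^ 2 - c * β * ∫ V, wilson γ V ∂ν -
        c * β * ∫ V, wilson γ V ∂ν + β ^ 2 * ∫ V, wilson γ V * wilson γ (sh v V) ∂ν := by
      have e4 := int_sh μ hw (infV_of μ B hν) v
      have e5 : ∀ V : LinkZ (D + 1) → G, loopVar n β γ V * loopVar n β γ (sh v V) =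
          ((c ^ 2 - c * β * wilson γ V) - c * β * wilson γ (sh v V)) +
            β ^ 2 * (wilson γ V * wilson γ (sh v V)) := by
        intro V
        rw [e1, e1]
        ring
      simp only [e5]
      have i1 : Integrable (fun V : LinkZ (D + 1) → G => c ^ 2 - c * β * wilson γ V) ν :=
        hi _ (continuous_const.sub (continuous_const.mul hw))
      have i2 : Integrable (fun V : LinkZ (D + 1) → G => c * β * wilson γ (sh v V)) ν :=
        hi _ (continuous_const.mul hw')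
      have i3 : Integrable (fun V : LinkZ (D + 1) → G => β ^ 2 * (wilson γ V * wilson γ (sh v V))) ν :=
        hi _ (continuous_const.mul (hw.mul hw'))
      have i4 : Integrable (fun V : LinkZ (D + 1) → G => c ^ 2 - c * β * wilson γ V -
          c * β * wilson γ (sh v V)) ν := i1.sub i2
      have i5 : Integrable (fun V : LinkZ (D + 1) → G => c * β * wilson γ V) ν :=
        hi _ (continuous_const.mul hw)
      rw [integral_add i4 i3, integral_sub i1 i2, integral_sub (integrable_const _) i5,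
        integral_const_mul, integral_const_mul, integral_const_mul, e4]
      simp
    rw [e2, e3]
    unfold cvZ
    ring
  rw [← h5]
  have h6 : (∫ V, loopVar n β γ V ∂ν) ^ 2 ≤ ε / 2 := by
    rw [← sq_abs]
    have h7 := abs_nonneg (∫ V, loopVar n β γ V ∂ν)
    nlinarith
  have h7 := sq_nonneg (∫ V, loopVar n β γ V ∂ν)
  have h8 : (1 / 2 : ℝ) ^ 2 * (2 * n * inter γ (shl v γ) ^ 2) = n / 2 * inter γ (shl v γ) ^ 2 := by
    ring
  rw [h8] at h3'
  rw [abs_le] at h3' ⊢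
  constructor <;> linarith [h3'.1, h3'.2]

end

end Pool.Agent.X134.SM
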