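import Pool.Agent.X134.SM.Haf

/-!
# The decay of the Green function
-/

open MeasureTheory Matrix Filter
open scoped Matrix.Norms.Frobenius ContDiff Topology
open Pool.Agent.Results.MP_7f377f_mp.WilsonLoopsWeakCoupling
open Pool.Agent.W793.SCH (pk)

namespace Pool.Agent.X134.SM

set_option linter.unusedSectionVars false
set_option linter.unusedVariables false

noncomputable section

variable {d : ℕ}

lemma pk_far (i : Fin d) (k : ℕ) : ∀ z : Fin d → ℤ, (k : ℤ) < |z i| → pk d k z = 0 := by
  induction k with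
  | zero =>
    intro z hz
    unfold pk
    rw [if_neg]
    rintro rfl
    simp at hz
  | succ k ih =>
    intro z hz
    push_cast at hz
    have h1 : ∀ j : Fin d, |(Pi.single j 1 : Fin d → ℤ) i| ≤ 1 := by
      intro j
      by_cases h : i = j
      · subst h; simp
      · rw [Pi.single_eq_of_ne h]; simp
    unfold pk
    rw [ih z (by omega)]
    have h2 : ∑ j, (pk d k (z + Pi.single j 1) + pk d k (z - Pi.single j 1)) = 0 := by
      refine Finset.sum_eq_zero fun j _ => ?_
      have h3 := h1 j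
      have h4 := abs_add_le (z i + (Pi.single j 1 : Fin d → ℤ) i) (-(Pi.single j 1 : Fin d → ℤ) i)
      rw [add_neg_cancel_right, abs_neg] at h4
      have h5 := abs_sub_abs_le_abs_sub (z i) ((Pi.single j 1 : Fin d → ℤ) i)
      rw [ih _ (by rw [Pi.add_apply]; omega), ih _ (by rw [Pi.sub_apply]; omega), add_zero]
    rw [h2]
    ring

lemma green_decay (hd : 3 ≤ d) (i : Fin d) (z : ℕ → Fin d → ℤ)
    (hz : Tendsto (fun q => |z q i|) atTop atTop) :
    Tendsto (fun q => green d (z q)) atTop (𝓝 0) := by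
  obtain ⟨C, hC, hS⟩ := Pool.Agent.W793.SCH.a_SUP d (by omega)
  have hsum : Summable fun k : ℕ => if k = 0 then (1 : ℝ) else C * (1 / (k : ℝ) ^ ((3 : ℝ) / 2)) := by
    have h1 := (Real.summable_one_div_nat_rpow (p := (3 : ℝ) / 2)).2 (by norm_num)
    have h2 := h1.mul_left C
    refine (h2.add (summable_of_hasFiniteSupport (f := fun k : ℕ => if k = 0 then
      (1 : ℝ) - C * (1 / (k : ℝ) ^ ((3 : ℝ) / 2)) else 0) ?_)).congr fun k => ?_
    · refine (Set.finite_singleton 0).subset fun k hk => ?_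
      by_contra h
      exact hk (if_neg h)
    · split_ifs <;> ring
  have hb : ∀ k (w : Fin d → ℤ), |pk d k w| ≤ if k = 0 then (1 : ℝ) else
      C * (1 / (k : ℝ) ^ ((3 : ℝ) / 2)) := by
    intro k w
    rw [abs_of_nonneg (pk_le_one d (by omega) k w).1]
    split_ifs with h
    · exact (pk_le_one d (by omega) k w).2
    · have hk : (1 : ℝ) ≤ k := by exact_mod_cast Nat.one_le_iff_ne_zero.2 h
      refine ((hS k w).2 (Nat.one_le_iff_ne_zero.2 h)).trans ?_
      rw [div_eq_mul_one_div]
      refine mul_le_mul_of_nonneg_left ?_ hC.le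
      have h3 : (k : ℝ) ^ ((3 : ℝ) / 2) = Real.sqrt k ^ 3 := by
        rw [Real.sqrt_eq_rpow, ← Real.rpow_natCast, ← Real.rpow_mul (by linarith)]
        norm_num
      rw [h3]
      have h4 : 1 ≤ Real.sqrt k := Real.one_le_sqrt.2 hk
      exact one_div_le_one_div_of_le (by positivity) (pow_le_pow_right₀ h4 hd)
  have h0 : Tendsto (fun q => ∑' k, pk d k (z q)) atTop (𝓝 (∑' k : ℕ, (0 : ℝ))) := by
    refine tendsto_tsum_of_dominated_convergence hsum (fun k => ?_)
      (Eventually.of_forall fun q k => by rw [Real.norm_eq_abs]; exact hb k (z q))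
    refine tendsto_const_nhds.congr' ?_
    filter_upwards [hz.eventually_gt_atTop (k : ℤ)] with q hq
    exact (pk_far i k (z q) hq).symm
  rw [tsum_zero] at h0
  have h1 := h0.const_mul (1 / (4 * d : ℝ))
  rw [mul_zero] at h1
  refine h1.congr fun q => ?_
  rw [Pool.Agent.Results.MP_7f377f_mp.WilsonLoopsWeakCoupling.green_eq]
  rfl

variable {D : ℕ}

lemma tendsto_abs_add {z : ℕ → ℤ} (hz : Tendsto (fun q => |z q|) atTop atTop) (c : ℤ) :
    Tendsto (fun q => |c + z q|) atTop atTop := by
  refine tendsto_atTop_mono (fun q => ?_) (tendsto_atTop_add_const_right _ (-|c|) hz)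
  have h := abs_add_le (c + z q) (-c)
  rw [abs_neg] at h
  have : c + z q + -c = z q := by ring
  rw [this] at h
  linarith

lemma inter_decay (hd : 3 ≤ D + 1) (γ γ' : Loop (D + 1)) (i : Fin (D + 1))
    (v w : ℕ → Fin (D + 1) → ℤ) (h : Tendsto (fun q => |v q i - w q i|) atTop atTop) :
    Tendsto (fun q => inter (shl (v q) γ) (shl (w q) γ')) atTop (𝓝 0) := by
  have h0 : ∀ (l : List (LinkZ (D + 1) × Bool)), ((l.map fun _ => (0 : ℝ)).sum) = 0 := by
    intro l
    simp
  have h1 : Tendsto (fun q => ((links γ.base γ.steps).map fun e =>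
      ((links γ'.base γ'.steps).map fun e' =>
      if e.1.2 = e'.1.2 then (if e.2 then 1 else -1) * (if e'.2 then 1 else -1) *
        green (D + 1) (e.1.1 - e'.1.1 + (v q - w q)) else 0).sum).sum) atTop
      (𝓝 (((links γ.base γ.steps).map fun _ => (0 : ℝ)).sum)) := by
    refine tendsto_list_sum _ fun e _ => ?_
    suffices h5 : Tendsto (fun q => ((links γ'.base γ'.steps).map fun e' =>
        if e.1.2 = e'.1.2 then (if e.2 then 1 else -1) * (if e'.2 then 1 else -1) *
        green (D + 1) (e.1.1 - e'.1.1 + (v q - w q)) else 0).sum) atTop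
        (𝓝 (((links γ'.base γ'.steps).map fun _ => (0 : ℝ)).sum)) by
      rwa [h0] at h5
    refine tendsto_list_sum _ fun e' _ => ?_
    by_cases he : e.1.2 = e'.1.2
    · simp only [if_pos he]
      have h2 := green_decay hd i (fun q => e.1.1 - e'.1.1 + (v q - w q))
        (tendsto_abs_add h ((e.1.1 - e'.1.1) i))
      have h3 := h2.const_mul ((if e.2 then 1 else -1) * (if e'.2 then 1 else -1) : ℝ)
      rwa [mul_zero] at h3
    · simp only [if_neg he]
      exact tendsto_const_nhds
  rw [h0] at h1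
  refine h1.congr fun q => ?_
  rw [inter_sh]

/-- the positions -/
def sep (S m : ℕ) (r : Fin m) : Fin (D + 1) → ℤ := ptz (fun _ => (r : ℤ) * S) 0

lemma sep_tendsto {m : ℕ} (hD : 1 ≤ D) {r s : Fin m} (h : r ≠ s) (v w : Fin (D + 1) → ℤ) :
    Tendsto (fun S : ℕ => |(sep (D := D) S m r + v) (Fin.castSucc (⟨0, hD⟩ : Fin D)) -
      (sep (D := D) S m s + w) (Fin.castSucc (⟨0, hD⟩ : Fin D))|) atTop atTop := by
  unfold sep
  simp only [Pi.add_apply, ptz_cast]
  have h1 : ∀ S : ℕ, (r : ℤ) * S + v (Fin.castSucc (⟨0, hD⟩ : Fin D)) -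
      ((s : ℤ) * S + w (Fin.castSucc (⟨0, hD⟩ : Fin D))) =
      (v (Fin.castSucc (⟨0, hD⟩ : Fin D)) - w (Fin.castSucc (⟨0, hD⟩ : Fin D))) +
        ((r : ℤ) - s) * S := by
    intro S; ring
  simp only [h1]
  refine tendsto_abs_add ?_ _
  have h2 : 1 ≤ |(r : ℤ) - s| := by
    refine Int.one_le_abs (sub_ne_zero.2 fun h3 => h (Fin.ext ?_))
    exact_mod_cast h3
  refine tendsto_atTop_mono (fun S => ?_) tendsto_natCast_atTop_atTop
  rw [abs_mul, abs_of_nonneg (Int.natCast_nonneg S)]
  nlinarith [Int.natCast_nonneg S]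

end

end Pool.Agent.X134.SM
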