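import Pool.Agent.X134.SM.Fejer

/-!
# Existence of the spectral measure
-/

set_option autoImplicit false
open Finset MeasureTheory Filter Topology
open scoped ENNReal NNReal

namespace Pool.Agent.X134.SM

variable {D : ℕ}

/-- the set of the pairs (eigenvalue of the transfer matrix, momentum) -/
def KK (D : ℕ) : Set (ℝ × (Fin D → ℂ)) := {p | p.1 ∈ Set.Icc (0 : ℝ) 1 ∧ ∀ i, ‖p.2 i‖ = 1}

lemma KK_compact : IsCompact (KK D) := by
  have h1 : KK D = Set.Icc (0 : ℝ) 1 ×ˢ Set.pi Set.univ fun _ => Metric.sphere (0 : ℂ) 1 := by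
    ext p
    simp [KK, Set.mem_pi]
  rw [h1]
  exact isCompact_Icc.prod (isCompact_univ_pi fun _ => isCompact_sphere _ _)

/-- the compact space -/
abbrev XX (D : ℕ) := ↥(KK D)

instance : CompactSpace (XX D) := isCompact_iff_compactSpace.1 KK_compact

/-- the monomials -/
noncomputable def mn (t : ℕ) (x : Fin D → ℤ) (p : ℝ × (Fin D → ℂ)) : ℂ :=
  (p.1 : ℂ) ^ t * ∏ i, p.2 i ^ x i

/-- inclusion -/
def inc (p : XX D) : ℝ × (Fin D → ℂ) := p.1

lemma inc_emb : MeasurableEmbedding (inc (D := D)) :=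
  MeasurableEmbedding.subtype_coe KK_compact.isClosed.measurableSet

lemma inc_cont : Continuous (inc (D := D)) := continuous_subtype_val

lemma mn_cont (t : ℕ) (x : Fin D → ℤ) : Continuous fun p : XX D => mn t x (inc p) := by
  unfold mn inc
  refine Continuous.mul (by fun_prop) (continuous_finsetProd _ fun i _ => ?_)
  have h1 : Continuous fun p : XX D => p.1.2 i := by fun_prop
  refine h1.zpow₀ _ fun p => Or.inl ?_
  have := p.2.2 i
  intro h0
  rw [h0, norm_zero] at this
  norm_num at this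

lemma node_mem {N : ℕ} (k : Fin (N + 1)) : ((k : ℕ) : ℝ) / N ∈ Set.Icc (0 : ℝ) 1 := by
  constructor
  · positivity
  · have : ((k : ℕ) : ℝ) ≤ N := by exact_mod_cast Nat.lt_succ_iff.1 k.2
    exact div_le_one_of_le₀ this (Nat.cast_nonneg _)

/-- the parametrisation -/
noncomputable def pm (N : ℕ) (k : Fin (N + 1)) (θ : Fin D → ℝ) : XX D :=
  ⟨(((k : ℕ) : ℝ) / N, fun i => Complex.exp (θ i * Complex.I)),
    ⟨node_mem k, fun i => Complex.norm_exp_ofReal_mul_I _⟩⟩

lemma pm_cont (N : ℕ) (k : Fin (N + 1)) : Continuous (pm (D := D) N k) := by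
  unfold pm
  fun_prop

lemma mn_pm (t : ℕ) (x : Fin D → ℤ) (N : ℕ) (k : Fin (N + 1)) (θ : Fin D → ℝ) :
    mn t x (inc (pm N k θ)) = ((((k : ℕ) : ℝ) / N : ℝ) : ℂ) ^ t * Complex.exp (Complex.I * (ph θ x : ℝ)) := by
  unfold mn inc pm ph
  congr 1
  push_cast
  rw [mul_sum, Complex.exp_sum]
  refine prod_congr rfl fun i _ => ?_
  show Complex.exp (θ i * Complex.I) ^ x i = _
  rw [← Complex.exp_int_mul]
  congr 1
  ring

variable {c : ℕ → (Fin D → ℤ) → ℝ}

/-- the approximating measures -/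
noncomputable def MN (c : ℕ → (Fin D → ℤ) → ℝ) (N : ℕ) : Measure (XX D) :=
  ∑ k : Fin (N + 1), Measure.map (pm N k)
    ((kap D).withDensity fun θ => ENNReal.ofReal ((N.choose k : ℝ) * fd c N k θ))

lemma dens_cont (c : ℕ → (Fin D → ℤ) → ℝ) (N k : ℕ) :
    Continuous fun θ : Fin D → ℝ => (N.choose k : ℝ) * fd c N k θ :=
  continuous_const.mul (fd_cont c N k)

lemma fd_bd (c : ℕ → (Fin D → ℤ) → ℝ) (N k : ℕ) : ∃ M : ℝ, ∀ θ : Fin D → ℝ, |fd c N k θ| ≤ M := by
  refine ⟨1 / (N : ℝ) ^ D * ∑ z ∈ bx D N ×ˢ bx D N, |cc c k (N - k) (z.1 - z.2)|, fun θ => ?_⟩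
  unfold fd
  rw [abs_mul, abs_of_nonneg (by positivity : (0 : ℝ) ≤ 1 / (N : ℝ) ^ D)]
  refine mul_le_mul_of_nonneg_left ((abs_sum_le_sum_abs _ _).trans (sum_le_sum fun z _ => ?_))
    (by positivity)
  rw [abs_mul]
  exact mul_le_of_le_one_right (abs_nonneg _) (Real.abs_cos_le_one _)

lemma dens_int (c : ℕ → (Fin D → ℤ) → ℝ) (N k : ℕ) :
    Integrable (fun θ : Fin D → ℝ => (N.choose k : ℝ) * fd c N k θ) (kap D) := by
  obtain ⟨M, hM⟩ := fd_bd c N k
  exact (Integrable.of_bound (fd_cont c N k).aestronglyMeasurable M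
    (Eventually.of_forall fun θ => by rw [Real.norm_eq_abs]; exact hM θ)).const_mul _

instance (N k : ℕ) : IsFiniteMeasure
    ((kap D).withDensity fun θ => ENNReal.ofReal ((N.choose k : ℝ) * fd c N k θ)) :=
  isFiniteMeasure_withDensity_ofReal (dens_int c N k).2

instance (N : ℕ) : IsFiniteMeasure (MN c N) := by
  unfold MN
  infer_instance

lemma int_MN (h : Corr c) (N : ℕ) {f : XX D → ℂ} (hf : Continuous f) :
    ∫ p, f p ∂(MN c N) = ∑ k : Fin (N + 1),
      ∫ θ, (((N.choose k : ℝ) * fd c N k θ : ℝ) : ℂ) * f (pm N k θ) ∂(kap D) := by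
  have hc : ∀ k : Fin (N + 1), Integrable f (Measure.map (pm N k)
      ((kap D).withDensity fun θ => ENNReal.ofReal ((N.choose k : ℝ) * fd c N k θ))) := by
    intro k
    obtain ⟨M, hM⟩ := (isCompact_univ (X := XX D)).exists_bound_of_continuousOn hf.continuousOn
    refine Integrable.of_bound hf.aestronglyMeasurable M
      (Eventually.of_forall fun p => hM p (Set.mem_univ _))
  unfold MN
  rw [integral_finsetSum_measure fun k _ => hc k]
  refine sum_congr rfl fun k _ => ?_
  rw [integral_map (pm_cont N k).aemeasurable hf.aestronglyMeasurable,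
    integral_withDensity_eq_integral_toReal_smul
      (dens_cont c N k).measurable.ennreal_ofReal
      (Eventually.of_forall fun θ => ENNReal.ofReal_lt_top)]
  refine integral_congr_ae (Eventually.of_forall fun θ => ?_)
  show (ENNReal.ofReal ((N.choose k : ℝ) * fd c N k θ)).toReal • f (pm N k θ) = _
  rw [ENNReal.toReal_ofReal (mul_nonneg (by positivity) (fd_nonneg h N k θ)), Complex.real_smul]

lemma mom_MN (h : Corr c) (N t : ℕ) (x : Fin D → ℤ) :
    ∫ p, mn t x (inc p) ∂(MN c N) = (((cnt D N x : ℝ) / (N : ℝ) ^ D * ∑ k ∈ range (N + 1),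
      (N.choose k : ℝ) * ((k : ℝ) / N) ^ t * cc c k (N - k) x : ℝ) : ℂ) := by
  rw [int_MN h N (mn_cont t x), mul_sum, sum_range]
  push_cast
  refine sum_congr rfl fun k _ => ?_
  have h1 : ∀ θ : Fin D → ℝ, ((N.choose k : ℂ) * ((fd c N k θ : ℝ) : ℂ)) *
      mn t x (inc (pm N k θ)) = ((N.choose k : ℂ) * (((k : ℕ) : ℂ) / N) ^ t) *
        (((fd c N k θ : ℝ) : ℂ) * Complex.exp (Complex.I * (ph θ x : ℝ))) := by
    intro θ
    rw [mn_pm]
    push_cast
    ring
  simp only [h1]
  rw [integral_const_mul, fd_moment h]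
  push_cast
  ring

lemma mass_eq (c : ℕ → (Fin D → ℤ) → ℝ) (N : ℕ) (x : Fin D → ℤ) :
    ∑ k ∈ range (N + 1), (N.choose k : ℝ) * cc c k (N - k) x = c 0 x := by
  have h1 := quad (fun j => c j x) (N := N) (t := 0) (Nat.zero_le _)
  simp only [Nat.choose_zero_right, Nat.cast_one, div_one, mul_one] at h1
  exact h1

lemma c_zero_nonneg (h : Corr c) : 0 ≤ c 0 0 := by
  rw [← mass_eq c 0 0]
  exact sum_nonneg fun k _ => mul_nonneg (by positivity) (cc_zero_nonneg h _ _)

lemma mom_close (h : Corr c) {N t : ℕ} (hN : 2 * t < N) (x : Fin D → ℤ) :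
    |∑ k ∈ range (N + 1), (N.choose k : ℝ) * ((k : ℝ) / N) ^ t * cc c k (N - k) x - c t x| ≤
      (t : ℝ) ^ 2 * (2 / N) * c 0 0 := by
  have h1 := quad (fun j => c j x) (N := N) (t := t) (by omega)
  have h2 : c t x = ∑ k ∈ range (N + 1), (N.choose k : ℝ) *
      ((k.choose t : ℝ) / (N.choose t : ℝ)) * cc c k (N - k) x := h1.symm
  rw [h2, ← sum_sub_distrib, ← mass_eq c N 0, mul_sum]
  refine (abs_sum_le_sum_abs _ _).trans (sum_le_sum fun k hk => ?_)
  have hk' : k ≤ N := Nat.lt_succ_iff.1 (mem_range.1 hk)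
  have h3 : (N.choose k : ℝ) * ((k : ℝ) / N) ^ t * cc c k (N - k) x - (N.choose k : ℝ) *
      ((k.choose t : ℝ) / (N.choose t : ℝ)) * cc c k (N - k) x =
      (((k : ℝ) / N) ^ t - (k.choose t : ℝ) / (N.choose t : ℝ)) *
        ((N.choose k : ℝ) * cc c k (N - k) x) := by ring
  rw [h3, abs_mul, abs_mul, abs_of_nonneg (by positivity : (0 : ℝ) ≤ (N.choose k : ℝ))]
  exact mul_le_mul (nodes t hN hk') (mul_le_mul_of_nonneg_left (cc_le h _ _ _) (by positivity))
    (by positivity) (by positivity)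

lemma mom_lim (h : Corr c) (t : ℕ) (x : Fin D → ℤ) :
    Tendsto (fun N : ℕ => ∫ p, mn t x (inc p) ∂(MN c N)) atTop (𝓝 (c t x : ℂ)) := by
  simp only [mom_MN h]
  refine (Complex.continuous_ofReal.tendsto _).comp ?_
  have h1 : Tendsto (fun N : ℕ => ∑ k ∈ range (N + 1),
      (N.choose k : ℝ) * ((k : ℝ) / N) ^ t * cc c k (N - k) x) atTop (𝓝 (c t x)) := by
    rw [tendsto_iff_dist_tendsto_zero]
    have h2 : Tendsto (fun N : ℕ => (t : ℝ) ^ 2 * (2 / N) * c 0 0) atTop (𝓝 0) := by
      have := ((tendsto_const_div_atTop_nhds_zero_nat 2).const_mul ((t : ℝ) ^ 2)).mul_const (c 0 0)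
      simpa using this
    refine squeeze_zero' (Eventually.of_forall fun N => dist_nonneg) ?_ h2
    filter_upwards [eventually_gt_atTop (2 * t)] with N hN
    rw [Real.dist_eq]
    exact mom_close h hN x
  have h3 := (cnt_lim x).mul h1
  rw [one_mul] at h3
  exact h3

lemma c_bd (h : Corr c) (t : ℕ) (x : Fin D → ℤ) : |c t x| ≤ c 0 0 := by
  have h1 : ∀ t, |c t x| ≤ c t 0 ∧ c (t + 1) 0 ≤ c t 0 := by
    intro t
    have e1 : ∀ y, cc c t 0 y = c t y := by
      intro y
      unfold cc
      rw [pow_zero, mul_one, LL_X_pow]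
    constructor
    · have := cc_le h t 0 x
      rwa [e1, e1] at this
    · have h2 := cc_zero_nonneg h t 1
      unfold cc at h2
      have h3 : (Polynomial.X : Polynomial ℝ) ^ t * (1 - Polynomial.X) ^ 1 =
          Polynomial.X ^ t - Polynomial.X ^ (t + 1) := by ring
      rw [h3, map_sub, LL_X_pow, LL_X_pow] at h2
      linarith
  have h2 : ∀ t, c t 0 ≤ c 0 0 := by
    intro t
    induction t with
    | zero => exact le_rfl
    | succ t ih => exact (h1 t).2.trans ih
  exact (h1 t).1.trans (h2 t)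

lemma re_int {α : Type*} [MeasurableSpace α] {Q : Measure α} {f : α → ℂ} (h : Integrable f Q) :
    (∫ a, f a ∂Q).re = ∫ a, (f a).re ∂Q := (integral_re h).symm

lemma im_int {α : Type*} [MeasurableSpace α] {Q : Measure α} {f : α → ℂ} (h : Integrable f Q) :
    (∫ a, f a ∂Q).im = ∫ a, (f a).im ∂Q := (integral_im h).symm

/-- **Existence of the spectral measure.** -/
theorem exists_measure (h : Corr c) : ∃ ρ : Measure (ℝ × (Fin D → ℂ)), IsFiniteMeasure ρ ∧
    ρ (KK D)ᶜ = 0 ∧ ∀ t x, ∫ p, mn t x p ∂ρ = (c t x : ℂ) := by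
  rcases (c_zero_nonneg h).eq_or_lt with h0 | h0
  · refine ⟨0, inferInstance, by simp, fun t x => ?_⟩
    have := c_bd h t x
    rw [← h0] at this
    have h1 : c t x = 0 := abs_nonpos_iff.1 this
    rw [h1]
    simp
  · -- normalised measures
    have hmass : ∀ N, 1 ≤ N → (MN c N).real Set.univ = c 0 0 := by
      intro N hN
      have h1 := mom_MN h N 0 0
      have h2 : ∀ p : XX D, mn 0 0 (inc p) = 1 := by
        intro p
        unfold mn
        simp
      simp only [h2] at h1
      rw [integral_const, Complex.real_smul, mul_one] at h1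
      have h3 : (cnt D N 0 : ℝ) / (N : ℝ) ^ D = 1 := by
        have hN0 : (N : ℝ) ^ D ≠ 0 := by positivity
        have e1 : cnt D N 0 = N ^ D := by
          rw [cnt_eq]
          simp
        rw [e1]
        push_cast
        exact div_self hN0
      have h4 : ∑ k ∈ range (N + 1), (N.choose k : ℝ) * ((k : ℝ) / N) ^ 0 * cc c k (N - k) 0 =
          c 0 0 := by
        simp only [pow_zero, mul_one]
        exact mass_eq c N 0
      rw [h3, h4, one_mul] at h1
      exact_mod_cast h1
    have hP : ∀ N : ℕ, IsProbabilityMeasure ((ENNReal.ofReal (c 0 0)⁻¹) • MN c (N + 1)) := by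
      intro N
      constructor
      rw [Measure.smul_apply, smul_eq_mul]
      have h1 : MN c (N + 1) Set.univ = ENNReal.ofReal (c 0 0) := by
        rw [← hmass (N + 1) (by omega), Measure.real, ENNReal.ofReal_toReal (measure_ne_top _ _)]
      rw [h1, ← ENNReal.ofReal_mul (by positivity), inv_mul_cancel₀ h0.ne', ENNReal.ofReal_one]
    obtain ⟨Q, hQ⟩ : ∃ Q : ℕ → ProbabilityMeasure (XX D), ∀ N, (Q N : Measure (XX D)) =
      (ENNReal.ofReal (c 0 0)⁻¹) • MN c (N + 1) := ⟨fun N => ⟨_, hP N⟩, fun N => rfl⟩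
    obtain ⟨P, s, hs, hlim⟩ := CompactSpace.tendsto_subseq Q
    have hreal : ∀ f : C(XX D, ℝ), Tendsto (fun j => (c 0 0)⁻¹ * ∫ p, f p ∂(MN c (s j + 1))) atTop
        (𝓝 (∫ p, f p ∂(P : Measure (XX D)))) := by
      intro f
      have h1 := (ProbabilityMeasure.tendsto_iff_forall_integral_tendsto.1 hlim)
        (BoundedContinuousFunction.mkOfCompact f)
      simp only [Function.comp_apply, BoundedContinuousFunction.mkOfCompact_apply] at h1
      refine h1.congr fun j => ?_
      rw [hQ]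
      rw [integral_smul_measure, ENNReal.toReal_ofReal (by positivity), smul_eq_mul]
    have hmom : ∀ t x, ∫ p, mn t x (inc p) ∂(P : Measure (XX D)) = ((c 0 0)⁻¹ * c t x : ℝ) := by
      intro t x
      have hcm : Continuous fun p : XX D => mn t x (inc p) := mn_cont t x
      have hi : ∀ (Q : Measure (XX D)) [IsFiniteMeasure Q],
          Integrable (fun p : XX D => mn t x (inc p)) Q := by
        intro Q _
        obtain ⟨M, hM⟩ := (isCompact_univ (X := XX D)).exists_bound_of_continuousOn hcm.continuousOn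
        exact Integrable.of_bound hcm.aestronglyMeasurable M
          (Eventually.of_forall fun p => hM p (Set.mem_univ _))
      have hl := (mom_lim h t x).comp ((tendsto_add_atTop_nat 1).comp hs.tendsto_atTop)
      apply Complex.ext
      · have h1 := hreal ⟨fun p => (mn t x (inc p)).re, Complex.continuous_re.comp hcm⟩
        have h2 : Tendsto (fun j => (c 0 0)⁻¹ * ∫ p, (mn t x (inc p)).re ∂(MN c (s j + 1))) atTop
            (𝓝 ((c 0 0)⁻¹ * c t x)) := by
          have h3 := ((Complex.continuous_re.tendsto _).comp hl).const_mul (c 0 0)⁻¹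
          refine h3.congr fun j => ?_
          show (c 0 0)⁻¹ * (∫ p, mn t x (inc p) ∂(MN c (s j + 1))).re = _
          rw [re_int (hi _)]
        have h4 := tendsto_nhds_unique h1 h2
        have h5 : (∫ p, mn t x (inc p) ∂(P : Measure (XX D))).re =
            ∫ p, (mn t x (inc p)).re ∂(P : Measure (XX D)) := re_int (hi _)
        rw [h5]
        simpa using h4
      · have h1 := hreal ⟨fun p => (mn t x (inc p)).im, Complex.continuous_im.comp hcm⟩
        have h2 : Tendsto (fun j => (c 0 0)⁻¹ * ∫ p, (mn t x (inc p)).im ∂(MN c (s j + 1))) atTop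
            (𝓝 ((c 0 0)⁻¹ * 0)) := by
          have h3 := ((Complex.continuous_im.tendsto _).comp hl).const_mul (c 0 0)⁻¹
          refine h3.congr fun j => ?_
          show (c 0 0)⁻¹ * (∫ p, mn t x (inc p) ∂(MN c (s j + 1))).im = _
          rw [im_int (hi _)]
        have h4 := tendsto_nhds_unique h1 h2
        have h5 : (∫ p, mn t x (inc p) ∂(P : Measure (XX D))).im =
            ∫ p, (mn t x (inc p)).im ∂(P : Measure (XX D)) := im_int (hi _)
        rw [h5]
        simpa using h4
    refine ⟨(ENNReal.ofReal (c 0 0)) • Measure.map inc (P : Measure (XX D)), ?_, ?_, fun t x => ?_⟩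
    · exact Measure.smul_finite _ ENNReal.ofReal_ne_top
    · rw [Measure.smul_apply, Measure.map_apply inc_cont.measurable
        KK_compact.isClosed.measurableSet.compl]
      have : inc ⁻¹' (KK D)ᶜ = (∅ : Set (XX D)) := by
        ext p
        simp only [Set.mem_preimage, Set.mem_compl_iff, Set.mem_empty_iff_false, iff_false,
          not_not]
        exact p.2
      rw [this, measure_empty, smul_zero]
    · rw [integral_smul_measure, ENNReal.toReal_ofReal h0.le, inc_emb.integral_map, hmom,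
        Complex.real_smul]
      have h0' : (c 0 0 : ℂ) ≠ 0 := by exact_mod_cast h0.ne'
      push_cast
      field_simp

end Pool.Agent.X134.SM
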