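import Pool.Agent.X134.SM.Haus

/-!
# Fejer sums of correlation functions with reflection positivity
-/

set_option autoImplicit false
open Polynomial Finset MeasureTheory

namespace Pool.Agent.X134.SM

variable {D : ℕ}

/-- hypotheses on the correlation function: `c t x` -/
structure Corr (c : ℕ → (Fin D → ℤ) → ℝ) : Prop where
  even : ∀ t x, c t (-x) = c t x
  rp0 : ∀ (s : Finset (ℕ × (Fin D → ℤ))) (a : ℕ × (Fin D → ℤ) → ℝ),
    0 ≤ ∑ p ∈ s, ∑ q ∈ s, a p * a q * c (p.1 + q.1) (p.2 - q.2)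
  rp1 : ∀ (s : Finset (ℕ × (Fin D → ℤ))) (a : ℕ × (Fin D → ℤ) → ℝ),
    0 ≤ ∑ p ∈ s, ∑ q ∈ s, a p * a q * c (p.1 + q.1 + 1) (p.2 - q.2)
  bd : ∃ M, ∀ t x, |c t x| ≤ M

lemma LL_sq (m : ℕ → ℝ) (e : ℕ) (q : ℝ[X]) : LL m (X ^ e * q ^ 2) =
    ∑ s ∈ range (q.natDegree + 1), ∑ t ∈ range (q.natDegree + 1),
      q.coeff s * q.coeff t * m (s + t + e) := by
  have h1 : q = ∑ i ∈ range (q.natDegree + 1), C (q.coeff i) * X ^ i := q.as_sum_range_C_mul_X_pow
  have h2 : (X : ℝ[X]) ^ e * q ^ 2 = ∑ s ∈ range (q.natDegree + 1),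
      ∑ t ∈ range (q.natDegree + 1), (q.coeff s * q.coeff t) • (X : ℝ[X]) ^ (s + t + e) := by
    conv_lhs => rw [h1, pow_two, sum_mul_sum, mul_sum]
    refine sum_congr rfl fun s _ => ?_
    rw [mul_sum]
    refine sum_congr rfl fun t _ => ?_
    rw [smul_eq_C_mul, C_mul]
    ring
  rw [h2, map_sum]
  refine sum_congr rfl fun s _ => ?_
  rw [map_sum]
  refine sum_congr rfl fun t _ => ?_
  rw [map_smul, LL_X_pow, smul_eq_mul]

/-- the sequence of a finite combination of translations -/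
def sq (c : ℕ → (Fin D → ℤ) → ℝ) (S : Finset (Fin D → ℤ)) (a : (Fin D → ℤ) → ℝ) (j : ℕ) : ℝ :=
  ∑ z ∈ S ×ˢ S, (a z.1 * a z.2) * c j (z.1 - z.2)

lemma prod4 (c : ℕ → (Fin D → ℤ) → ℝ) (S : Finset (Fin D → ℤ)) (a : (Fin D → ℤ) → ℝ) (R : Finset ℕ)
    (b : ℕ → ℝ) (e : ℕ) : ∑ s ∈ R, ∑ t ∈ R, b s * b t * sq c S a (s + t + e) =
      ∑ p ∈ R ×ˢ S, ∑ q ∈ R ×ˢ S, (b p.1 * a p.2) * (b q.1 * a q.2) *
        c (p.1 + q.1 + e) (p.2 - q.2) := by
  unfold sq
  rw [sum_product]
  refine sum_congr rfl fun s _ => ?_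
  simp only [sum_product, mul_sum]
  rw [sum_comm]
  refine sum_congr rfl fun x _ => ?_
  refine sum_congr rfl fun t _ => ?_
  refine sum_congr rfl fun y _ => ?_
  ring

theorem Corr.pos {c : ℕ → (Fin D → ℤ) → ℝ} (h : Corr c) (S : Finset (Fin D → ℤ))
    (a : (Fin D → ℤ) → ℝ) : Pos (sq c S a) where
  sq q := by
    have h1 := LL_sq (sq c S a) 0 q
    rw [pow_zero, one_mul] at h1
    rw [h1, prod4]
    exact h.rp0 _ (fun p => q.coeff p.1 * a p.2)
  sq1 q := by
    have h1 := LL_sq (sq c S a) 1 q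
    rw [pow_one] at h1
    rw [h1, prod4]
    exact h.rp1 _ (fun p => q.coeff p.1 * a p.2)
  bd := by
    obtain ⟨M, hM⟩ := h.bd
    refine ⟨∑ z ∈ S ×ˢ S, |a z.1 * a z.2| * M, fun j => ?_⟩
    unfold SM.sq
    refine (abs_sum_le_sum_abs _ _).trans (sum_le_sum fun z _ => ?_)
    rw [abs_mul]
    exact mul_le_mul_of_nonneg_left (hM _ _) (abs_nonneg _)

/-- the mixed differences -/
noncomputable def cc (c : ℕ → (Fin D → ℤ) → ℝ) (n k : ℕ) (x : Fin D → ℤ) : ℝ :=
  LL (fun j => c j x) (X ^ n * (1 - X) ^ k)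

lemma cc_even {c : ℕ → (Fin D → ℤ) → ℝ} (h : Corr c) (n k : ℕ) (x : Fin D → ℤ) :
    cc c n k (-x) = cc c n k x := by
  unfold cc
  simp only [h.even]

lemma cc_pd {c : ℕ → (Fin D → ℤ) → ℝ} (h : Corr c) (n k : ℕ) (S : Finset (Fin D → ℤ))
    (a : (Fin D → ℤ) → ℝ) : 0 ≤ ∑ z ∈ S ×ˢ S, (a z.1 * a z.2) * cc c n k (z.1 - z.2) := by
  have h1 := (h.pos S a).mono n k
  unfold sq at h1
  rw [LL_sum_seq] at h1
  exact h1

lemma cc_zero_nonneg {c : ℕ → (Fin D → ℤ) → ℝ} (h : Corr c) (n k : ℕ) : 0 ≤ cc c n k 0 := by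
  have := cc_pd h n k {0} (fun _ => 1)
  simpa using this

lemma cc_le {c : ℕ → (Fin D → ℤ) → ℝ} (h : Corr c) (n k : ℕ) (x : Fin D → ℤ) :
    |cc c n k x| ≤ cc c n k 0 := by
  classical
  rcases eq_or_ne x 0 with rfl | hx
  · rw [abs_of_nonneg (cc_zero_nonneg h n k)]
  have key : ∀ e : ℝ, e ^ 2 = 1 → 0 ≤ 2 * cc c n k 0 + 2 * e * cc c n k x := by
    intro e he
    have h1 := cc_pd h n k {0, x} (fun y => if y = 0 then 1 else e)
    rw [sum_product, sum_pair hx.symm, sum_pair hx.symm, sum_pair hx.symm] at h1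
    simp only [sub_self, if_true, if_neg hx, zero_sub, sub_zero, cc_even h] at h1
    have h2 : 1 * 1 * cc c n k 0 + 1 * e * cc c n k x + (e * 1 * cc c n k x + e * e * cc c n k 0) =
        2 * cc c n k 0 + 2 * e * cc c n k x := by
      linear_combination cc c n k 0 * he
    linarith
  have k1 := key 1 (by norm_num)
  have k2 := key (-1) (by norm_num)
  rw [abs_le]
  constructor <;> linarith

/-! ### the momentum space -/

/-- the normalised Lebesgue measure on `(-π, π]` -/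
noncomputable def nu1 : Measure ℝ :=
  (ENNReal.ofReal (1 / (2 * Real.pi))) • volume.restrict (Set.Ioc (-Real.pi) Real.pi)

instance : IsProbabilityMeasure nu1 := by
  constructor
  unfold nu1
  rw [Measure.smul_apply, Measure.restrict_apply_univ, Real.volume_Ioc, smul_eq_mul,
    ← ENNReal.ofReal_mul (by positivity)]
  have : 1 / (2 * Real.pi) * (Real.pi - -Real.pi) = 1 := by
    have := Real.pi_pos
    field_simp
    ring
  rw [this, ENNReal.ofReal_one]

/-- the normalised Lebesgue measure on the cube -/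
noncomputable def kap (D : ℕ) : Measure (Fin D → ℝ) := Measure.pi fun _ => nu1

instance : IsProbabilityMeasure (kap D) := by
  unfold kap
  infer_instance

lemma int_nu1 (n : ℤ) : ∫ θ, Complex.exp (Complex.I * (θ * n)) ∂nu1 = if n = 0 then 1 else 0 := by
  have hpi := Real.pi_pos
  have hpi' : (Real.pi : ℂ) ≠ 0 := by exact_mod_cast hpi.ne'
  unfold nu1
  rw [integral_smul_measure, ← intervalIntegral.integral_of_le (by linarith),
    ENNReal.toReal_ofReal (by positivity)]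
  split_ifs with h
  · subst h
    simp only [Int.cast_zero, mul_zero, Complex.exp_zero, intervalIntegral.integral_const,
      Complex.real_smul]
    push_cast
    field_simp
    ring
  · have hn : (Complex.I * n : ℂ) ≠ 0 := mul_ne_zero Complex.I_ne_zero (by exact_mod_cast h)
    have h1 := integral_exp_mul_complex (a := -Real.pi) (b := Real.pi) hn
    have h2 : ∀ θ : ℝ, Complex.exp (Complex.I * (θ * n)) = Complex.exp (Complex.I * n * θ) := by
      intro θ
      congr 1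
      ring
    simp only [h2]
    rw [h1]
    have h3 : Complex.exp (Complex.I * n * (Real.pi : ℝ)) =
        Complex.exp (Complex.I * n * ((-Real.pi : ℝ) : ℂ)) := by
      rw [Complex.exp_eq_exp_iff_exists_int]
      refine ⟨n, ?_⟩
      push_cast
      ring
    rw [h3, sub_self, zero_div, smul_zero]

/-- the phase -/
noncomputable def ph (θ : Fin D → ℝ) (z : Fin D → ℤ) : ℝ := ∑ i, θ i * z i

lemma ph_cont (z : Fin D → ℤ) : Continuous fun θ : Fin D → ℝ => ph θ z := by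
  unfold ph
  fun_prop

lemma ph_add (θ : Fin D → ℝ) (z w : Fin D → ℤ) : ph θ (z + w) = ph θ z + ph θ w := by
  unfold ph
  rw [← sum_add_distrib]
  refine sum_congr rfl fun i _ => ?_
  rw [Pi.add_apply]
  push_cast
  ring

lemma ph_neg (θ : Fin D → ℝ) (z : Fin D → ℤ) : ph θ (-z) = -ph θ z := by
  unfold ph
  rw [← sum_neg_distrib]
  refine sum_congr rfl fun i _ => ?_
  rw [Pi.neg_apply]
  push_cast
  ring

lemma ph_sub (θ : Fin D → ℝ) (z w : Fin D → ℤ) : ph θ (z - w) = ph θ z - ph θ w := by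
  rw [sub_eq_add_neg, ph_add, ph_neg]
  ring

lemma int_kap (z : Fin D → ℤ) :
    ∫ θ, Complex.exp (Complex.I * (ph θ z : ℝ)) ∂(kap D) = if z = 0 then 1 else 0 := by
  have h1 : ∀ θ : Fin D → ℝ, Complex.exp (Complex.I * (ph θ z : ℝ)) =
      ∏ i, Complex.exp (Complex.I * (θ i * z i)) := by
    intro θ
    rw [← Complex.exp_sum, ← mul_sum]
    unfold ph
    push_cast
    rfl
  simp only [h1]
  unfold kap
  rw [integral_fintype_prod_eq_prod (𝕜 := ℂ)
    (f := fun (i : Fin D) (θ : ℝ) => Complex.exp (Complex.I * (θ * z i)))]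
  simp only [int_nu1]
  split_ifs with h
  · subst h
    simp
  · obtain ⟨i, hi⟩ := Function.ne_iff.1 h
    exact prod_eq_zero (mem_univ i) (if_neg hi)

/-! ### the Fejer sums -/

/-- the box `{0, ..., N - 1}^D` -/
noncomputable def bx (D N : ℕ) : Finset (Fin D → ℤ) := Fintype.piFinset fun _ => Finset.Ico (0 : ℤ) N

lemma bx_card (N : ℕ) : (bx D N).card = N ^ D := by
  unfold bx
  rw [Fintype.card_piFinset]
  simp

/-- the number of pairs with given difference -/
noncomputable def cnt (D N : ℕ) (z : Fin D → ℤ) : ℕ :=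
  ((bx D N ×ˢ bx D N).filter fun w => w.1 - w.2 = z).card

lemma cnt_eq (N : ℕ) (z : Fin D → ℤ) : cnt D N z = ∏ i, (N - (z i).natAbs) := by
  classical
  have h1 : cnt D N z = (Fintype.piFinset fun i =>
      (Finset.Ico (0 : ℤ) N).filter fun y => y + z i ∈ Finset.Ico (0 : ℤ) N).card := by
    unfold cnt
    symm
    refine Finset.card_bij (fun (y : Fin D → ℤ) _ => (y + z, y)) ?_ ?_ ?_
    · intro y hy
      rw [Fintype.mem_piFinset] at hy
      rw [mem_filter, mem_product]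
      refine ⟨⟨?_, ?_⟩, ?_⟩
      · unfold bx
        rw [Fintype.mem_piFinset]
        exact fun i => (mem_filter.1 (hy i)).2
      · unfold bx
        rw [Fintype.mem_piFinset]
        exact fun i => (mem_filter.1 (hy i)).1
      · simp
    · intro y _ y' _ h
      exact (Prod.ext_iff.1 h).2
    · rintro ⟨x, y⟩ h
      rw [mem_filter, mem_product] at h
      obtain ⟨⟨hx, hy⟩, hz⟩ := h
      simp only at hx hy hz
      unfold bx at hx hy
      rw [Fintype.mem_piFinset] at hx hy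
      refine ⟨y, ?_, ?_⟩
      · rw [Fintype.mem_piFinset]
        intro i
        rw [mem_filter]
        refine ⟨hy i, ?_⟩
        rw [← hz, Pi.sub_apply, add_sub_cancel]
        exact hx i
      · rw [← hz]
        simp
  rw [h1, Fintype.card_piFinset]
  refine prod_congr rfl fun i _ => ?_
  have h2 : (Finset.Ico (0 : ℤ) N).filter (fun y => y + z i ∈ Finset.Ico (0 : ℤ) N) =
      Finset.Ico (max 0 (-z i)) (min N (N - z i)) := by
    ext y
    simp only [mem_filter, mem_Ico]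
    omega
  rw [h2, Int.card_Ico]
  omega

lemma cnt_lim (z : Fin D → ℤ) : Filter.Tendsto (fun N : ℕ => (cnt D N z : ℝ) / (N : ℝ) ^ D)
    Filter.atTop (nhds 1) := by
  have h1 : ∀ i : Fin D, Filter.Tendsto (fun N : ℕ => ((N - (z i).natAbs : ℕ) : ℝ) / (N : ℝ))
      Filter.atTop (nhds 1) := by
    intro i
    have h2 : Filter.Tendsto (fun N : ℕ => 1 - ((z i).natAbs : ℝ) / (N : ℝ))
        Filter.atTop (nhds (1 - 0)) :=
      tendsto_const_nhds.sub (tendsto_const_div_atTop_nhds_zero_nat _)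
    rw [sub_zero] at h2
    refine h2.congr' ?_
    filter_upwards [Filter.eventually_ge_atTop ((z i).natAbs + 1)] with N hN
    have : ((N - (z i).natAbs : ℕ) : ℝ) = (N : ℝ) - (z i).natAbs := by
      rw [Nat.cast_sub (by omega)]
    rw [this]
    have hN0 : (N : ℝ) ≠ 0 := by
      have : 0 < N := by omega
      positivity
    field_simp
  have h3 := tendsto_finsetProd (Finset.univ : Finset (Fin D)) fun i _ => h1 i
  simp only [prod_const_one] at h3
  refine h3.congr fun N => ?_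
  rw [cnt_eq, prod_div_distrib, prod_const, card_univ, Fintype.card_fin]
  push_cast
  rfl

/-- the Fejer density -/
noncomputable def fd (c : ℕ → (Fin D → ℤ) → ℝ) (N k : ℕ) (θ : Fin D → ℝ) : ℝ :=
  1 / (N : ℝ) ^ D * ∑ z ∈ bx D N ×ˢ bx D N, cc c k (N - k) (z.1 - z.2) * Real.cos (ph θ (z.1 - z.2))

lemma fd_cont (c : ℕ → (Fin D → ℤ) → ℝ) (N k : ℕ) : Continuous (fd c N k) := by
  unfold fd
  refine continuous_const.mul (continuous_finsetSum _ fun z _ => continuous_const.mul ?_)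
  exact Real.continuous_cos.comp (ph_cont _)

lemma fd_nonneg {c : ℕ → (Fin D → ℤ) → ℝ} (h : Corr c) (N k : ℕ) (θ : Fin D → ℝ) :
    0 ≤ fd c N k θ := by
  unfold fd
  refine mul_nonneg (by positivity) ?_
  have h1 := cc_pd h k (N - k) (bx D N) (fun x => Real.cos (ph θ x))
  have h2 := cc_pd h k (N - k) (bx D N) (fun x => Real.sin (ph θ x))
  have h3 : ∑ z ∈ bx D N ×ˢ bx D N, cc c k (N - k) (z.1 - z.2) * Real.cos (ph θ (z.1 - z.2)) =
      ∑ z ∈ bx D N ×ˢ bx D N, (Real.cos (ph θ z.1) * Real.cos (ph θ z.2)) *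
        cc c k (N - k) (z.1 - z.2) + ∑ z ∈ bx D N ×ˢ bx D N,
          (Real.sin (ph θ z.1) * Real.sin (ph θ z.2)) * cc c k (N - k) (z.1 - z.2) := by
    rw [← sum_add_distrib]
    refine sum_congr rfl fun z _ => ?_
    rw [ph_sub, Real.cos_sub]
    ring
  rw [h3]
  linarith

lemma fd_complex {c : ℕ → (Fin D → ℤ) → ℝ} (h : Corr c) (N k : ℕ) (θ : Fin D → ℝ) :
    ((fd c N k θ : ℝ) : ℂ) = 1 / (N : ℂ) ^ D * ∑ z ∈ bx D N ×ˢ bx D N,
      (cc c k (N - k) (z.1 - z.2) : ℂ) * Complex.exp (Complex.I * (ph θ (-(z.1 - z.2)) : ℝ)) := by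
  have h1 : ∀ z : (Fin D → ℤ) × (Fin D → ℤ),
      (cc c k (N - k) (z.1 - z.2) : ℂ) * Complex.exp (Complex.I * (ph θ (-(z.1 - z.2)) : ℝ)) =
      ((cc c k (N - k) (z.1 - z.2) * Real.cos (ph θ (z.1 - z.2)) : ℝ) : ℂ) -
        ((cc c k (N - k) (z.1 - z.2) * Real.sin (ph θ (z.1 - z.2)) : ℝ) : ℂ) * Complex.I := by
    intro z
    rw [ph_neg, mul_comm Complex.I, Complex.exp_mul_I, ← Complex.ofReal_cos, ← Complex.ofReal_sin,
      Real.cos_neg, Real.sin_neg]
    push_cast
    ring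
  have h2 : ∑ z ∈ bx D N ×ˢ bx D N, cc c k (N - k) (z.1 - z.2) * Real.sin (ph θ (z.1 - z.2)) = 0 := by
    have h3 : ∑ z ∈ bx D N ×ˢ bx D N, cc c k (N - k) (z.1 - z.2) * Real.sin (ph θ (z.1 - z.2)) =
        ∑ z ∈ bx D N ×ˢ bx D N, cc c k (N - k) (z.2 - z.1) * Real.sin (ph θ (z.2 - z.1)) := by
      rw [sum_product, sum_product]
      exact sum_comm
    have h4 : ∀ z : (Fin D → ℤ) × (Fin D → ℤ), cc c k (N - k) (z.2 - z.1) *
        Real.sin (ph θ (z.2 - z.1)) = -(cc c k (N - k) (z.1 - z.2) *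
          Real.sin (ph θ (z.1 - z.2))) := by
      intro z
      have : z.2 - z.1 = -(z.1 - z.2) := by abel
      rw [this, cc_even h, ph_neg, Real.sin_neg]
      ring
    simp only [h4, sum_neg_distrib] at h3
    linarith
  simp only [h1, sum_sub_distrib, ← sum_mul]
  rw [← Complex.ofReal_sum, ← Complex.ofReal_sum, h2]
  unfold fd
  push_cast
  ring

lemma fd_moment {c : ℕ → (Fin D → ℤ) → ℝ} (h : Corr c) (N k : ℕ) (x : Fin D → ℤ) :
    ∫ θ, ((fd c N k θ : ℝ) : ℂ) * Complex.exp (Complex.I * (ph θ x : ℝ)) ∂(kap D) =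
      (((cnt D N x : ℝ) / (N : ℝ) ^ D * cc c k (N - k) x : ℝ) : ℂ) := by
  classical
  have h1 : ∀ θ : Fin D → ℝ, ((fd c N k θ : ℝ) : ℂ) * Complex.exp (Complex.I * (ph θ x : ℝ)) =
      1 / (N : ℂ) ^ D * ∑ z ∈ bx D N ×ˢ bx D N, (cc c k (N - k) (z.1 - z.2) : ℂ) *
        Complex.exp (Complex.I * (ph θ (x - (z.1 - z.2)) : ℝ)) := by
    intro θ
    rw [fd_complex h, mul_assoc, sum_mul]
    congr 1
    refine sum_congr rfl fun z _ => ?_
    rw [mul_assoc, ← Complex.exp_add]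
    congr 2
    rw [ph_sub, ph_neg]
    push_cast
    ring
  have hint : ∀ z : Fin D → ℤ, Integrable (fun θ : Fin D → ℝ =>
      Complex.exp (Complex.I * (ph θ z : ℝ))) (kap D) := by
    intro z
    refine Integrable.of_bound ?_ 1 (Filter.Eventually.of_forall fun θ => ?_)
    · have := ph_cont z
      exact (by fun_prop : Continuous fun θ : Fin D → ℝ =>
        Complex.exp (Complex.I * (ph θ z : ℝ))).aestronglyMeasurable
    · rw [mul_comm, Complex.norm_exp_ofReal_mul_I]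
  simp only [h1]
  rw [integral_const_mul, integral_finsetSum _ fun z _ => (hint _).const_mul _]
  simp only [integral_const_mul, int_kap]
  have h2 : ∀ z : (Fin D → ℤ) × (Fin D → ℤ), (cc c k (N - k) (z.1 - z.2) : ℂ) *
      (if x - (z.1 - z.2) = 0 then 1 else 0) =
      if z.1 - z.2 = x then (cc c k (N - k) x : ℂ) else 0 := by
    intro z
    by_cases hz : z.1 - z.2 = x
    · rw [if_pos hz, hz, sub_self, if_pos rfl, mul_one]
    · rw [if_neg hz, if_neg (fun h0 => hz (sub_eq_zero.1 h0).symm), mul_zero]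
  simp only [h2]
  rw [← sum_filter, sum_const, nsmul_eq_mul]
  unfold cnt
  push_cast
  ring

end Pool.Agent.X134.SM
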