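import Pool.Agent.X134.SM.Fejer
import Pool.Agent.W793.SCH.All

/-!
# The Green function of the lattice and the energies of the free particle
-/

set_option autoImplicit false
open Finset MeasureTheory Filter Topology
open scoped ENNReal NNReal
open Pool.Agent.W793.SCH (pk green)

namespace Pool.Agent.X134.SM

variable {D : ℕ}

/-! ### the walk with killing -/

lemma pk_le_one (d : ℕ) (hd : 1 ≤ d) (k : ℕ) (z : Fin d → ℤ) : 0 ≤ pk d k z ∧ pk d k z ≤ 1 := by
  have hd0 : (0 : ℝ) < d := by exact_mod_cast hd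
  induction k generalizing z with
  | zero =>
    unfold pk
    split_ifs <;> norm_num
  | succ k ih =>
    have h1 : ∀ i : Fin d, 0 ≤ pk d k (z + Pi.single i 1) + pk d k (z - Pi.single i 1) ∧
        pk d k (z + Pi.single i 1) + pk d k (z - Pi.single i 1) ≤ 2 := fun i =>
      ⟨add_nonneg (ih _).1 (ih _).1, by linarith [(ih (z + Pi.single i 1)).2,
        (ih (z - Pi.single i 1)).2]⟩
    have h2 : 0 ≤ ∑ i, (pk d k (z + Pi.single i 1) + pk d k (z - Pi.single i 1)) :=
      sum_nonneg fun i _ => (h1 i).1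
    have h3 : ∑ i, (pk d k (z + Pi.single i 1) + pk d k (z - Pi.single i 1)) ≤ 2 * d := by
      calc _ ≤ ∑ i : Fin d, (2 : ℝ) := sum_le_sum fun i _ => (h1 i).2
        _ = 2 * d := by rw [sum_const, card_univ, Fintype.card_fin, nsmul_eq_mul]; ring
    unfold pk
    constructor
    · have := (ih z).1
      positivity
    · have h4 : 1 / (4 * d : ℝ) * ∑ i, (pk d k (z + Pi.single i 1) + pk d k (z - Pi.single i 1)) ≤
          1 / (4 * d : ℝ) * (2 * d) := mul_le_mul_of_nonneg_left h3 (by positivity)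
      have h5 : 1 / (4 * d : ℝ) * (2 * d) = 1 / 2 := by field_simp; ring
      have := (ih z).2
      linarith

/-- the Green function of the walk killed with probability `1 - s` -/
noncomputable def us (d : ℕ) (s : ℝ) (z : Fin d → ℤ) : ℝ := 1 / (4 * d : ℝ) * ∑' k, s ^ k * pk d k z

/-- the transition operator -/
noncomputable def PO (d : ℕ) (f : (Fin d → ℤ) → ℝ) (z : Fin d → ℤ) : ℝ :=
  1 / 2 * f z + 1 / (4 * d : ℝ) * ∑ i, (f (z + Pi.single i 1) + f (z - Pi.single i 1))

section us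

variable {d : ℕ} (hd : 1 ≤ d) {s : ℝ} (hs0 : 0 ≤ s) (hs1 : s < 1)

include hd hs0 hs1

lemma us_summable (z : Fin d → ℤ) : Summable fun k => s ^ k * pk d k z := by
  refine Summable.of_nonneg_of_le (fun k => mul_nonneg (pow_nonneg hs0 k) (pk_le_one d hd k z).1)
    (fun k => ?_) (summable_geometric_of_lt_one hs0 hs1)
  exact mul_le_of_le_one_right (pow_nonneg hs0 k) (pk_le_one d hd k z).2

lemma us_bd : ∃ M : ℝ, ∀ z : Fin d → ℤ, |us d s z| ≤ M := by
  refine ⟨1 / (4 * d : ℝ) * (1 - s)⁻¹, fun z => ?_⟩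
  unfold us
  have h0 : 0 ≤ ∑' k, s ^ k * pk d k z :=
    tsum_nonneg fun k => mul_nonneg (pow_nonneg hs0 k) (pk_le_one d hd k z).1
  rw [abs_of_nonneg (by positivity)]
  refine mul_le_mul_of_nonneg_left ?_ (by positivity)
  rw [← tsum_geometric_of_lt_one hs0 hs1]
  refine (us_summable hd hs0 hs1 z).tsum_le_tsum (fun k => ?_) (summable_geometric_of_lt_one hs0 hs1)
  exact mul_le_of_le_one_right (pow_nonneg hs0 k) (pk_le_one d hd k z).2

lemma us_eq (z : Fin d → ℤ) : us d s z = s * PO d (us d s) z + (if z = 0 then 1 / (4 * d : ℝ) else 0) := by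
  have hsm := us_summable hd hs0 hs1
  have h1 : ∑' k, s ^ k * pk d k z = pk d 0 z + ∑' k, s ^ (k + 1) * pk d (k + 1) z := by
    rw [(hsm z).tsum_eq_zero_add]
    simp
  have h2 : ∀ k, s ^ (k + 1) * pk d (k + 1) z = s * (1 / 2 * (s ^ k * pk d k z) +
      1 / (4 * d : ℝ) * ∑ i, (s ^ k * pk d k (z + Pi.single i 1) +
        s ^ k * pk d k (z - Pi.single i 1))) := by
    intro k
    have e1 : ∑ i, (s ^ k * pk d k (z + Pi.single i 1) + s ^ k * pk d k (z - Pi.single i 1)) =
        s ^ k * ∑ i, (pk d k (z + Pi.single i 1) + pk d k (z - Pi.single i 1)) := by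
      rw [mul_sum]
      exact sum_congr rfl fun i _ => by ring
    rw [e1]
    show s ^ (k + 1) * (1 / 2 * pk d k z + 1 / (4 * d : ℝ) *
      ∑ i, (pk d k (z + Pi.single i 1) + pk d k (z - Pi.single i 1))) = _
    ring
  have h3 : Summable fun k => 1 / 2 * (s ^ k * pk d k z) := (hsm z).mul_left _
  have h4 : ∀ i : Fin d, Summable fun k => s ^ k * pk d k (z + Pi.single i 1) +
      s ^ k * pk d k (z - Pi.single i 1) := fun i => (hsm _).add (hsm _)
  have h5 : Summable fun k => 1 / (4 * d : ℝ) * ∑ i, (s ^ k * pk d k (z + Pi.single i 1) +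
      s ^ k * pk d k (z - Pi.single i 1)) := (summable_sum fun i _ => h4 i).mul_left _
  unfold us PO
  rw [h1]
  simp only [h2]
  rw [tsum_mul_left, h3.tsum_add h5, tsum_mul_left, tsum_mul_left,
    Summable.tsum_finsetSum fun i _ => h4 i]
  have h6 : ∀ i : Fin d, ∑' k, (s ^ k * pk d k (z + Pi.single i 1) +
      s ^ k * pk d k (z - Pi.single i 1)) = ∑' k, s ^ k * pk d k (z + Pi.single i 1) +
        ∑' k, s ^ k * pk d k (z - Pi.single i 1) := fun i => (hsm _).tsum_add (hsm _)
  simp only [h6]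
  have h7 : ∑ i, (1 / (4 * d : ℝ) * ∑' k, s ^ k * pk d k (z + Pi.single i 1) +
      1 / (4 * d : ℝ) * ∑' k, s ^ k * pk d k (z - Pi.single i 1)) =
      1 / (4 * d : ℝ) * ∑ i, (∑' k, s ^ k * pk d k (z + Pi.single i 1) +
        ∑' k, s ^ k * pk d k (z - Pi.single i 1)) := by
    rw [mul_sum]
    exact sum_congr rfl fun i _ => by ring
  rw [h7]
  have h8 : pk d 0 z = if z = 0 then 1 else 0 := rfl
  rw [h8]
  split_ifs <;> ring

lemma PO_bd {v : (Fin d → ℤ) → ℝ} {B : ℝ} (hv : ∀ z, |v z| ≤ B) (z : Fin d → ℤ) : |PO d v z| ≤ B := by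
  have hd0 : (0 : ℝ) < d := by exact_mod_cast hd
  unfold PO
  have h1 : |∑ i, (v (z + Pi.single i 1) + v (z - Pi.single i 1))| ≤ 2 * d * B := by
    refine (abs_sum_le_sum_abs _ _).trans ?_
    have h0 : ∀ i : Fin d, |v (z + Pi.single i 1) + v (z - Pi.single i 1)| ≤ 2 * B := by
      intro i
      have a1 := hv (z + Pi.single i 1)
      have a2 := hv (z - Pi.single i 1)
      exact (abs_add_le _ _).trans (by linarith)
    calc ∑ i, |v (z + Pi.single i 1) + v (z - Pi.single i 1)| ≤ ∑ i : Fin d, (2 * B) :=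
          sum_le_sum fun i _ => h0 i
      _ = 2 * d * B := by rw [sum_const, card_univ, Fintype.card_fin, nsmul_eq_mul]; ring
  calc |1 / 2 * v z + 1 / (4 * d : ℝ) * ∑ i, (v (z + Pi.single i 1) + v (z - Pi.single i 1))| ≤
      1 / 2 * |v z| + 1 / (4 * d : ℝ) * |∑ i, (v (z + Pi.single i 1) + v (z - Pi.single i 1))| := by
        refine (abs_add_le _ _).trans ?_
        rw [abs_mul, abs_mul, abs_of_pos (by norm_num : (0 : ℝ) < 1 / 2),
          abs_of_nonneg (by positivity : (0 : ℝ) ≤ 1 / (4 * d : ℝ))]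
    _ ≤ 1 / 2 * B + 1 / (4 * d : ℝ) * (2 * d * B) := by
        have := mul_le_mul_of_nonneg_left h1 (by positivity : (0 : ℝ) ≤ 1 / (4 * d : ℝ))
        linarith [hv z]
    _ = B := by field_simp; ring

/-- uniqueness of the bounded solution -/
lemma unique {f g : (Fin d → ℤ) → ℝ} {h : (Fin d → ℤ) → ℝ} (hf : ∀ z, f z = s * PO d f z + h z)
    (hg : ∀ z, g z = s * PO d g z + h z) {M M' : ℝ} (hfb : ∀ z, |f z| ≤ M) (hgb : ∀ z, |g z| ≤ M')
    (z : Fin d → ℤ) : f z = g z := by
  have hv : ∀ z, f z - g z = s * PO d (fun z => f z - g z) z := by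
    intro z
    rw [hf z, hg z]
    unfold PO
    have : ∑ i, ((f (z + Pi.single i 1) - g (z + Pi.single i 1)) +
        (f (z - Pi.single i 1) - g (z - Pi.single i 1))) =
        ∑ i, (f (z + Pi.single i 1) + f (z - Pi.single i 1)) -
          ∑ i, (g (z + Pi.single i 1) + g (z - Pi.single i 1)) := by
      rw [← sum_sub_distrib]
      exact sum_congr rfl fun i _ => by ring
    rw [this]
    ring
  have hb : ∀ n : ℕ, ∀ z, |f z - g z| ≤ s ^ n * (M + M') := by
    intro n
    induction n with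
    | zero =>
      intro z
      rw [pow_zero, one_mul]
      exact (abs_sub _ _).trans (add_le_add (hfb z) (hgb z))
    | succ n ih =>
      intro z
      rw [hv z, abs_mul, abs_of_nonneg hs0, pow_succ]
      have := PO_bd hd hs0 hs1 ih z
      calc s * |PO d (fun z => f z - g z) z| ≤ s * (s ^ n * (M + M')) :=
            mul_le_mul_of_nonneg_left this hs0
        _ = _ := by ring
  have hlim : Tendsto (fun n : ℕ => s ^ n * (M + M')) atTop (𝓝 0) := by
    have := (tendsto_pow_atTop_nhds_zero_of_lt_one hs0 hs1).mul_const (M + M')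
    rwa [zero_mul] at this
  have h0 : |f z - g z| ≤ 0 := ge_of_tendsto' hlim fun n => hb n z
  exact sub_eq_zero.1 (abs_nonpos_iff.1 h0)

end us

/-! ### the representation by the energies -/

/-- the hyperbolic cosine of the energy -/
noncomputable def cs (s : ℝ) (θ : Fin D → ℝ) : ℝ :=
  1 + ∑ j, (1 - Real.cos (θ j)) + 2 * (D + 1) * (1 / s - 1)

/-- the energy -/
noncomputable def om (s : ℝ) (θ : Fin D → ℝ) : ℝ := Real.arcosh (cs s θ)

lemma cs_ge {s : ℝ} (hs0 : 0 < s) (hs1 : s ≤ 1) (θ : Fin D → ℝ) : 1 + 2 * (D + 1) * (1 / s - 1) ≤ cs s θ := by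
  unfold cs
  have : 0 ≤ ∑ j, (1 - Real.cos (θ j)) := sum_nonneg fun j _ => by linarith [Real.cos_le_one (θ j)]
  linarith

lemma inv_sub_nonneg {s : ℝ} (hs0 : 0 < s) (hs1 : s ≤ 1) : 0 ≤ 1 / s - 1 := by
  rw [sub_nonneg, le_div_iff₀ hs0]
  linarith

lemma cs_ge_one {s : ℝ} (hs0 : 0 < s) (hs1 : s ≤ 1) (θ : Fin D → ℝ) : 1 ≤ cs s θ := by
  have h1 := cs_ge hs0 hs1 θ
  have h2 := inv_sub_nonneg hs0 hs1
  have : 0 ≤ 2 * ((D : ℝ) + 1) * (1 / s - 1) := by positivity
  linarith

lemma cs_one (θ : Fin D → ℝ) : cs 1 θ = 1 + ∑ j, (1 - Real.cos (θ j)) := by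
  unfold cs
  simp

lemma cs_cont (s : ℝ) : Continuous (cs (D := D) s) := by
  unfold cs
  fun_prop

lemma om_cont {s : ℝ} (hs0 : 0 < s) (hs1 : s ≤ 1) : Continuous (om (D := D) s) := by
  unfold om
  exact Real.continuousOn_arcosh.comp_continuous (cs_cont s) fun θ => cs_ge_one hs0 hs1 θ

lemma om_nonneg {s : ℝ} (hs0 : 0 < s) (hs1 : s ≤ 1) (θ : Fin D → ℝ) : 0 ≤ om s θ :=
  Real.arcosh_nonneg (cs_ge_one hs0 hs1 θ)

lemma cosh_om {s : ℝ} (hs0 : 0 < s) (hs1 : s ≤ 1) (θ : Fin D → ℝ) : Real.cosh (om s θ) = cs s θ :=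
  Real.cosh_arcosh (cs_ge_one hs0 hs1 θ)

lemma sinh_om {s : ℝ} (hs0 : 0 < s) (hs1 : s ≤ 1) (θ : Fin D → ℝ) :
    Real.sinh (om s θ) = Real.sqrt (cs s θ ^ 2 - 1) := Real.sinh_arcosh (cs_ge_one hs0 hs1 θ)

lemma sinh_nonneg' {s : ℝ} (hs0 : 0 < s) (hs1 : s ≤ 1) (θ : Fin D → ℝ) : 0 ≤ Real.sinh (om s θ) :=
  Real.sinh_nonneg_iff.2 (om_nonneg hs0 hs1 θ)

/-- the integrand -/
noncomputable def ig (s : ℝ) (x : Fin D → ℤ) (t : ℤ) (θ : Fin D → ℝ) : ℝ :=
  Real.cos (ph θ x) * (Real.exp (-(om s θ * |(t : ℝ)|)) / (2 * Real.sinh (om s θ)))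

/-- the space part of a point -/
def spc (z : Fin (D + 1) → ℤ) : Fin D → ℤ := fun j => z j.castSucc

/-- the solution in terms of the energies -/
noncomputable def gR (s : ℝ) (z : Fin (D + 1) → ℤ) : ℝ :=
  1 / s * ∫ θ, ig s (spc z) (z (Fin.last D)) θ ∂(kap D)

section gR

variable {s : ℝ} (hs0 : 0 < s) (hs1 : s < 1)

include hs0 hs1

lemma sinh_lb : ∃ m : ℝ, 0 < m ∧ ∀ θ : Fin D → ℝ, m ≤ Real.sinh (om s θ) := by
  have h1 : 0 < 1 / s - 1 := by
    rw [sub_pos, lt_div_iff₀ hs0]
    linarith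
  obtain ⟨c0, hc0⟩ : ∃ c0 : ℝ, c0 = 1 + 2 * ((D : ℝ) + 1) * (1 / s - 1) := ⟨_, rfl⟩
  have hc1 : 1 < c0 := by
    have : 0 < 2 * ((D : ℝ) + 1) * (1 / s - 1) := by positivity
    linarith
  refine ⟨Real.sqrt (c0 ^ 2 - 1), Real.sqrt_pos.2 (by nlinarith), fun θ => ?_⟩
  rw [sinh_om hs0 hs1.le]
  refine Real.sqrt_le_sqrt ?_
  have := cs_ge hs0 hs1.le θ
  rw [← hc0] at this
  nlinarith

lemma ig_cont (x : Fin D → ℤ) (t : ℤ) : Continuous (ig s x t) := by
  obtain ⟨m, hm, hml⟩ := sinh_lb (D := D) hs0 hs1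
  have ho := om_cont (D := D) hs0 hs1.le
  have hp := ph_cont x
  unfold ig
  refine (Real.continuous_cos.comp hp).mul (Continuous.div (by fun_prop) ?_ fun θ => ?_)
  · exact continuous_const.mul (Real.continuous_sinh.comp ho)
  · have := hml θ
    intro h0
    linarith

lemma ig_bd : ∃ M : ℝ, ∀ (x : Fin D → ℤ) (t : ℤ) (θ : Fin D → ℝ), |ig s x t θ| ≤ M := by
  obtain ⟨m, hm, hml⟩ := sinh_lb (D := D) hs0 hs1
  refine ⟨1 / (2 * m), fun x t θ => ?_⟩
  unfold ig
  rw [abs_mul, abs_div, Real.abs_exp]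
  have h1 : |2 * Real.sinh (om s θ)| = 2 * Real.sinh (om s θ) :=
    abs_of_nonneg (by linarith [sinh_nonneg' hs0 hs1.le θ])
  rw [h1]
  have h2 : Real.exp (-(om s θ * |(t : ℝ)|)) ≤ 1 := by
    rw [Real.exp_le_one_iff]
    have := mul_nonneg (om_nonneg hs0 hs1.le θ) (abs_nonneg (t : ℝ))
    linarith
  have h3 := hml θ
  calc |Real.cos (ph θ x)| * (Real.exp (-(om s θ * |(t : ℝ)|)) / (2 * Real.sinh (om s θ))) ≤
      1 * (1 / (2 * m)) := by
        refine mul_le_mul (Real.abs_cos_le_one _) ?_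
          (div_nonneg (Real.exp_pos _).le (by linarith)) (by norm_num)
        exact div_le_div₀ (by norm_num) h2 (by positivity) (by linarith)
    _ = _ := one_mul _

lemma ig_int (x : Fin D → ℤ) (t : ℤ) : Integrable (ig s x t) (kap D) := by
  obtain ⟨M, hM⟩ := ig_bd (D := D) hs0 hs1
  exact Integrable.of_bound (ig_cont hs0 hs1 x t).aestronglyMeasurable M
    (Eventually.of_forall fun θ => by rw [Real.norm_eq_abs]; exact hM x t θ)

lemma gR_bd : ∃ M : ℝ, ∀ z : Fin (D + 1) → ℤ, |gR s z| ≤ M := by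
  obtain ⟨M, hM⟩ := ig_bd (D := D) hs0 hs1
  refine ⟨1 / s * M, fun z => ?_⟩
  unfold gR
  rw [abs_mul, abs_of_pos (by positivity : 0 < 1 / s)]
  refine mul_le_mul_of_nonneg_left ?_ (by positivity)
  have := norm_integral_le_of_norm_le_const (μ := kap D) (C := M)
    (f := ig s (spc z) (z (Fin.last D)))
    (Eventually.of_forall fun θ => by rw [Real.norm_eq_abs]; exact hM _ _ θ)
  simpa using this

omit hs0 hs1 in
lemma int_cos (x : Fin D → ℤ) : ∫ θ, Real.cos (ph θ x) ∂(kap D) = if x = 0 then 1 else 0 := by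
  have h1 := int_kap x
  have hint : Integrable (fun θ : Fin D → ℝ => Complex.exp (Complex.I * (ph θ x : ℝ))) (kap D) := by
    refine Integrable.of_bound ?_ 1 (Filter.Eventually.of_forall fun θ => ?_)
    · have := ph_cont x
      exact (by fun_prop : Continuous fun θ : Fin D → ℝ =>
        Complex.exp (Complex.I * (ph θ x : ℝ))).aestronglyMeasurable
    · rw [mul_comm, Complex.norm_exp_ofReal_mul_I]
  have h2 : (∫ θ, Complex.exp (Complex.I * (ph θ x : ℝ)) ∂(kap D)).re =
      ∫ θ, (Complex.exp (Complex.I * (ph θ x : ℝ))).re ∂(kap D) := (integral_re hint).symm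
  have h3 : ∀ θ : Fin D → ℝ, (Complex.exp (Complex.I * (ph θ x : ℝ))).re = Real.cos (ph θ x) := by
    intro θ
    rw [mul_comm, Complex.exp_ofReal_mul_I_re]
  simp only [h3] at h2
  rw [← h2, h1]
  split_ifs <;> simp

lemma gR_eq (z : Fin (D + 1) → ℤ) : gR s z = s * PO (D + 1) (gR s) z +
    (if z = 0 then 1 / (4 * ((D + 1 : ℕ) : ℝ)) else 0) := by
  have hD : (0 : ℝ) < ((D + 1 : ℕ) : ℝ) := by positivity
  obtain ⟨x, hx⟩ : ∃ x, x = spc z := ⟨_, rfl⟩
  obtain ⟨t, ht⟩ : ∃ t, t = z (Fin.last D) := ⟨_, rfl⟩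
  -- the neighbours
  have e1 : ∀ (j : Fin D) (a : ℤ), spc (z + Pi.single j.castSucc a) = x + Pi.single j a := by
    intro j a
    funext i
    unfold spc
    rw [Pi.add_apply, Pi.add_apply, hx]
    unfold spc
    congr 1
    by_cases h : i = j
    · subst h
      simp
    · rw [Pi.single_eq_of_ne h, Pi.single_eq_of_ne fun h' => h (Fin.castSucc_injective D h')]
  have e2 : ∀ (j : Fin D) (a : ℤ), (z + Pi.single j.castSucc a : Fin (D + 1) → ℤ) (Fin.last D) = t := by
    intro j a
    rw [Pi.add_apply, Pi.single_eq_of_ne (Fin.castSucc_lt_last j).ne', add_zero, ht]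
  have e3 : ∀ a : ℤ, spc (z + Pi.single (Fin.last D) a) = x := by
    intro a
    funext i
    unfold spc
    rw [Pi.add_apply, Pi.single_eq_of_ne (Fin.castSucc_lt_last i).ne, add_zero, hx]
    rfl
  have e4 : ∀ a : ℤ, (z + Pi.single (Fin.last D) a : Fin (D + 1) → ℤ) (Fin.last D) = t + a := by
    intro a
    rw [Pi.add_apply, Pi.single_eq_same, ht]
  have e5 : ∀ i : Fin (D + 1), z - Pi.single i 1 = z + Pi.single i (-1) := by
    intro i
    rw [sub_eq_add_neg, ← Pi.single_neg]
  have hi := ig_int (D := D) hs0 hs1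
  have key : gR s z - s * PO (D + 1) (gR s) z = ∫ θ, (1 / s) * (ig s x t θ - s * (1 / 2 * ig s x t θ +
      1 / (4 * ((D + 1 : ℕ) : ℝ)) * (∑ j, (ig s (x + Pi.single j 1) t θ +
        ig s (x + Pi.single j (-1)) t θ) + (ig s x (t + 1) θ + ig s x (t + -1) θ)))) ∂(kap D) := by
    have i1 : Integrable (fun θ => ∑ j, (ig s (x + Pi.single j 1) t θ +
        ig s (x + Pi.single j (-1)) t θ)) (kap D) :=
      integrable_finsetSum _ fun j _ => (hi _ _).add (hi _ _)
    have i2 : Integrable (fun θ => ∑ j, (ig s (x + Pi.single j 1) t θ +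
        ig s (x + Pi.single j (-1)) t θ) + (ig s x (t + 1) θ + ig s x (t + -1) θ)) (kap D) :=
      i1.add ((hi _ _).add (hi _ _))
    have i3 : Integrable (fun θ => 1 / (4 * ((D + 1 : ℕ) : ℝ)) * (∑ j, (ig s (x + Pi.single j 1) t θ +
        ig s (x + Pi.single j (-1)) t θ) + (ig s x (t + 1) θ + ig s x (t + -1) θ))) (kap D) :=
      i2.const_mul _
    have i4 : Integrable (fun θ => 1 / 2 * ig s x t θ) (kap D) := (hi _ _).const_mul _
    have i5 : Integrable (fun θ => 1 / 2 * ig s x t θ + 1 / (4 * ((D + 1 : ℕ) : ℝ)) *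
        (∑ j, (ig s (x + Pi.single j 1) t θ + ig s (x + Pi.single j (-1)) t θ) +
          (ig s x (t + 1) θ + ig s x (t + -1) θ))) (kap D) := i4.add i3
    have i6 : Integrable (fun θ => s * (1 / 2 * ig s x t θ + 1 / (4 * ((D + 1 : ℕ) : ℝ)) *
        (∑ j, (ig s (x + Pi.single j 1) t θ + ig s (x + Pi.single j (-1)) t θ) +
          (ig s x (t + 1) θ + ig s x (t + -1) θ)))) (kap D) := i5.const_mul _
    have i7 : Integrable (fun θ => ig s x (t + 1) θ + ig s x (t + -1) θ) (kap D) :=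
      (hi _ _).add (hi _ _)
    have i8 : ∀ j : Fin D, Integrable (fun θ => ig s (x + Pi.single j 1) t θ +
        ig s (x + Pi.single j (-1)) t θ) (kap D) := fun j => (hi _ _).add (hi _ _)
    rw [integral_const_mul, integral_sub (hi _ _) i6, integral_const_mul, integral_add i4 i3,
      integral_const_mul, integral_const_mul, integral_add i1 i7, integral_add (hi _ _) (hi _ _),
      integral_finsetSum _ fun j _ => i8 j]
    have i9 : ∀ j : Fin D, ∫ θ, (ig s (x + Pi.single j 1) t θ +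
        ig s (x + Pi.single j (-1)) t θ) ∂(kap D) = ∫ θ, ig s (x + Pi.single j 1) t θ ∂(kap D) +
          ∫ θ, ig s (x + Pi.single j (-1)) t θ ∂(kap D) := fun j => integral_add (hi _ _) (hi _ _)
    simp only [i9]
    unfold PO
    rw [Fin.sum_univ_castSucc]
    simp only [e5]
    unfold gR
    simp only [e1, e2, e3, e4]
    rw [← hx, ← ht]
    have hs : ∑ j : Fin D, (1 / s * ∫ θ, ig s (x + Pi.single j 1) t θ ∂(kap D) +
        1 / s * ∫ θ, ig s (x + Pi.single j (-1)) t θ ∂(kap D)) =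
        1 / s * ∑ j : Fin D, (∫ θ, ig s (x + Pi.single j 1) t θ ∂(kap D) +
          ∫ θ, ig s (x + Pi.single j (-1)) t θ ∂(kap D)) := by
      rw [mul_sum]
      exact sum_congr rfl fun j _ => by ring
    rw [hs]
    ring
  have point : ∀ θ : Fin D → ℝ, (1 / s) * (ig s x t θ - s * (1 / 2 * ig s x t θ +
      1 / (4 * ((D + 1 : ℕ) : ℝ)) * (∑ j, (ig s (x + Pi.single j 1) t θ +
        ig s (x + Pi.single j (-1)) t θ) + (ig s x (t + 1) θ + ig s x (t + -1) θ)))) =
      (if t = 0 then 1 / (4 * ((D + 1 : ℕ) : ℝ)) else 0) * Real.cos (ph θ x) := by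
    intro θ
    obtain ⟨m, hm, hml⟩ := sinh_lb (D := D) hs0 hs1
    have hS : 0 < Real.sinh (om s θ) := lt_of_lt_of_le hm (hml θ)
    have hsum : ∑ j, (ig s (x + Pi.single j 1) t θ + ig s (x + Pi.single j (-1)) t θ) =
        (∑ j, 2 * Real.cos (θ j)) * ig s x t θ := by
      rw [sum_mul]
      refine sum_congr rfl fun j _ => ?_
      unfold ig
      have p1 : ∀ a : ℤ, ph θ (Pi.single j a) = θ j * a := by
        intro a
        unfold ph
        rw [Finset.sum_eq_single j]
        · rw [Pi.single_eq_same]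
        · intro i _ hij
          rw [Pi.single_eq_of_ne hij]
          simp
        · intro h
          exact absurd (mem_univ j) h
      rw [ph_add, ph_add, p1, p1, Real.cos_add, Real.cos_add]
      push_cast
      rw [mul_one, mul_neg_one, Real.cos_neg, Real.sin_neg]
      ring
    rw [hsum]
    have hcs := cosh_om hs0 hs1.le θ
    have hcs2 : ∑ j, 2 * Real.cos (θ j) = 2 * ((D : ℝ) + 1) * (2 / s - 1) - 2 * Real.cosh (om s θ) := by
      rw [hcs]
      unfold cs
      rw [sum_sub_distrib, ← mul_sum]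
      simp only [sum_const, card_univ, Fintype.card_fin, nsmul_eq_mul, mul_one]
      ring
    have htime : ig s x (t + 1) θ + ig s x (t + -1) θ = 2 * Real.cosh (om s θ) * ig s x t θ -
        (if t = 0 then Real.cos (ph θ x) else 0) := by
      unfold ig
      rcases lt_trichotomy t 0 with h | h | h
      · rw [if_neg h.ne, sub_zero]
        have a1 : |((t : ℤ) : ℝ)| = -t := abs_of_neg (by exact_mod_cast h)
        have a2 : |((t + 1 : ℤ) : ℝ)| = -t - 1 := by
          have : ((t + 1 : ℤ) : ℝ) ≤ 0 := by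
            have : t + 1 ≤ 0 := by omega
            exact_mod_cast this
          rw [abs_of_nonpos this]
          push_cast
          ring
        have a3 : |((t + -1 : ℤ) : ℝ)| = -t + 1 := by
          have : ((t + -1 : ℤ) : ℝ) ≤ 0 := by
            have : t + -1 ≤ 0 := by omega
            exact_mod_cast this
          rw [abs_of_nonpos this]
          push_cast
          ring
        rw [a1, a2, a3, Real.cosh_eq]
        have b1 : Real.exp (-(om s θ * (-t - 1))) = Real.exp (om s θ) *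
            Real.exp (-(om s θ * -t)) := by
          rw [← Real.exp_add]
          congr 1
          ring
        have b2 : Real.exp (-(om s θ * (-t + 1))) = Real.exp (-om s θ) *
            Real.exp (-(om s θ * -t)) := by
          rw [← Real.exp_add]
          congr 1
          ring
        rw [b1, b2]
        ring
      · subst h
        rw [if_pos rfl]
        have a2 : |((0 + 1 : ℤ) : ℝ)| = 1 := by norm_num
        have a3 : |((0 + -1 : ℤ) : ℝ)| = 1 := by norm_num
        have a1 : |((0 : ℤ) : ℝ)| = 0 := by norm_num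
        rw [a1, a2, a3, mul_one, mul_zero, neg_zero, Real.exp_zero]
        have b1 : 2 * Real.cosh (om s θ) = 2 * Real.exp (-om s θ) + 2 * Real.sinh (om s θ) := by
          rw [Real.cosh_eq, Real.sinh_eq]
          ring
        rw [b1]
        field_simp
        ring
      · rw [if_neg h.ne', sub_zero]
        have a1 : |((t : ℤ) : ℝ)| = t := abs_of_pos (by exact_mod_cast h)
        have a2 : |((t + 1 : ℤ) : ℝ)| = t + 1 := by
          have : (0 : ℝ) ≤ ((t + 1 : ℤ) : ℝ) := by
            have : 0 ≤ t + 1 := by omega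
            exact_mod_cast this
          rw [abs_of_nonneg this]
          push_cast
          ring
        have a3 : |((t + -1 : ℤ) : ℝ)| = t - 1 := by
          have : (0 : ℝ) ≤ ((t + -1 : ℤ) : ℝ) := by
            have : 0 ≤ t + -1 := by omega
            exact_mod_cast this
          rw [abs_of_nonneg this]
          push_cast
          ring
        rw [a1, a2, a3, Real.cosh_eq]
        have b1 : Real.exp (-(om s θ * (t - 1))) = Real.exp (om s θ) *
            Real.exp (-(om s θ * t)) := by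
          rw [← Real.exp_add]
          congr 1
          ring
        have b2 : Real.exp (-(om s θ * (t + 1))) = Real.exp (-om s θ) *
            Real.exp (-(om s θ * t)) := by
          rw [← Real.exp_add]
          congr 1
          ring
        rw [b1, b2]
        ring
    rw [htime, hcs2]
    push_cast
    split_ifs
    · field_simp
      ring
    · field_simp
      ring
  have hfin : gR s z - s * PO (D + 1) (gR s) z = if z = 0 then 1 / (4 * ((D + 1 : ℕ) : ℝ)) else 0 := by
    rw [key]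
    simp only [point]
    rw [integral_const_mul, int_cos]
    have hz : z = 0 ↔ x = 0 ∧ t = 0 := by
      rw [hx, ht]
      constructor
      · rintro rfl
        exact ⟨rfl, rfl⟩
      · rintro ⟨h1, h2⟩
        funext i
        refine Fin.lastCases h2 (fun j => ?_) i
        exact congrFun h1 j
    by_cases h1 : t = 0
    · by_cases h2 : x = 0
      · rw [if_pos h1, if_pos h2, if_pos (hz.2 ⟨h2, h1⟩), mul_one]
      · rw [if_pos h1, if_neg h2, if_neg (fun h => h2 (hz.1 h).1), mul_zero]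
    · rw [if_neg h1, if_neg (fun h => h1 (hz.1 h).2), zero_mul]
  linarith

theorem us_eq_gR (z : Fin (D + 1) → ℤ) : us (D + 1) s z = gR s z := by
  obtain ⟨M, hM⟩ := us_bd (d := D + 1) (by omega) hs0.le hs1
  obtain ⟨M', hM'⟩ := gR_bd (D := D) hs0 hs1
  exact unique (by omega) hs0.le hs1 (h := fun z => if z = 0 then 1 / (4 * ((D + 1 : ℕ) : ℝ)) else 0)
    (us_eq (by omega) hs0.le hs1) (gR_eq hs0 hs1) hM hM' z

end gR

end Pool.Agent.X134.SM
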