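import Pool.Agent.X134.SM.Loops
import Pool.Agent.W793.SCH.Lift5

/-!
# The factorization of the sums over the pairings
-/

open MeasureTheory Matrix Filter
open scoped Matrix.Norms.Frobenius ContDiff Topology
open Pool.Agent.Results.MP_7f377f_mp.WilsonLoopsWeakCoupling

namespace Pool.Agent.X134.SM

set_option linter.unusedSectionVars false
set_option linter.unusedVariables false

noncomputable section

section pair

variable {ι : Type*}

lemma pairings_nil (A : ι → ι → ℝ) : pairings A [] = 1 := by simp only [pairings]

lemma pairings_cons (A : ι → ι → ℝ) (a : ι) (l : List ι) :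
    pairings A (a :: l) = ∑ i : Fin l.length, A a (l.get i) * pairings A (l.eraseIdx i) := by
  simp only [pairings]

/-- factorization -/
lemma pairings_append (A : ι → ι → ℝ) (k : ℕ) : ∀ l₁ l₂ : List ι, l₁.length ≤ k →
    (∀ u ∈ l₁, ∀ v ∈ l₂, A u v = 0) → pairings A (l₁ ++ l₂) = pairings A l₁ * pairings A l₂ := by
  induction k with
  | zero =>
    intro l₁ l₂ h _
    have : l₁ = [] := List.length_eq_zero_iff.1 (by omega)
    subst this
    rw [List.nil_append, pairings_nil, one_mul]
  | succ k ih =>
    intro l₁ l₂ h hA
    cases l₁ with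
    | nil => rw [List.nil_append, pairings_nil, one_mul]
    | cons a l =>
      rw [List.cons_append, pairings_cons, pairings_cons]
      have hlen : (l ++ l₂).length = l.length + l₂.length := List.length_append
      rw [← Equiv.sum_comp (finCongr hlen.symm), Fin.sum_univ_add, Finset.sum_mul]
      have h2 : ∑ i : Fin l₂.length, A a ((l ++ l₂).get ((finCongr hlen.symm) (Fin.natAdd l.length i))) *
          pairings A ((l ++ l₂).eraseIdx ((finCongr hlen.symm) (Fin.natAdd l.length i) : Fin _)) = 0 := by
        refine Finset.sum_eq_zero fun i _ => ?_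
        have h3 : (l ++ l₂).get ((finCongr hlen.symm) (Fin.natAdd l.length i)) = l₂.get i := by
          simp only [List.get_eq_getElem, finCongr_apply, Fin.val_cast, Fin.val_natAdd]
          rw [List.getElem_append_right (by omega)]
          congr 1
          omega
        rw [h3, hA a List.mem_cons_self _ (List.get_mem _ _), zero_mul]
      rw [h2, add_zero]
      refine Finset.sum_congr rfl fun i _ => ?_
      have h3 : (l ++ l₂).get ((finCongr hlen.symm) (Fin.castAdd l₂.length i)) = l.get i := by
        simp only [List.get_eq_getElem, finCongr_apply, Fin.val_cast, Fin.val_castAdd]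
        rw [List.getElem_append_left]
      have h4 : (l ++ l₂).eraseIdx ((finCongr hlen.symm) (Fin.castAdd l₂.length i) : Fin _) =
          l.eraseIdx i ++ l₂ := by
        simp only [finCongr_apply, Fin.val_cast, Fin.val_castAdd]
        rw [List.eraseIdx_append_of_lt_length i.isLt]
      rw [h3, h4, ih _ _ _ fun u hu v hv => hA u (List.mem_cons_of_mem _ (List.mem_of_mem_eraseIdx hu)) v hv]
      · ring
      · have h1 := List.length_eraseIdx_of_lt i.isLt
        simp only [List.length_cons] at h
        omega

/-- factorization over blocks -/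
lemma pairings_flatten (A : ι → ι → ℝ) (Bs : List (List ι))
    (h : Bs.Pairwise fun b b' => ∀ u ∈ b, ∀ v ∈ b', A u v = 0) :
    pairings A Bs.flatten = (Bs.map (pairings A)).prod := by
  induction Bs with
  | nil => simp [pairings_nil]
  | cons b Bs ih =>
    rw [List.pairwise_cons] at h
    rw [List.flatten_cons, pairings_append A _ _ _ le_rfl, ih h.2, List.map_cons, List.prod_cons]
    intro u hu v hv
    obtain ⟨b', hb', hv'⟩ := List.mem_flatten.1 hv
    exact h.1 b' hb' u hu v hv'

lemma pairings_zero (A : ι → ι → ℝ) (h : ∀ u v, A u v = 0) {l : List ι} (hl : l ≠ []) :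
    pairings A l = 0 := by
  cases l with
  | nil => exact absurd rfl hl
  | cons a l =>
    rw [pairings_cons]
    exact Finset.sum_eq_zero fun i _ => by rw [h, zero_mul]

lemma pairings_tendsto {l : Filter ℕ} {A : ℕ → ι → ι → ℝ} {A' : ι → ι → ℝ}
    (h : ∀ u v, Tendsto (fun q => A q u v) l (𝓝 (A' u v))) (L : List ι) :
    Tendsto (fun q => pairings (A q) L) l (𝓝 (pairings A' L)) := by
  have h1 := Pool.Agent.W793.SCHL.haf_tendsto h _ L le_rfl
  rw [pairings_eq A' _ L le_rfl]
  refine h1.congr fun q => ?_
  rw [pairings_eq (A q) _ L le_rfl]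

end pair

/-- the blocks of four factors -/
lemma factors_mul (m : ℕ) : factors (m * 2) = ((List.finRange m).map fun r : Fin m =>
    [(finProdFinEquiv (r, (0 : Fin 2)), false), (finProdFinEquiv (r, (0 : Fin 2)), true),
      (finProdFinEquiv (r, (1 : Fin 2)), false), (finProdFinEquiv (r, (1 : Fin 2)), true)]).flatten := by
  have h0 : List.finRange (m * 2) = ((List.finRange m).map fun r : Fin m =>
      [finProdFinEquiv (r, (0 : Fin 2)), finProdFinEquiv (r, (1 : Fin 2))]).flatten := by
    rw [← List.ofFn_id, List.ofFn_mul, ← List.ofFn_id, List.map_ofFn]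
    congr 1
    congr 1
    funext r
    have h2 : ∀ f : Fin 2 → Fin (m * 2), List.ofFn f = [f 0, f 1] := fun f => by
      simp [List.ofFn_succ]
    rw [h2]
    simp only [Function.comp_apply, id_eq]
    congr 1
    · ext
      simp [finProdFinEquiv]
      ring
    · congr 1
      ext
      simp [finProdFinEquiv]
      ring
  unfold factors
  rw [h0, List.flatMap_def, List.map_flatten, List.flatten_flatten, List.map_map, List.map_map]
  rfl

end

end Pool.Agent.X134.SM
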