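import Mathlib

/-!
# Positive sequences on the interval

A bounded real sequence `m` with `ℓ(q²) ≥ 0` and `ℓ(X q²) ≥ 0`, where `ℓ(X ^ j) = m j`, satisfies
`ℓ(X ^ n (1 - X) ^ k) ≥ 0`.
-/

set_option autoImplicit false
open Polynomial Finset

namespace Pool.Agent.X134.SM

/-- the linear functional with the moments `m` -/
noncomputable def LL (m : ℕ → ℝ) : ℝ[X] →ₗ[ℝ] ℝ :=
  Polynomial.lsum fun j => (LinearMap.mul' ℝ ℝ).comp
    ((TensorProduct.mk ℝ ℝ ℝ).flip (m j))

lemma LL_apply (m : ℕ → ℝ) (p : ℝ[X]) : LL m p = p.sum fun j a => a * m j := by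
  unfold LL
  rw [Polynomial.lsum_apply]
  rfl

lemma LL_monomial (m : ℕ → ℝ) (j : ℕ) (a : ℝ) : LL m (monomial j a) = a * m j := by
  rw [LL_apply, Polynomial.sum_monomial_index]
  simp

lemma LL_X_pow (m : ℕ → ℝ) (j : ℕ) : LL m (X ^ j) = m j := by
  rw [X_pow_eq_monomial, LL_monomial, one_mul]

lemma LL_eq (m : ℕ → ℝ) (p : ℝ[X]) {N : ℕ} (h : p.natDegree < N) :
    LL m p = ∑ j ∈ range N, p.coeff j * m j := by
  rw [LL_apply, Polynomial.sum_over_range' _ (by simp) N h]

lemma LL_add_seq (m m' : ℕ → ℝ) (a b : ℝ) (p : ℝ[X]) :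
    LL (fun j => a * m j + b * m' j) p = a * LL m p + b * LL m' p := by
  rw [LL_eq _ p (Nat.lt_succ_self _), LL_eq _ p (Nat.lt_succ_self _),
    LL_eq _ p (Nat.lt_succ_self _), mul_sum, mul_sum, ← sum_add_distrib]
  exact sum_congr rfl fun j _ => by ring

lemma LL_sum_seq {ι : Type*} (s : Finset ι) (m : ι → ℕ → ℝ) (a : ι → ℝ) (p : ℝ[X]) :
    LL (fun j => ∑ i ∈ s, a i * m i j) p = ∑ i ∈ s, a i * LL (m i) p := by
  rw [LL_eq _ p (Nat.lt_succ_self _)]
  simp only [LL_eq _ p (Nat.lt_succ_self _), mul_sum]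
  rw [sum_comm]
  exact sum_congr rfl fun i _ => sum_congr rfl fun j _ => by ring

/-- a nonnegative log-convex bounded sequence is not increasing -/
lemma step_le {u : ℕ → ℝ} (h0 : ∀ j, 0 ≤ u j) (hc : ∀ j, u (j + 1) ^ 2 ≤ u j * u (j + 2)) {M : ℝ}
    (hM : ∀ j, u j ≤ M) (j : ℕ) : u (j + 1) ≤ u j := by
  by_contra hlt
  push Not at hlt
  have hpos1 : 0 < u (j + 1) := lt_of_le_of_lt (h0 j) hlt
  have hpos : 0 < u j := by
    rcases (h0 j).lt_or_eq with h | h
    · exact h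
    · have := hc j
      rw [← h, zero_mul] at this
      nlinarith
  obtain ⟨r, hr⟩ : ∃ r, r = u (j + 1) / u j := ⟨_, rfl⟩
  have hr1 : 1 < r := by rw [hr, lt_div_iff₀ hpos]; linarith
  have key : ∀ i, 0 < u (j + i) ∧ r * u (j + i) ≤ u (j + i + 1) := by
    intro i
    induction i with
    | zero =>
      refine ⟨hpos, ?_⟩
      show r * u j ≤ u (j + 1)
      rw [hr, div_mul_cancel₀ _ hpos.ne']
    | succ i ih =>
      obtain ⟨h1, h2⟩ := ih
      have h3 : 0 < u (j + i + 1) := lt_of_lt_of_le (mul_pos (by linarith) h1) h2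
      refine ⟨h3, ?_⟩
      show r * u (j + i + 1) ≤ u (j + i + 2)
      have h4 := hc (j + i)
      have h5 : r * u (j + i) * u (j + i + 1) ≤ u (j + i) * u (j + i + 2) := by
        calc r * u (j + i) * u (j + i + 1) ≤ u (j + i + 1) * u (j + i + 1) :=
              mul_le_mul_of_nonneg_right h2 h3.le
          _ = u (j + i + 1) ^ 2 := by ring
          _ ≤ _ := h4
      have h6 : u (j + i) * (r * u (j + i + 1)) ≤ u (j + i) * u (j + i + 2) := by linarith
      exact le_of_mul_le_mul_left h6 h1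
  have grow : ∀ i, r ^ i * u j ≤ u (j + i) := by
    intro i
    induction i with
    | zero => simp
    | succ i ih =>
      have := (key i).2
      calc r ^ (i + 1) * u j = r * (r ^ i * u j) := by ring
        _ ≤ r * u (j + i) := mul_le_mul_of_nonneg_left ih (by linarith)
        _ ≤ _ := this
  obtain ⟨i, hi⟩ := pow_unbounded_of_one_lt (M / u j) hr1
  have := grow i
  have h7 := hM (j + i)
  rw [div_lt_iff₀ hpos] at hi
  linarith

/-- hypotheses on the sequence -/
structure Pos (m : ℕ → ℝ) : Prop where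
  sq : ∀ q : ℝ[X], 0 ≤ LL m (q ^ 2)
  sq1 : ∀ q : ℝ[X], 0 ≤ LL m (X * q ^ 2)
  bd : ∃ M, ∀ j, |m j| ≤ M

lemma Pos.dec {m : ℕ → ℝ} (h : Pos m) (q : ℝ[X]) (j : ℕ) :
    LL m (X ^ (j + 1) * q ^ 2) ≤ LL m (X ^ j * q ^ 2) := by
  obtain ⟨M, hM⟩ := h.bd
  have hM0 : 0 ≤ M := le_trans (abs_nonneg _) (hM 0)
  have hev : ∀ j (p : ℝ[X]), 0 ≤ LL m (X ^ j * p ^ 2) := by
    intro j p
    rcases Nat.even_or_odd' j with ⟨i, hi | hi⟩
    · have : (X : ℝ[X]) ^ j * p ^ 2 = (X ^ i * p) ^ 2 := by rw [hi]; ring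
      rw [this]
      exact h.sq _
    · have : (X : ℝ[X]) ^ j * p ^ 2 = X * (X ^ i * p) ^ 2 := by rw [hi]; ring
      rw [this]
      exact h.sq1 _
  refine step_le (u := fun j => LL m (X ^ j * q ^ 2)) (fun j => hev j q) (fun j => ?_)
    (M := ∑ i ∈ range ((q ^ 2).natDegree + 1), |(q ^ 2).coeff i| * M) (fun j => ?_) j
  · have hq : ∀ t : ℝ, 0 ≤ LL m (X ^ (j + 2) * q ^ 2) * (t * t) +
        (2 * LL m (X ^ (j + 1) * q ^ 2)) * t + LL m (X ^ j * q ^ 2) := by
      intro t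
      have h1 := hev j (q + C t * X * q)
      have h2 : (X : ℝ[X]) ^ j * (q + C t * X * q) ^ 2 = X ^ j * q ^ 2 +
          C (2 * t) * (X ^ (j + 1) * q ^ 2) + C (t * t) * (X ^ (j + 2) * q ^ 2) := by
        rw [C_mul, C_mul]
        have : (C (2 : ℝ) : ℝ[X]) = 2 := rfl
        rw [this]
        ring
      rw [h2, map_add, map_add, ← smul_eq_C_mul, ← smul_eq_C_mul, map_smul, map_smul,
        smul_eq_mul, smul_eq_mul] at h1
      linarith
    have := discrim_le_zero hq
    unfold discrim at this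
    show LL m (X ^ (j + 1) * q ^ 2) ^ 2 ≤ LL m (X ^ j * q ^ 2) * LL m (X ^ (j + 2) * q ^ 2)
    nlinarith
  · show LL m (X ^ j * q ^ 2) ≤ _
    have h1 : (q ^ 2) = ∑ i ∈ range ((q ^ 2).natDegree + 1), C ((q ^ 2).coeff i) * X ^ i :=
      (q ^ 2).as_sum_range_C_mul_X_pow
    have h2 : LL m (X ^ j * q ^ 2) =
        ∑ i ∈ range ((q ^ 2).natDegree + 1), (q ^ 2).coeff i * m (j + i) := by
      conv_lhs => rw [h1]
      rw [mul_sum, map_sum]
      refine sum_congr rfl fun i _ => ?_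
      have : (X : ℝ[X]) ^ j * (C ((q ^ 2).coeff i) * X ^ i) = C ((q ^ 2).coeff i) * X ^ (j + i) := by
        ring
      rw [this, ← smul_eq_C_mul, map_smul, LL_X_pow, smul_eq_mul]
    rw [h2]
    refine sum_le_sum fun i _ => ?_
    calc (q ^ 2).coeff i * m (j + i) ≤ |(q ^ 2).coeff i * m (j + i)| := le_abs_self _
      _ = |(q ^ 2).coeff i| * |m (j + i)| := abs_mul _ _
      _ ≤ _ := mul_le_mul_of_nonneg_left (hM _) (abs_nonneg _)

/-- **Complete monotonicity.** -/
theorem Pos.mono {m : ℕ → ℝ} (h : Pos m) (n k : ℕ) : 0 ≤ LL m (X ^ n * (1 - X) ^ k) := by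
  have hd : ∀ (j : ℕ) (q : ℝ[X]), 0 ≤ LL m (X ^ j * (1 - X) * q ^ 2) := by
    intro j q
    have h1 := h.dec q j
    have h2 : (X : ℝ[X]) ^ j * (1 - X) * q ^ 2 = X ^ j * q ^ 2 - X ^ (j + 1) * q ^ 2 := by ring
    rw [h2, map_sub]
    linarith
  rcases Nat.even_or_odd' n with ⟨i, hi | hi⟩ <;> rcases Nat.even_or_odd' k with ⟨l, hl | hl⟩
  · have : (X : ℝ[X]) ^ n * (1 - X) ^ k = (X ^ i * (1 - X) ^ l) ^ 2 := by rw [hi, hl]; ring
    rw [this]
    exact h.sq _
  · have : (X : ℝ[X]) ^ n * (1 - X) ^ k = X ^ 0 * (1 - X) * (X ^ i * (1 - X) ^ l) ^ 2 := by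
      rw [hi, hl]; ring
    rw [this]
    exact hd _ _
  · have : (X : ℝ[X]) ^ n * (1 - X) ^ k = X * (X ^ i * (1 - X) ^ l) ^ 2 := by rw [hi, hl]; ring
    rw [this]
    exact h.sq1 _
  · have : (X : ℝ[X]) ^ n * (1 - X) ^ k = X ^ 1 * (1 - X) * (X ^ i * (1 - X) ^ l) ^ 2 := by
      rw [hi, hl]; ring
    rw [this]
    exact hd _ _

/-- the exact quadrature -/
lemma quad (m : ℕ → ℝ) {N t : ℕ} (ht : t ≤ N) :
    ∑ k ∈ range (N + 1), (N.choose k : ℝ) * ((k.choose t : ℝ) / (N.choose t : ℝ)) *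
      LL m (X ^ k * (1 - X) ^ (N - k)) = m t := by
  have hN : (0 : ℝ) < N.choose t := by exact_mod_cast Nat.choose_pos ht
  have h1 : ∀ k ∈ range (N + 1), (N.choose k : ℝ) * ((k.choose t : ℝ) / (N.choose t : ℝ)) =
      if t ≤ k then ((N - t).choose (k - t) : ℝ) else 0 := by
    intro k hk
    have hk' : k ≤ N := Nat.lt_succ_iff.1 (mem_range.1 hk)
    split_ifs with h
    · have := Nat.choose_mul (n := N) h
      rw [mul_div_assoc', div_eq_iff hN.ne']
      have h2 : (N.choose k : ℝ) * (k.choose t) = (N.choose t) * ((N - t).choose (k - t)) := by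
        exact_mod_cast this
      linarith
    · rw [Nat.choose_eq_zero_of_lt (not_le.1 h)]
      simp
  have h2 : ∑ k ∈ range (N + 1), (N.choose k : ℝ) * ((k.choose t : ℝ) / (N.choose t : ℝ)) *
      LL m (X ^ k * (1 - X) ^ (N - k)) = ∑ k ∈ range (N + 1),
        (if t ≤ k then ((N - t).choose (k - t) : ℝ) * LL m (X ^ k * (1 - X) ^ (N - k)) else 0) := by
    refine sum_congr rfl fun k hk => ?_
    rw [h1 k hk]
    split_ifs <;> simp
  rw [h2, ← sum_filter]
  have h3 : (range (N + 1)).filter (fun k => t ≤ k) = Finset.Ico t (N + 1) := by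
    ext k
    simp only [mem_filter, mem_range, mem_Ico]
    tauto
  rw [h3, sum_Ico_eq_sum_range]
  have h4 : N + 1 - t = (N - t) + 1 := by omega
  rw [h4]
  have h5 : ∀ j ∈ range (N - t + 1), ((N - t).choose (t + j - t) : ℝ) *
      LL m (X ^ (t + j) * (1 - X) ^ (N - (t + j))) =
      LL m (X ^ t * (X ^ j * (1 - X) ^ (N - t - j) * ((N - t).choose j : ℝ[X]))) := by
    intro j hj
    have e1 : t + j - t = j := by omega
    have e2 : N - (t + j) = N - t - j := by omega
    rw [e1, e2]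
    have e3 : (X : ℝ[X]) ^ t * (X ^ j * (1 - X) ^ (N - t - j) * ((N - t).choose j : ℝ[X])) =
        C ((N - t).choose j : ℝ) * (X ^ (t + j) * (1 - X) ^ (N - t - j)) := by
      rw [pow_add]
      have : (C ((N - t).choose j : ℝ) : ℝ[X]) = ((N - t).choose j : ℝ[X]) := by simp
      rw [this]
      ring
    rw [e3, ← smul_eq_C_mul, map_smul, smul_eq_mul]
  rw [sum_congr rfl h5, ← map_sum, ← mul_sum, ← add_pow]
  simp [LL_X_pow]

/-- the quadrature nodes -/
lemma nodes {N : ℕ} (t : ℕ) (hN : 2 * t < N) {k : ℕ} (hk : k ≤ N) :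
    |((k : ℝ) / N) ^ t - (k.choose t : ℝ) / (N.choose t : ℝ)| ≤ (t : ℝ) ^ 2 * (2 / N) := by
  induction t with
  | zero => simp
  | succ t ih =>
    have hN0 : (0 : ℝ) < N := by
      have : 0 < N := by omega
      exact_mod_cast this
    have ih' := ih (by omega)
    have htN : (t : ℝ) < N := by
      have : t < N := by omega
      exact_mod_cast this
    have hc : ∀ a : ℕ, (a.choose (t + 1) : ℝ) * (t + 1) = (a.choose t : ℝ) * ((a : ℝ) - t) := by
      intro a
      have h := Nat.choose_succ_right_eq a t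
      rcases le_or_gt t a with h1 | h1
      · have : ((a - t : ℕ) : ℝ) = (a : ℝ) - t := by push_cast [h1]; ring
        rw [← this]
        exact_mod_cast h
      · rw [Nat.choose_eq_zero_of_lt h1, Nat.choose_eq_zero_of_lt (by omega)]
        simp
    have hNt : (0 : ℝ) < N.choose t := by exact_mod_cast Nat.choose_pos (by omega)
    have hNt1 : (0 : ℝ) < N.choose (t + 1) := by exact_mod_cast Nat.choose_pos (by omega)
    have e1 : (k.choose (t + 1) : ℝ) / (N.choose (t + 1) : ℝ) =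
        (k.choose t : ℝ) / (N.choose t) * (((k : ℝ) - t) / ((N : ℝ) - t)) := by
      have h1 := hc k
      have h2 := hc N
      have h3 : (0 : ℝ) < (N : ℝ) - t := by linarith
      have h4 : (0 : ℝ) < (t : ℝ) + 1 := by positivity
      rw [div_mul_div_comm, div_eq_div_iff hNt1.ne' (by positivity), ← h2]
      have : (k.choose t : ℝ) * ((k : ℝ) - t) = (k.choose (t + 1) : ℝ) * (t + 1) := h1.symm
      rw [this]
      ring
    have hD1 : (k.choose t : ℝ) / (N.choose t) ≤ 1 := by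
      rw [div_le_one hNt]
      exact_mod_cast Nat.choose_le_choose t hk
    have hD0 : 0 ≤ (k.choose t : ℝ) / (N.choose t) := by positivity
    have hkN0 : 0 ≤ (k : ℝ) / N := by positivity
    have hkN1 : (k : ℝ) / N ≤ 1 := by
      rw [div_le_one hN0]
      exact_mod_cast hk
    have e2 : |(k : ℝ) / N - ((k : ℝ) - t) / ((N : ℝ) - t)| ≤ t * (2 / N) := by
      have h3 : (0 : ℝ) < (N : ℝ) - t := by linarith
      have h5 : (k : ℝ) / N - ((k : ℝ) - t) / ((N : ℝ) - t) =
          t * (((N : ℝ) - k) / (N * (N - t))) := by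
        field_simp
        ring
      have hkN : (k : ℝ) ≤ N := by exact_mod_cast hk
      have h6 : 0 ≤ ((N : ℝ) - k) / (N * (N - t)) := div_nonneg (by linarith) (by positivity)
      rw [h5, abs_of_nonneg (by positivity)]
      refine mul_le_mul_of_nonneg_left ?_ (by positivity)
      rw [div_le_div_iff₀ (by positivity) hN0]
      have h7 : (N : ℝ) ≤ 2 * ((N : ℝ) - t) := by
        have : 2 * (t : ℝ) ≤ N := by
          have : 2 * t ≤ N := by omega
          exact_mod_cast this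
        linarith
      have h8 : (N : ℝ) - k ≤ 2 * (N - t) := by
        have : (0 : ℝ) ≤ k := Nat.cast_nonneg k
        linarith
      nlinarith
    rw [e1, pow_succ]
    have e3 : ((k : ℝ) / N) ^ t * ((k : ℝ) / N) -
        (k.choose t : ℝ) / (N.choose t) * (((k : ℝ) - t) / ((N : ℝ) - t)) =
        (((k : ℝ) / N) ^ t - (k.choose t : ℝ) / (N.choose t)) * ((k : ℝ) / N) +
          (k.choose t : ℝ) / (N.choose t) * ((k : ℝ) / N - ((k : ℝ) - t) / ((N : ℝ) - t)) := by ring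
    rw [e3]
    have e4 : 0 ≤ (2 : ℝ) / N := by positivity
    calc |(((k : ℝ) / N) ^ t - (k.choose t : ℝ) / (N.choose t)) * ((k : ℝ) / N) +
          (k.choose t : ℝ) / (N.choose t) * ((k : ℝ) / N - ((k : ℝ) - t) / ((N : ℝ) - t))| ≤
        |((k : ℝ) / N) ^ t - (k.choose t : ℝ) / (N.choose t)| * |(k : ℝ) / N| +
          |(k.choose t : ℝ) / (N.choose t)| * |(k : ℝ) / N - ((k : ℝ) - t) / ((N : ℝ) - t)| := by
          refine (abs_add_le _ _).trans ?_
          rw [abs_mul, abs_mul]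
      _ ≤ (t : ℝ) ^ 2 * (2 / N) * 1 + 1 * (t * (2 / N)) := by
          rw [abs_of_nonneg hkN0, abs_of_nonneg hD0]
          refine add_le_add (mul_le_mul ih' hkN1 hkN0 (by positivity))
            (mul_le_mul hD1 e2 (abs_nonneg _) (by norm_num))
      _ ≤ ((t + 1 : ℕ) : ℝ) ^ 2 * (2 / N) := by
          push_cast
          nlinarith [Nat.cast_nonneg (α := ℝ) t]

end Pool.Agent.X134.SM
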