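import Pool.Agent.X134.SM.Decay

/-!
# The limit of the covariances of the products of separated loop variables
-/

open MeasureTheory Matrix Filter
open scoped Matrix.Norms.Frobenius ContDiff Topology
open Pool.Agent.W793.YM (Ez lf gz EX)
open Pool.Agent.Results.MP_7f377f_mp.WilsonLoopsWeakCoupling

namespace Pool.Agent.X134.SM

set_option linter.unusedSectionVars false
set_option linter.unusedVariables false

noncomputable section

variable {D m n : ℕ}

lemma loop_ext {d : ℕ} {γ γ' : Loop d} (h : γ.base = γ'.base) (h' : γ.steps = γ'.steps) : γ = γ' := by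
  cases γ
  cases γ'
  simp only at h h'
  subst h
  subst h'
  rfl

lemma shl_shl (v w : Fin (D + 1) → ℤ) (γ : Loop (D + 1)) : shl v (shl w γ) = shl (w + v) γ :=
  loop_ext (by simp only [shl, add_assoc]) rfl

lemma shl_zero (γ : Loop (D + 1)) : shl 0 γ = γ := loop_ext (by simp only [shl, add_zero]) rfl

lemma inter_add (γ γ' : Loop (D + 1)) (s v w : Fin (D + 1) → ℤ) :
    inter (shl v γ) (shl w γ') = inter (shl (s + v) γ) (shl (s + w) γ') := by
  rw [add_comm s v, add_comm s w, ← shl_shl, ← shl_shl, inter_shift]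

/-- the doubled family -/
def dbl (γ : Fin m → Loop (D + 1)) (v : Fin (D + 1) → ℤ) (i : Fin (m * 2)) : Loop (D + 1) :=
  shl (if (finProdFinEquiv.symm i).2 = 0 then 0 else v) (γ (finProdFinEquiv.symm i).1)

/-- the separated family -/
def sepL (S : ℕ) (γ : Fin m → Loop (D + 1)) (r : Fin m) : Loop (D + 1) := shl (sep S m r) (γ r)

/-- the entries -/
def ent (n : ℕ) {k : ℕ} (γ : Fin k → Loop (D + 1)) (a : Fin k → Fin n) (u v : Fin k × Bool) : ℝ :=
  if u.1 = v.1 then 0 else if a u.1 = a v.1 then inter (γ u.1) (γ v.1) else 0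

lemma wicks_ent {k : ℕ} (γ : Fin k → Loop (D + 1)) :
    wicks n γ = ∑ a : Fin k → Fin n, pairings (ent n γ a) (factors k) := rfl

lemma factors_ne {k : ℕ} (hk : 0 < k) : factors k ≠ [] := by
  intro h
  have h1 : ((⟨0, hk⟩, false) : Fin k × Bool) ∈ factors k := by
    unfold factors
    rw [List.mem_flatMap]
    exact ⟨⟨0, hk⟩, List.mem_finRange _, by simp⟩
  rw [h] at h1
  simp at h1

/-- all the loops are far from each other -/
lemma wicks_sep0 (hD : 2 ≤ D) (hm : 0 < m) (n : ℕ) (γ : Fin m → Loop (D + 1)) :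
    Tendsto (fun S => wicks n (sepL S γ)) atTop (𝓝 0) := by
  have h1 : ∀ (a : Fin m → Fin n) (u v : Fin m × Bool),
      Tendsto (fun S => ent n (sepL S γ) a u v) atTop (𝓝 0) := by
    intro a u v
    unfold ent
    by_cases h : u.1 = v.1
    · simp only [if_pos h]; exact tendsto_const_nhds
    · simp only [if_neg h]
      by_cases h' : a u.1 = a v.1
      · simp only [if_pos h']
        unfold sepL
        have h2 := sep_tendsto (D := D) (by omega) h 0 0
        simp only [add_zero] at h2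
        exact inter_decay (by omega) _ _ _ _ _ h2
      · simp only [if_neg h']; exact tendsto_const_nhds
  have h2 : Tendsto (fun S => ∑ a : Fin m → Fin n, pairings (ent n (sepL S γ) a) (factors m)) atTop
      (𝓝 (∑ a : Fin m → Fin n, pairings (fun _ _ => (0 : ℝ)) (factors m))) :=
    tendsto_finsetSum _ fun a _ => pairings_tendsto (h1 a) _
  have h3 : (∑ a : Fin m → Fin n, pairings (fun _ _ : Fin m × Bool => (0 : ℝ)) (factors m)) = 0 :=
    Finset.sum_eq_zero fun a _ => pairings_zero _ (fun _ _ => rfl) (factors_ne hm)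
  rw [h3] at h2
  exact h2

/-- the limit entries -/
def entI (n : ℕ) (γ : Fin m → Loop (D + 1)) (v₀ : Fin (D + 1) → ℤ) (a : Fin (m * 2) → Fin n)
    (u v : Fin (m * 2) × Bool) : ℝ :=
  if u.1 = v.1 then 0 else if a u.1 = a v.1 then
    (if (finProdFinEquiv.symm u.1).1 = (finProdFinEquiv.symm v.1).1 then
      inter (dbl γ v₀ u.1) (dbl γ v₀ v.1) else 0) else 0

lemma dbl_sepL (S : ℕ) (γ : Fin m → Loop (D + 1)) (v : Fin (D + 1) → ℤ) (i : Fin (m * 2)) :
    dbl (sepL S γ) v i = shl (sep S m (finProdFinEquiv.symm i).1 +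
      (if (finProdFinEquiv.symm i).2 = 0 then 0 else v)) (γ (finProdFinEquiv.symm i).1) := by
  unfold dbl sepL
  rw [shl_shl]

lemma ent_lim (hD : 2 ≤ D) (n : ℕ) (γ : Fin m → Loop (D + 1)) (v₀ : Fin (D + 1) → ℤ)
    (a : Fin (m * 2) → Fin n) (u v : Fin (m * 2) × Bool) :
    Tendsto (fun S => ent n (dbl (sepL S γ) v₀) a u v) atTop (𝓝 (entI n γ v₀ a u v)) := by
  unfold ent entI
  by_cases h : u.1 = v.1
  · simp only [if_pos h]; exact tendsto_const_nhds
  · simp only [if_neg h]
    by_cases h' : a u.1 = a v.1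
    · simp only [if_pos h', dbl_sepL]
      by_cases h'' : (finProdFinEquiv.symm u.1).1 = (finProdFinEquiv.symm v.1).1
      · simp only [if_pos h'']
        refine tendsto_const_nhds.congr fun S => ?_
        unfold dbl
        rw [← h'', inter_add]
      · simp only [if_neg h'']
        exact inter_decay (by omega) _ _ _ _ _ (sep_tendsto (by omega) h'' _ _)
    · simp only [if_neg h']; exact tendsto_const_nhds

/-- the sum over the pairings of the limit entries -/
lemma pair_entI (n : ℕ) (γ : Fin m → Loop (D + 1)) (v₀ : Fin (D + 1) → ℤ) (a : Fin (m * 2) → Fin n) :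
    pairings (entI n γ v₀ a) (factors (m * 2)) = ∏ r : Fin m,
      (if a (finProdFinEquiv (r, 0)) = a (finProdFinEquiv (r, 1)) then
        2 * inter (γ r) (shl v₀ (γ r)) ^ 2 else 0) := by
  rw [factors_mul, pairings_flatten]
  · rw [List.map_map, ← List.prod_ofFn, List.ofFn_eq_map]
    congr 1
    refine List.map_congr_left fun r _ => ?_
    simp only [Function.comp_apply]
    rw [pairings_four]
    have hne : finProdFinEquiv (r, (0 : Fin 2)) ≠ finProdFinEquiv (r, (1 : Fin 2)) := by
      intro h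
      have := finProdFinEquiv.injective h
      simp at this
    have h1 : ∀ i j : Bool, entI n γ v₀ a (finProdFinEquiv (r, (0 : Fin 2)), i)
        (finProdFinEquiv (r, (1 : Fin 2)), j) =
        if a (finProdFinEquiv (r, 0)) = a (finProdFinEquiv (r, 1)) then
          inter (γ r) (shl v₀ (γ r)) else 0 := by
      intro i j
      unfold entI
      rw [if_neg hne]
      simp only [Equiv.symm_apply_apply, if_true]
      unfold dbl
      simp only [Equiv.symm_apply_apply, if_true, shl_zero]
      simp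
    have h2 : entI n γ v₀ a (finProdFinEquiv (r, (0 : Fin 2)), false)
        (finProdFinEquiv (r, (0 : Fin 2)), true) = 0 := by
      unfold entI
      rw [if_pos rfl]
    rw [h1, h1, h1, h1, h2]
    split_ifs
    · ring
    · ring
  · rw [List.pairwise_map]
    refine (List.nodup_finRange m).imp fun {r s} hrs => ?_
    have h3 : ∀ (r : Fin m) (u : Fin (m * 2) × Bool), u ∈ [(finProdFinEquiv (r, (0 : Fin 2)), false),
        (finProdFinEquiv (r, (0 : Fin 2)), true), (finProdFinEquiv (r, (1 : Fin 2)), false),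
        (finProdFinEquiv (r, (1 : Fin 2)), true)] → (finProdFinEquiv.symm u.1).1 = r := by
      intro r u hu
      simp only [List.mem_cons, List.not_mem_nil, or_false] at hu
      rcases hu with rfl | rfl | rfl | rfl <;> simp
    intro u hu v hv
    unfold entI
    rw [h3 r u hu, h3 s v hv, if_neg hrs]
    split_ifs <;> rfl

lemma sum_entI (n : ℕ) (γ : Fin m → Loop (D + 1)) (v₀ : Fin (D + 1) → ℤ) :
    ∑ a : Fin (m * 2) → Fin n, pairings (entI n γ v₀ a) (factors (m * 2)) =
      ∏ r : Fin m, (2 * n * inter (γ r) (shl v₀ (γ r)) ^ 2) := by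
  simp only [pair_entI]
  have h1 : ∀ r : Fin m, 2 * (n : ℝ) * inter (γ r) (shl v₀ (γ r)) ^ 2 =
      ∑ b : Fin 2 → Fin n, if b 0 = b 1 then 2 * inter (γ r) (shl v₀ (γ r)) ^ 2 else 0 := by
    intro r
    rw [← Fintype.sum_equiv (finTwoArrowEquiv (Fin n)).symm
      (fun x : Fin n × Fin n => if x.1 = x.2 then 2 * inter (γ r) (shl v₀ (γ r)) ^ 2 else 0) _
      fun x => rfl]
    rw [Fintype.sum_prod_type]
    simp only [Finset.sum_ite_eq, Finset.mem_univ, if_true, Finset.sum_const, Finset.card_univ,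
      Fintype.card_fin, nsmul_eq_mul]
    ring
  simp only [h1]
  rw [Finset.prod_univ_sum, Fintype.piFinset_univ]
  let e : (Fin (m * 2) → Fin n) ≃ (Fin m → Fin 2 → Fin n) :=
    (Equiv.arrowCongr finProdFinEquiv.symm (Equiv.refl _)).trans (Equiv.curry _ _ _)
  refine Fintype.sum_equiv e _ _ fun a => ?_
  rfl

/-- **The factorization.** -/
theorem wicks_sep (hD : 2 ≤ D) (n : ℕ) (γ : Fin m → Loop (D + 1)) (v₀ : Fin (D + 1) → ℤ) :
    Tendsto (fun S => (1 / 2 : ℝ) ^ (m * 2) * wicks n (dbl (sepL S γ) v₀)) atTop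
      (𝓝 (∏ r, (n / 2 * inter (γ r) (shl v₀ (γ r)) ^ 2))) := by
  have h2 : Tendsto (fun S => ∑ a : Fin (m * 2) → Fin n, pairings (ent n (dbl (sepL S γ) v₀) a)
      (factors (m * 2))) atTop
      (𝓝 (∑ a : Fin (m * 2) → Fin n, pairings (entI n γ v₀ a) (factors (m * 2)))) :=
    tendsto_finsetSum _ fun a _ => pairings_tendsto (ent_lim hD n γ v₀ a) _
  rw [sum_entI] at h2
  have h3 := h2.const_mul ((1 / 2 : ℝ) ^ (m * 2))
  have h4 : (1 / 2 : ℝ) ^ (m * 2) * ∏ r : Fin m, (2 * n * inter (γ r) (shl v₀ (γ r)) ^ 2) =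
      ∏ r, (n / 2 * inter (γ r) (shl v₀ (γ r)) ^ 2) := by
    rw [mul_comm m 2, pow_mul]
    have h5 : ((1 / 2 : ℝ) ^ 2) ^ m = ∏ r : Fin m, ((1 / 2 : ℝ) ^ 2) := by
      rw [Finset.prod_const, Finset.card_univ, Fintype.card_fin]
    rw [h5, ← Finset.prod_mul_distrib]
    refine Finset.prod_congr rfl fun r _ => ?_
    ring
  rw [h4] at h3
  exact h3

end

end Pool.Agent.X134.SM
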