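import Pool.Agent.X134.SM.Exist

/-!
# The moments determine the measure and its weak limits
-/

set_option autoImplicit false
open Finset MeasureTheory Filter Topology
open scoped ENNReal NNReal

namespace Pool.Agent.X134.SM

variable {D : ℕ}

/-- the monomials on the compact space -/
noncomputable def mnC (q : ℕ × (Fin D → ℤ)) : C(XX D, ℂ) := ⟨fun p => mn q.1 q.2 (inc p), mn_cont _ _⟩

lemma mnC_apply (q : ℕ × (Fin D → ℤ)) (p : XX D) : mnC q p = mn q.1 q.2 (inc p) := rfl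

lemma ne_zero_of {p : ℝ × (Fin D → ℂ)} (hp : p ∈ KK D) (i : Fin D) : p.2 i ≠ 0 := by
  have := hp.2 i
  intro h0
  rw [h0, norm_zero] at this
  norm_num at this

lemma mn_mul {p : ℝ × (Fin D → ℂ)} (hp : p ∈ KK D) (t s : ℕ) (x y : Fin D → ℤ) :
    mn t x p * mn s y p = mn (t + s) (x + y) p := by
  unfold mn
  have h1 : ∏ i, p.2 i ^ (x + y) i = (∏ i, p.2 i ^ x i) * ∏ i, p.2 i ^ y i := by
    rw [← prod_mul_distrib]
    refine prod_congr rfl fun i _ => ?_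
    rw [Pi.add_apply, zpow_add₀ (ne_zero_of hp i)]
  rw [h1, pow_add]
  ring

lemma mn_star {p : ℝ × (Fin D → ℂ)} (hp : p ∈ KK D) (t : ℕ) (x : Fin D → ℤ) :
    star (mn t x p) = mn t (-x) p := by
  unfold mn
  rw [star_mul', star_pow, star_prod]
  congr 1
  · congr 1
    exact Complex.conj_ofReal _
  · refine prod_congr rfl fun i _ => ?_
    rw [star_zpow₀, Pi.neg_apply, zpow_neg, ← inv_zpow]
    congr 1
    have h1 := hp.2 i
    rw [Complex.inv_def, Complex.normSq_eq_norm_sq, h1]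
    simp

lemma mnC_mul (q r : ℕ × (Fin D → ℤ)) : mnC q * mnC r = mnC (q + r) := by
  ext p
  rw [ContinuousMap.mul_apply, mnC_apply, mnC_apply, mnC_apply]
  exact mn_mul (p := inc p) p.2 _ _ _ _

/-- the algebra of the trigonometric polynomials -/
noncomputable def AA (D : ℕ) : StarSubalgebra ℂ C(XX D, ℂ) where
  toSubalgebra := Algebra.adjoin ℂ (Set.range (mnC (D := D)))
  star_mem' := by
    change Algebra.adjoin ℂ (Set.range (mnC (D := D))) ≤
      star (Algebra.adjoin ℂ (Set.range (mnC (D := D))))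
    refine Algebra.adjoin_le ?_
    rintro - ⟨q, rfl⟩
    refine Algebra.subset_adjoin ⟨(q.1, -q.2), ContinuousMap.ext fun p => ?_⟩
    exact (mn_star p.2 q.1 q.2).symm

theorem AA_coe : Subalgebra.toSubmodule (AA D).toSubalgebra =
    Submodule.span ℂ (Set.range (mnC (D := D))) := by
  apply Algebra.adjoin_eq_span_of_subset
  refine Set.Subset.trans ?_ Submodule.subset_span
  intro x hx
  refine Submonoid.closure_induction (fun _ => id) ⟨0, ?_⟩ ?_ hx
  · ext1 p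
    rw [mnC_apply]
    unfold mn
    simp
  · rintro - - - - ⟨m, rfl⟩ ⟨n, rfl⟩
    exact ⟨m + n, (mnC_mul m n).symm⟩

theorem AA_sep : (AA D).SeparatesPoints := by
  classical
  intro p q hpq
  by_cases h1 : (inc p).1 = (inc q).1
  · have h2 : ∃ i, (inc p).2 i ≠ (inc q).2 i := by
      by_contra hcon
      push Not at hcon
      exact hpq (Subtype.ext (Prod.ext h1 (funext hcon)))
    obtain ⟨i, hi⟩ := h2
    refine ⟨_, ⟨mnC (0, Pi.single i 1), Algebra.subset_adjoin ⟨_, rfl⟩, rfl⟩, ?_⟩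
    have h3 : ∀ r : XX D, mnC (0, Pi.single i 1) r = (inc r).2 i := by
      intro r
      rw [mnC_apply]
      unfold mn
      rw [pow_zero, one_mul, prod_eq_single i]
      · simp
      · intro j _ hj
        simp [Pi.single_eq_of_ne hj]
      · intro h
        exact absurd (mem_univ i) h
    dsimp only
    rw [h3, h3]
    exact hi
  · refine ⟨_, ⟨mnC (1, 0), Algebra.subset_adjoin ⟨_, rfl⟩, rfl⟩, ?_⟩
    have h3 : ∀ r : XX D, mnC (1, 0) r = ((inc r).1 : ℂ) := by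
      intro r
      rw [mnC_apply]
      unfold mn
      simp
    dsimp only
    rw [h3, h3]
    exact_mod_cast h1

/-- uniform approximation by the monomials -/
theorem approx {f : ℝ × (Fin D → ℂ) → ℝ} (hf : ContinuousOn f (KK D)) {ε : ℝ} (hε : 0 < ε) :
    ∃ (s : Finset (ℕ × (Fin D → ℤ))) (a : ℕ × (Fin D → ℤ) → ℂ), ∀ p ∈ KK D,
      ‖(f p : ℂ) - ∑ q ∈ s, a q * mn q.1 q.2 p‖ ≤ ε := by
  have hfc : Continuous fun p : XX D => (f (inc p) : ℂ) :=
    Complex.continuous_ofReal.comp (continuousOn_iff_continuous_domRestrict.1 hf)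
  have h1 : (⟨fun p : XX D => (f (inc p) : ℂ), hfc⟩ : C(XX D, ℂ)) ∈ (AA D).topologicalClosure := by
    rw [ContinuousMap.starSubalgebra_topologicalClosure_eq_top_of_separatesPoints (AA D) AA_sep]
    exact StarSubalgebra.mem_top
  have h2 := Metric.mem_closure_iff.1 h1 ε hε
  obtain ⟨g, hg, hd⟩ := h2
  have h3 : g ∈ Submodule.span ℂ (Set.range (mnC (D := D))) := by
    rw [← AA_coe]
    exact hg
  obtain ⟨a, ha⟩ := Finsupp.mem_span_range_iff_exists_finsupp.1 h3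
  refine ⟨a.support, a, fun p hp => ?_⟩
  have h4 := (ContinuousMap.dist_apply_le_dist (f := (⟨fun p : XX D => (f (inc p) : ℂ), hfc⟩ :
    C(XX D, ℂ))) (g := g) (⟨p, hp⟩ : XX D)).trans hd.le
  rw [dist_eq_norm] at h4
  have h5 : g ⟨p, hp⟩ = ∑ q ∈ a.support, a q * mn q.1 q.2 p := by
    rw [← ha, Finsupp.sum, ContinuousMap.coe_sum, Finset.sum_apply]
    rfl
  rw [h5] at h4
  exact h4

/-- the measure is carried by the compact set -/
lemma ae_KK {ρ : Measure (ℝ × (Fin D → ℂ))} (h : ρ (KK D)ᶜ = 0) : ∀ᵐ p ∂ρ, p ∈ KK D := h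

lemma int_KK {ρ : Measure (ℝ × (Fin D → ℂ))} [IsFiniteMeasure ρ] (h : ρ (KK D)ᶜ = 0)
    {E : Type*} [NormedAddCommGroup E] {f : ℝ × (Fin D → ℂ) → E} (hm : AEStronglyMeasurable f ρ)
    (hf : ContinuousOn f (KK D)) : Integrable f ρ := by
  obtain ⟨M, hM⟩ := KK_compact.exists_bound_of_continuousOn hf
  exact Integrable.of_bound hm M ((ae_KK h).mono fun p hp => hM p hp)

lemma mn_meas (t : ℕ) (x : Fin D → ℤ) : Measurable (mn t x) := by
  unfold mn
  refine Measurable.mul (by fun_prop) (Finset.measurable_prod _ fun i _ => ?_)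
  exact ((measurable_pi_apply i).comp measurable_snd).pow_const (x i)

lemma mn_contOn (t : ℕ) (x : Fin D → ℤ) : ContinuousOn (mn t x) (KK D) :=
  continuousOn_iff_continuous_domRestrict.2 (mn_cont t x)

lemma mn_norm {p : ℝ × (Fin D → ℂ)} (hp : p ∈ KK D) (t : ℕ) (x : Fin D → ℤ) : ‖mn t x p‖ ≤ 1 := by
  unfold mn
  rw [norm_mul, norm_pow, norm_prod]
  have h1 : ∏ i, ‖p.2 i ^ x i‖ = 1 := by
    refine prod_eq_one fun i _ => ?_
    rw [norm_zpow, hp.2 i, one_zpow]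
  rw [h1, mul_one, Complex.norm_real, Real.norm_eq_abs, abs_of_nonneg hp.1.1]
  exact pow_le_one₀ hp.1.1 hp.1.2

/-- the moments -/
noncomputable def mom (ρ : Measure (ℝ × (Fin D → ℂ))) (q : ℕ × (Fin D → ℤ)) : ℂ :=
  ∫ p, mn q.1 q.2 p ∂ρ

lemma mom_zero (ρ : Measure (ℝ × (Fin D → ℂ))) [IsFiniteMeasure ρ] :
    mom ρ 0 = (ρ.real Set.univ : ℂ) := by
  unfold mom
  have h2 : ∀ p : ℝ × (Fin D → ℂ), mn (0 : ℕ × (Fin D → ℤ)).1 (0 : ℕ × (Fin D → ℤ)).2 p = 1 := by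
    intro p
    unfold mn
    simp
  simp only [h2]
  rw [integral_const, Complex.real_smul, mul_one]

/-- **The weak convergence is controlled by finitely many moments.** -/
theorem weak {ρ' : Measure (ℝ × (Fin D → ℂ))} [IsFiniteMeasure ρ'] (h' : ρ' (KK D)ᶜ = 0)
    {f : ℝ × (Fin D → ℂ) → ℝ} (hfm : Measurable f) (hf : ContinuousOn f (KK D)) {ε : ℝ}
    (hε : 0 < ε) : ∃ (s : Finset (ℕ × (Fin D → ℤ))) (δ : ℝ), 0 < δ ∧
      ∀ ρ : Measure (ℝ × (Fin D → ℂ)), IsFiniteMeasure ρ → ρ (KK D)ᶜ = 0 →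
        (∀ q ∈ s, ‖mom ρ q - mom ρ' q‖ ≤ δ) → |∫ p, f p ∂ρ - ∫ p, f p ∂ρ'| ≤ ε := by
  classical
  obtain ⟨m, hm⟩ : ∃ m, m = ρ'.real Set.univ := ⟨_, rfl⟩
  have hm0 : 0 ≤ m := by rw [hm]; exact measureReal_nonneg
  obtain ⟨η, hη⟩ : ∃ η, η = ε / (2 * (2 * m + 1)) := ⟨_, rfl⟩
  have hη0 : 0 < η := by rw [hη]; positivity
  obtain ⟨s, a, hsa⟩ := approx hf hη0
  obtain ⟨A, hA⟩ : ∃ A, A = ∑ q ∈ s, ‖a q‖ := ⟨_, rfl⟩
  have hA0 : 0 ≤ A := by rw [hA]; positivity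
  refine ⟨insert 0 s, min 1 (ε / (2 * (A + 1))), by positivity, fun ρ hρ hρK hmom => ?_⟩
  obtain ⟨δ, hδ⟩ : ∃ δ, δ = min 1 (ε / (2 * (A + 1))) := ⟨_, rfl⟩
  rw [← hδ] at hmom
  have hδ1 : δ ≤ 1 := by rw [hδ]; exact min_le_left _ _
  have hδ2 : δ ≤ ε / (2 * (A + 1)) := by rw [hδ]; exact min_le_right _ _
  have hδ0 : 0 < δ := by rw [hδ]; positivity
  have hmass : ρ.real Set.univ ≤ m + 1 := by
    have h1 := hmom 0 (mem_insert_self _ _)
    rw [mom_zero, mom_zero, ← Complex.ofReal_sub, Complex.norm_real, Real.norm_eq_abs] at h1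
    have h2 := le_abs_self (ρ.real Set.univ - ρ'.real Set.univ)
    rw [hm]
    linarith
  have key : ∀ σ : Measure (ℝ × (Fin D → ℂ)), IsFiniteMeasure σ → σ (KK D)ᶜ = 0 →
      ‖((∫ p, f p ∂σ : ℝ) : ℂ) - ∑ q ∈ s, a q * mom σ q‖ ≤ η * σ.real Set.univ := by
    intro σ hσ hσK
    have i1 : Integrable (fun p => (f p : ℂ)) σ :=
      (int_KK hσK hfm.aestronglyMeasurable hf).ofReal
    have i2 : ∀ q ∈ s, Integrable (fun p => a q * mn q.1 q.2 p) σ := fun q _ =>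
      (int_KK hσK (mn_meas _ _).aestronglyMeasurable (mn_contOn _ _)).const_mul _
    have e1 : ((∫ p, f p ∂σ : ℝ) : ℂ) - ∑ q ∈ s, a q * mom σ q =
        ∫ p, ((f p : ℂ) - ∑ q ∈ s, a q * mn q.1 q.2 p) ∂σ := by
      have e2 : ∫ p, (f p : ℂ) ∂σ = ((∫ p, f p ∂σ : ℝ) : ℂ) := integral_ofReal
      rw [integral_sub i1 (integrable_finsetSum _ i2), integral_finsetSum _ i2, e2]
      congr 1
      refine sum_congr rfl fun q _ => ?_
      rw [integral_const_mul]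
      rfl
    rw [e1]
    have := norm_integral_le_of_norm_le_const (μ := σ) (C := η)
      (f := fun p => (f p : ℂ) - ∑ q ∈ s, a q * mn q.1 q.2 p)
      ((ae_KK hσK).mono fun p hp => hsa p hp)
    exact this
  have k1 := key ρ hρ hρK
  have k2 := key ρ' inferInstance h'
  have e3 : ‖∑ q ∈ s, a q * mom ρ q - ∑ q ∈ s, a q * mom ρ' q‖ ≤ A * δ := by
    rw [← sum_sub_distrib, hA, sum_mul]
    refine (norm_sum_le _ _).trans (sum_le_sum fun q hq => ?_)
    rw [← mul_sub, norm_mul]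
    exact mul_le_mul_of_nonneg_left (hmom q (mem_insert_of_mem hq)) (norm_nonneg _)
  have e4 : |∫ p, f p ∂ρ - ∫ p, f p ∂ρ'| = ‖((∫ p, f p ∂ρ : ℝ) : ℂ) - ((∫ p, f p ∂ρ' : ℝ) : ℂ)‖ := by
    rw [← Complex.ofReal_sub, Complex.norm_real, Real.norm_eq_abs]
  rw [e4]
  have e5 : ((∫ p, f p ∂ρ : ℝ) : ℂ) - ((∫ p, f p ∂ρ' : ℝ) : ℂ) =
      (((∫ p, f p ∂ρ : ℝ) : ℂ) - ∑ q ∈ s, a q * mom ρ q) +
        (∑ q ∈ s, a q * mom ρ q - ∑ q ∈ s, a q * mom ρ' q) -
          (((∫ p, f p ∂ρ' : ℝ) : ℂ) - ∑ q ∈ s, a q * mom ρ' q) := by ring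
  rw [e5]
  refine (norm_sub_le _ _).trans ?_
  refine (add_le_add_left (norm_add_le _ _) _).trans ?_
  have h6 : A * δ ≤ ε / 2 := by
    calc A * δ ≤ (A + 1) * (ε / (2 * (A + 1))) :=
          mul_le_mul (by linarith) hδ2 hδ0.le (by linarith)
      _ = ε / 2 := by field_simp
  have h7 : η * ρ.real Set.univ + η * ρ'.real Set.univ ≤ ε / 2 := by
    rw [← hm]
    calc η * ρ.real Set.univ + η * m ≤ η * (m + 1) + η * m :=
          add_le_add_left (mul_le_mul_of_nonneg_left hmass hη0.le) _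
      _ = ε / 2 := by
          rw [hη]
          field_simp
          ring
  linarith

/-- **The moments determine the measure.** -/
theorem mom_unique {ρ ρ' : Measure (ℝ × (Fin D → ℂ))} [IsFiniteMeasure ρ] [IsFiniteMeasure ρ']
    (h : ρ (KK D)ᶜ = 0) (h' : ρ' (KK D)ᶜ = 0) (hm : ∀ q, mom ρ q = mom ρ' q) : ρ = ρ' := by
  refine ext_of_forall_integral_eq_of_IsFiniteMeasure fun f => ?_
  have key : ∀ ε : ℝ, 0 < ε → |∫ p, f p ∂ρ - ∫ p, f p ∂ρ'| ≤ ε := by
    intro ε hε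
    obtain ⟨s, δ, hδ, hk⟩ := weak h' (f := f) f.continuous.measurable f.continuous.continuousOn hε
    refine hk ρ inferInstance h fun q _ => ?_
    rw [hm q, sub_self, norm_zero]
    exact hδ.le
  have h0 : |∫ p, f p ∂ρ - ∫ p, f p ∂ρ'| ≤ 0 := le_of_forall_pos_le_add fun ε hε => by
    rw [zero_add]
    exact key ε hε
  exact sub_eq_zero.1 (abs_nonpos_iff.1 h0)

end Pool.Agent.X134.SM
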