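import Pool.Agent.X134.SM.RPT
import Pool.Agent.X134.SM.Weak

/-!
# Reflection positivity in the infinite volume
-/

open MeasureTheory Matrix Filter
open scoped Matrix.Norms.Frobenius ContDiff Topology
open Pool.Agent.H906R3.YM hiding Pl
open Pool.Agent.W793.YM
open Pool.Agent.TH618.YM

namespace Pool.Agent.X134.SM

set_option linter.unusedSectionVars false
set_option linter.unusedVariables false

noncomputable section

variable {D : ℕ} {G : Type*} [Group G] [TopologicalSpace G]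
  [IsTopologicalGroup G] [CompactSpace G] [SecondCountableTopology G] [MeasurableSpace G]
  [BorelSpace G] (μ : Measure G) [IsProbabilityMeasure μ] [μ.IsMulLeftInvariant]
  [μ.IsMulRightInvariant] [μ.IsInvInvariant] {N n : ℕ} (L : LD G N n)
  {O : (Ez (D + 1) → G) → ℝ}

/-- infinite volume limits -/
structure InfV (β : ℝ) (ν : Measure (Ez (D + 1) → G)) : Prop where
  prob : IsProbabilityMeasure ν
  lim : ∃ sq : ℕ → ℕ, Tendsto sq atTop atTop ∧ ∀ F : (Ez (D + 1) → G) → ℝ, Continuous F →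
    Tendsto (fun j => EX μ L β (fun U : Ed (D + 1) (2 * (sq j + 1)) → G => F (lf U))) atTop
      (𝓝 (∫ V, F V ∂ν))

/-- the covariance -/
def cvZ (ν : Measure (Ez (D + 1) → G)) (O : (Ez (D + 1) → G) → ℝ) (v : Fin (D + 1) → ℤ) : ℝ :=
  ∫ V, O V * O (sh v V) ∂ν - (∫ V, O V ∂ν) ^ 2

variable {L}

lemma Ot_zero {m : ℕ} [NeZero m] (U : Ed (D + 1) (2 * m) → G) : Ot O 0 U = O (lf U) := by
  unfold Ot sh
  simp only [add_zero]

section torus

variable {m : ℕ} [NeZero m]

lemma Zt_SR (hm : 2 ≤ m) (β : ℝ) (F : (Ed (D + 1) (2 * m) → G) → ℝ) :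
    Zt μ L β (fun U => F ((SR hm (Fin.last D)).tU U)) = Zt μ L β F := by
  unfold Zt
  rw [← (SR hm (Fin.last D)).integral μ (fun U => F U * Real.exp (-(β * act L U)))]
  refine integral_congr_ae (Filter.Eventually.of_forall fun U => ?_)
  simp only
  have h1 : act L ((SR hm (Fin.last D)).tU U) = act L U := by
    rw [act_sS (L := L) (i0 := Fin.last D) hm, act_sS (L := L) (i0 := Fin.last D) hm U,
      Refl.tU_tU]
    ring
  rw [h1]

lemma cvT_even (hO : TZ O) (hm : 2 ≤ m) (β : ℝ) (x : Fin D → ℤ) (t : ℤ) :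
    cvT μ m L β O (ptz (-x) t) = cvT μ m L β O (ptz x t) := by
  unfold cvT
  congr 1
  have h1 : EX μ L β (fun U : Ed (D + 1) (2 * m) → G => Ot O 0 U * Ot O (ptz (-x) t) U) =
      EX μ L β (fun U : Ed (D + 1) (2 * m) → G => Ot O 0 U * Ot O (ptz (-x) (-t)) U) := by
    unfold EX
    congr 1
    rw [← Zt_SR μ hm β (fun U : Ed (D + 1) (2 * m) → G => Ot O 0 U * Ot O (ptz (-x) t) U)]
    congr 1
    funext U
    rw [Ot_SR hO hm]
    have h2 : Ot O 0 ((SR hm (Fin.last D)).tU U) = Ot O 0 U := by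
      have := Ot_SR hO hm 0 0 U
      rwa [neg_zero, ptz_zero] at this
    rw [h2]
  rw [h1]
  have h3 := EX_Ot2 μ (L := L) (m := m) (O := O) β (0 : Fin (D + 1) → ℤ) (ptz x t)
  have h4 : (0 : Fin (D + 1) → ℤ) - ptz x t = ptz (-x) (-t) := by
    funext i
    refine Fin.lastCases ?_ (fun j => ?_) i
    · rw [Pi.sub_apply, ptz_last, ptz_last, Pi.zero_apply, zero_sub]
    · rw [Pi.sub_apply, ptz_cast, ptz_cast, Pi.zero_apply, zero_sub, Pi.neg_apply]
  rw [h4] at h3
  exact h3.symm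

end torus

lemma cv_lim (hO : TZ O) {β : ℝ} {ν : Measure (Ez (D + 1) → G)} {sq : ℕ → ℕ}
    (hlim : ∀ F : (Ez (D + 1) → G) → ℝ, Continuous F →
      Tendsto (fun j => EX μ L β (fun U : Ed (D + 1) (2 * (sq j + 1)) → G => F (lf U))) atTop
        (𝓝 (∫ V, F V ∂ν))) (v : Fin (D + 1) → ℤ) :
    Tendsto (fun j => cvT μ (sq j + 1) L β O v) atTop (𝓝 (cvZ ν O v)) := by
  have h1 := hlim (fun V => O V * O (sh v V)) (hO.cont.mul (hO.cont.comp (sh_cont v)))
  have h2 := hlim O hO.cont
  refine (h1.sub (h2.pow 2)).congr fun j => ?_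
  unfold cvT
  simp only [Ot_zero]
  rfl

/-- **The covariance in the infinite volume.** -/
theorem corr_Z (hO : TZ O) {β : ℝ} (hβ : 0 ≤ β) {ν : Measure (Ez (D + 1) → G)}
    (hν : InfV μ L β ν) : Corr fun (t : ℕ) (x : Fin D → ℤ) => cvZ ν O (ptz x t) := by
  obtain ⟨sq, hsq, hlim⟩ := hν.lim
  have hl := cv_lim μ (L := L) hO hlim
  have hprob := hν.prob
  refine ⟨fun t x => ?_, fun s a => ?_, fun s a => ?_, ?_⟩
  · refine tendsto_nhds_unique (hl _) ((hl _).congr' ?_)
    filter_upwards [hsq.eventually_ge_atTop 1] with j hj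
    exact (cvT_even μ hO (by omega) β x t).symm
  · refine ge_of_tendsto (tendsto_finsetSum s fun p _ => tendsto_finsetSum s fun q _ =>
      (hl (ptz (p.2 - q.2) ((p.1 + q.1 : ℕ) : ℤ))).const_mul (a p * a q)) ?_
    filter_upwards [hsq.eventually_ge_atTop (s.sup (fun p => p.1) + 1)] with j hj
    refine cv_rp0 μ hO (by omega) β s a fun p hp => ?_
    have : p.1 ≤ s.sup fun p => p.1 := Finset.le_sup (f := fun p : ℕ × (Fin D → ℤ) => p.1) hp
    omega
  · refine ge_of_tendsto (tendsto_finsetSum s fun p _ => tendsto_finsetSum s fun q _ =>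
      (hl (ptz (p.2 - q.2) ((p.1 + q.1 + 1 : ℕ) : ℤ))).const_mul (a p * a q)) ?_
    filter_upwards [hsq.eventually_ge_atTop (s.sup (fun p => p.1) + 1)] with j hj
    refine cv_rp1 μ hO (by omega) hβ s a fun p hp => ?_
    have : p.1 ≤ s.sup fun p => p.1 := Finset.le_sup (f := fun p : ℕ × (Fin D → ℤ) => p.1) hp
    omega
  · obtain ⟨M, hM⟩ := (isCompact_univ (X := Ez (D + 1) → G)).exists_bound_of_continuousOn
      hO.cont.continuousOn
    have hM' : ∀ V, |O V| ≤ M := fun V => hM V (Set.mem_univ V)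
    have hM0 : 0 ≤ M := le_trans (abs_nonneg _) (hM' 1)
    refine ⟨M * M + M ^ 2, fun t x => ?_⟩
    have h1 : |∫ V, O V * O (sh (ptz x t) V) ∂ν| ≤ M * M := by
      have := norm_integral_le_of_norm_le_const (μ := ν) (C := M * M)
        (f := fun V => O V * O (sh (ptz x t) V))
        (Eventually.of_forall fun V => by
          rw [Real.norm_eq_abs, abs_mul]
          exact mul_le_mul (hM' _) (hM' _) (abs_nonneg _) hM0)
      simpa using this
    have h2 : |∫ V, O V ∂ν| ≤ M := by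
      have := norm_integral_le_of_norm_le_const (μ := ν) (C := M) (f := O)
        (Eventually.of_forall fun V => by rw [Real.norm_eq_abs]; exact hM' V)
      simpa using this
    unfold cvZ
    refine (abs_sub _ _).trans (add_le_add h1 ?_)
    rw [abs_pow]
    exact pow_le_pow_left₀ (abs_nonneg _) h2 2

end

end Pool.Agent.X134.SM
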