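import Pool.Agent.X134.SM.Green2
import Pool.Agent.X134.SM.Weak

/-!
# The two-particle measure
-/

set_option autoImplicit false
open Finset MeasureTheory Filter Topology
open scoped ENNReal NNReal
open Pool.Agent.W793.SCH (pk green)

namespace Pool.Agent.X134.SM

variable {D : ℕ}

/-! ### symmetry of the momentum space -/

lemma nu1_neg : MeasurePreserving (fun x : ℝ => -x) nu1 nu1 := by
  refine ⟨measurable_neg, ?_⟩
  unfold nu1
  rw [Measure.map_smul]
  congr 1
  have h1 : volume.restrict (Set.Ioc (-Real.pi) Real.pi) =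
      volume.restrict (Set.Ico (-Real.pi) Real.pi) := restrict_Ico_eq_restrict_Ioc.symm
  have h2 : (fun x : ℝ => -x) ⁻¹' (Set.Ioc (-Real.pi) Real.pi) = Set.Ico (-Real.pi) Real.pi := by
    ext x
    simp only [Set.mem_preimage, Set.mem_Ioc, Set.mem_Ico]
    constructor
    · rintro ⟨a, b⟩
      exact ⟨by linarith, by linarith⟩
    · rintro ⟨a, b⟩
      exact ⟨by linarith, by linarith⟩
  have h3 := (Measure.measurePreserving_neg (volume : Measure ℝ)).restrict_preimage
    (measurableSet_Ioc (a := -Real.pi) (b := Real.pi))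
  have h4 := h3.map_eq
  have h5 : (Neg.neg ⁻¹' (Set.Ioc (-Real.pi) Real.pi) : Set ℝ) = Set.Ico (-Real.pi) Real.pi := h2
  rw [h5] at h4
  calc Measure.map (fun x : ℝ => -x) (volume.restrict (Set.Ioc (-Real.pi) Real.pi)) =
      Measure.map (Neg.neg : ℝ → ℝ) (volume.restrict (Set.Ico (-Real.pi) Real.pi)) := by rw [h1]
    _ = _ := h4

lemma kap_neg (f : (Fin D → ℝ) → ℝ) : ∫ θ, f (-θ) ∂(kap D) = ∫ θ, f θ ∂(kap D) := by
  have h1 : MeasurePreserving (fun (θ : Fin D → ℝ) i => -θ i) (kap D) (kap D) :=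
    measurePreserving_pi _ _ fun _ => nu1_neg
  have h2 : MeasurableEmbedding (fun (θ : Fin D → ℝ) i => -θ i) :=
    (MeasurableEquiv.neg (Fin D → ℝ)).measurableEmbedding
  exact h1.integral_comp h2 f

/-! ### the current -/

section current

variable {ι κ : Type*} [Fintype ι] [Fintype κ] [DecidableEq κ] (σ : ι → ℝ) (b : ι → Fin D → ℤ)
  (δ : ι → κ)

/-- the Fourier transform of the current -/
noncomputable def cur (θ : Fin D → ℝ) (i : κ) : ℂ :=
  ∑ e, if δ e = i then (σ e : ℂ) * Complex.exp (Complex.I * (ph θ (b e) : ℝ)) else 0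

/-- its square -/
noncomputable def cur2 (θ : Fin D → ℝ) : ℝ := ∑ i, ‖cur σ b δ θ i‖ ^ 2

lemma cur_neg (θ : Fin D → ℝ) (i : κ) : cur σ b δ (-θ) i = star (cur σ b δ θ i) := by
  unfold cur
  rw [star_sum]
  refine sum_congr rfl fun e _ => ?_
  split_ifs
  · rw [star_mul']
    have h1 : ph (-θ) (b e) = -ph θ (b e) := by
      unfold ph
      rw [← sum_neg_distrib]
      exact sum_congr rfl fun j _ => by rw [Pi.neg_apply]; ring
    rw [h1]
    congr 1
    · exact (Complex.conj_ofReal _).symm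
    · show _ = (starRingEnd ℂ) (Complex.exp (Complex.I * (ph θ (b e) : ℝ)))
      rw [← Complex.exp_conj, map_mul, Complex.conj_I, Complex.conj_ofReal]
      push_cast
      congr 1
      ring
  · simp

lemma cur2_neg (θ : Fin D → ℝ) : cur2 σ b δ (-θ) = cur2 σ b δ θ := by
  unfold cur2
  refine sum_congr rfl fun i _ => ?_
  rw [cur_neg, norm_star]

lemma cur2_nonneg (θ : Fin D → ℝ) : 0 ≤ cur2 σ b δ θ := by
  unfold cur2
  positivity

lemma cur2_cont : Continuous (cur2 σ b δ) := by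
  unfold cur2 cur
  refine continuous_finsetSum _ fun i _ => (continuous_finsetSum _ fun e _ => ?_).norm.pow 2
  have := ph_cont (b e)
  split_ifs <;> fun_prop

lemma cur2_bd : ∃ M : ℝ, ∀ θ : Fin D → ℝ, cur2 σ b δ θ ≤ M := by
  refine ⟨∑ _i : κ, (∑ e, |σ e|) ^ 2, fun θ => ?_⟩
  unfold cur2
  refine sum_le_sum fun i _ => pow_le_pow_left₀ (norm_nonneg _) ?_ 2
  unfold cur
  refine (norm_sum_le _ _).trans (sum_le_sum fun e _ => ?_)
  split_ifs
  · rw [norm_mul, Complex.norm_real, Real.norm_eq_abs, mul_comm Complex.I,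
      Complex.norm_exp_ofReal_mul_I, mul_one]
  · rw [norm_zero]
    exact abs_nonneg _

/-- the double sum -/
lemma cur_sum (θ : Fin D → ℝ) (x : Fin D → ℤ) :
    ∑ e, ∑ e', (if δ e = δ e' then σ e * σ e' * Real.cos (ph θ (b e - b e' - x)) else 0) =
      Real.cos (ph θ x) * cur2 σ b δ θ := by
  have h1 : ∀ e e', (if δ e = δ e' then σ e * σ e' * Real.cos (ph θ (b e - b e' - x)) else 0) =
      Real.cos (ph θ x) * (if δ e = δ e' then σ e * σ e' * Real.cos (ph θ (b e) - ph θ (b e')) else 0) +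
      Real.sin (ph θ x) * (if δ e = δ e' then σ e * σ e' * Real.sin (ph θ (b e) - ph θ (b e')) else 0) := by
    intro e e'
    split_ifs
    · rw [ph_sub, ph_sub, Real.cos_sub]
      ring
    · ring
  simp only [h1, sum_add_distrib, ← mul_sum]
  have h2 : ∑ e, ∑ e', (if δ e = δ e' then σ e * σ e' * Real.sin (ph θ (b e) - ph θ (b e')) else 0) =
      0 := by
    have h3 : ∑ e, ∑ e', (if δ e = δ e' then σ e * σ e' * Real.sin (ph θ (b e) - ph θ (b e')) else 0) =
        ∑ e, ∑ e', (if δ e' = δ e then σ e' * σ e * Real.sin (ph θ (b e') - ph θ (b e)) else 0) :=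
      sum_comm
    have h4 : ∀ e e', (if δ e' = δ e then σ e' * σ e * Real.sin (ph θ (b e') - ph θ (b e)) else 0) =
        -(if δ e = δ e' then σ e * σ e' * Real.sin (ph θ (b e) - ph θ (b e')) else 0) := by
      intro e e'
      by_cases h : δ e = δ e'
      · rw [if_pos h, if_pos h.symm]
        have : ph θ (b e') - ph θ (b e) = -(ph θ (b e) - ph θ (b e')) := by ring
        rw [this, Real.sin_neg]
        ring
      · rw [if_neg h, if_neg (Ne.symm h), neg_zero]
    have h5 : ∑ e, ∑ e', (if δ e' = δ e then σ e' * σ e * Real.sin (ph θ (b e') - ph θ (b e)) else 0) =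
        -∑ e, ∑ e', (if δ e = δ e' then σ e * σ e' * Real.sin (ph θ (b e) - ph θ (b e')) else 0) := by
      rw [← sum_neg_distrib]
      refine sum_congr rfl fun e _ => ?_
      rw [← sum_neg_distrib]
      exact sum_congr rfl fun e' _ => h4 e e'
    linarith
  rw [h2, mul_zero, add_zero]
  congr 1
  unfold cur2
  have h5 : ∀ i : κ, ‖cur σ b δ θ i‖ ^ 2 = ∑ e, ∑ e', (if δ e = i then (if δ e' = i then
      σ e * σ e' * Real.cos (ph θ (b e) - ph θ (b e')) else 0) else 0) := by
    intro i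
    have h6 : ((‖cur σ b δ θ i‖ ^ 2 : ℝ) : ℂ) = cur σ b δ θ i * star (cur σ b δ θ i) := by
      have := Complex.mul_conj (cur σ b δ θ i)
      rw [Complex.normSq_eq_norm_sq] at this
      exact_mod_cast this.symm
    have h7 : (‖cur σ b δ θ i‖ ^ 2 : ℝ) = (cur σ b δ θ i * star (cur σ b δ θ i)).re := by
      rw [← h6, Complex.ofReal_re]
    rw [h7]
    unfold cur
    rw [star_sum, sum_mul_sum, Complex.re_sum]
    refine sum_congr rfl fun e _ => ?_
    rw [Complex.re_sum]
    refine sum_congr rfl fun e' _ => ?_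
    by_cases h8 : δ e = i
    · by_cases h9 : δ e' = i
      · rw [if_pos h8, if_pos h9, if_pos h8, if_pos h9]
        rw [star_mul']
        have h10 : star (Complex.exp (Complex.I * (ph θ (b e') : ℝ))) =
            Complex.exp (Complex.I * ((-ph θ (b e') : ℝ) : ℂ)) := by
          show (starRingEnd ℂ) (Complex.exp (Complex.I * (ph θ (b e') : ℝ))) = _
          rw [← Complex.exp_conj, map_mul, Complex.conj_I, Complex.conj_ofReal]
          push_cast
          congr 1
          ring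
        have h11 : star ((σ e' : ℝ) : ℂ) = ((σ e' : ℝ) : ℂ) := Complex.conj_ofReal _
        rw [h10, h11]
        have h12 : (σ e : ℂ) * Complex.exp (Complex.I * (ph θ (b e) : ℝ)) *
            ((σ e' : ℂ) * Complex.exp (Complex.I * ((-ph θ (b e') : ℝ) : ℂ))) =
            ((σ e * σ e' : ℝ) : ℂ) *
              Complex.exp (((ph θ (b e) - ph θ (b e') : ℝ) : ℂ) * Complex.I) := by
          have : Complex.exp (((ph θ (b e) - ph θ (b e') : ℝ) : ℂ) * Complex.I) =
              Complex.exp (Complex.I * (ph θ (b e) : ℝ)) *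
                Complex.exp (Complex.I * ((-ph θ (b e') : ℝ) : ℂ)) := by
            rw [← Complex.exp_add]
            push_cast
            congr 1
            ring
          rw [this]
          push_cast
          ring
        rw [h12, Complex.re_ofReal_mul, Complex.exp_ofReal_mul_I_re]
      · rw [if_pos h8, if_neg h9, if_pos h8, if_neg h9, star_zero, mul_zero, Complex.zero_re]
    · rw [if_neg h8, if_neg h8, zero_mul, Complex.zero_re]
  simp only [h5]
  conv_rhs => rw [sum_comm]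
  refine sum_congr rfl fun e _ => ?_
  conv_rhs => rw [sum_comm]
  refine sum_congr rfl fun e' _ => ?_
  rw [Finset.sum_ite_eq Finset.univ (δ e)]
  simp only [mem_univ, if_true]
  by_cases h : δ e = δ e'
  · rw [if_pos h, if_pos h.symm]
  · rw [if_neg h, if_neg (Ne.symm h)]

/-- the weight -/
noncomputable def wgt (θ : Fin D → ℝ) : ℝ := cur2 σ b δ θ / (2 * Real.sinh (om 1 θ))

lemma wgt_nonneg (θ : Fin D → ℝ) : 0 ≤ wgt σ b δ θ := by
  unfold wgt
  have := sinh_nonneg' (D := D) one_pos le_rfl θ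
  have := cur2_nonneg σ b δ θ
  positivity

lemma wgt_meas : Measurable (wgt σ b δ) := by
  have h1 := (om_cont (D := D) one_pos le_rfl).measurable
  unfold wgt
  exact (cur2_cont σ b δ).measurable.div ((Real.measurable_sinh.comp h1).const_mul 2)

lemma om_neg (θ : Fin D → ℝ) : om 1 (-θ) = om 1 θ := by
  unfold om cs
  simp

lemma wgt_neg (θ : Fin D → ℝ) : wgt σ b δ (-θ) = wgt σ b δ θ := by
  unfold wgt
  rw [cur2_neg, om_neg]

lemma wgt_int (hD : 2 ≤ D) : Integrable (wgt σ b δ) (kap D) := by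
  obtain ⟨M, hM⟩ := cur2_bd (D := D) σ b δ
  refine ((inv_sinh_int hD).const_mul M).mono' (wgt_meas σ b δ).aestronglyMeasurable
    (Eventually.of_forall fun θ => ?_)
  rw [Real.norm_eq_abs, abs_of_nonneg (wgt_nonneg σ b δ θ)]
  unfold wgt
  rw [div_eq_mul_one_div]
  refine mul_le_mul_of_nonneg_right (hM θ) ?_
  have := sinh_nonneg' (D := D) one_pos le_rfl θ
  positivity

/-- the one-particle function -/
noncomputable def KF (t : ℕ) (x : Fin D → ℤ) : ℝ :=
  ∫ θ, Real.cos (ph θ x) * (Real.exp (-(om 1 θ * t)) * wgt σ b δ θ) ∂(kap D)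

/-- the double sum of the Green function -/
theorem KF_eq (hD : 2 ≤ D) (t : ℕ) (x : Fin D → ℤ) (g : ι → ι → Fin (D + 1) → ℤ)
    (hg : ∀ e e', spc (g e e') = b e - b e' - x) (hg' : ∀ e e', g e e' (Fin.last D) = -(t : ℤ)) :
    ∑ e, ∑ e', (if δ e = δ e' then σ e * σ e' * green (D + 1) (g e e') else 0) = KF σ b δ t x := by
  have h1 : ∀ e e', (if δ e = δ e' then σ e * σ e' * green (D + 1) (g e e') else 0) =
      ∫ θ, (if δ e = δ e' then σ e * σ e' * ig 1 (b e - b e' - x) (-(t : ℤ)) θ else 0) ∂(kap D) := by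
    intro e e'
    split_ifs
    · rw [green_eq hD, hg, hg', integral_const_mul]
    · simp
  have hi : ∀ e e', Integrable (fun θ => if δ e = δ e' then σ e * σ e' *
      ig 1 (b e - b e' - x) (-(t : ℤ)) θ else 0) (kap D) := by
    intro e e'
    split_ifs
    · exact (ig_one_int hD _ _).const_mul _
    · exact integrable_const _
  simp only [h1]
  have h2 : ∀ e, ∑ e', ∫ θ, (if δ e = δ e' then σ e * σ e' *
      ig 1 (b e - b e' - x) (-(t : ℤ)) θ else 0) ∂(kap D) =
      ∫ θ, ∑ e', (if δ e = δ e' then σ e * σ e' * ig 1 (b e - b e' - x) (-(t : ℤ)) θ else 0)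
        ∂(kap D) := fun e => (integral_finsetSum _ fun e' _ => hi e e').symm
  simp only [h2]
  rw [← integral_finsetSum _ fun e _ => integrable_finsetSum _ fun e' _ => hi e e']
  unfold KF
  refine integral_congr_ae (Eventually.of_forall fun θ => ?_)
  show ∑ e, ∑ e', (if δ e = δ e' then σ e * σ e' * ig 1 (b e - b e' - x) (-(t : ℤ)) θ else 0) = _
  have h3 : ∀ e e', (if δ e = δ e' then σ e * σ e' * ig 1 (b e - b e' - x) (-(t : ℤ)) θ else 0) =
      (if δ e = δ e' then σ e * σ e' * Real.cos (ph θ (b e - b e' - x)) else 0) *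
        (Real.exp (-(om 1 θ * t)) / (2 * Real.sinh (om 1 θ))) := by
    intro e e'
    have h4 : |((-(t : ℤ) : ℤ) : ℝ)| = t := by
      push_cast
      rw [abs_neg, abs_of_nonneg (Nat.cast_nonneg t)]
    split_ifs
    · unfold ig
      rw [h4]
      ring
    · ring
  simp only [h3, ← sum_mul]
  rw [cur_sum]
  unfold wgt
  ring

/-! ### the two-particle measure -/

/-- the map to the pairs (eigenvalue of the transfer matrix, momentum) -/
noncomputable def Psi (p : (Fin D → ℝ) × (Fin D → ℝ)) : ℝ × (Fin D → ℂ) :=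
  (Real.exp (-(om 1 p.1 + om 1 p.2)), fun i => Complex.exp (Complex.I * ((p.1 i + p.2 i : ℝ) : ℂ)))

lemma Psi_cont : Continuous (Psi (D := D)) := by
  have := om_cont (D := D) one_pos le_rfl
  unfold Psi
  fun_prop

lemma Psi_mem (p : (Fin D → ℝ) × (Fin D → ℝ)) : Psi p ∈ KK D := by
  refine ⟨⟨(Real.exp_pos _).le, ?_⟩, fun i => ?_⟩
  · show Real.exp _ ≤ 1
    rw [Real.exp_le_one_iff]
    have h1 := om_nonneg (D := D) one_pos le_rfl p.1
    have h2 := om_nonneg (D := D) one_pos le_rfl p.2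
    linarith
  · show ‖Complex.exp (Complex.I * ((p.1 i + p.2 i : ℝ) : ℂ))‖ = 1
    rw [mul_comm, Complex.norm_exp_ofReal_mul_I]

lemma mn_Psi (t : ℕ) (x : Fin D → ℤ) (p : (Fin D → ℝ) × (Fin D → ℝ)) : mn t x (Psi p) =
    (((Real.exp (-(om 1 p.1 * t)) : ℝ) : ℂ) * Complex.exp (Complex.I * (ph p.1 x : ℝ))) *
      (((Real.exp (-(om 1 p.2 * t)) : ℝ) : ℂ) * Complex.exp (Complex.I * (ph p.2 x : ℝ))) := by
  unfold mn Psi
  have h1 : ((Real.exp (-(om 1 p.1 + om 1 p.2)) : ℝ) : ℂ) ^ t =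
      ((Real.exp (-(om 1 p.1 * t)) : ℝ) : ℂ) * ((Real.exp (-(om 1 p.2 * t)) : ℝ) : ℂ) := by
    rw [← Complex.ofReal_pow, ← Complex.ofReal_mul, ← Real.exp_nat_mul, ← Real.exp_add]
    congr 2
    ring
  have h2 : ∏ i, (Complex.exp (Complex.I * ((p.1 i + p.2 i : ℝ) : ℂ))) ^ x i =
      Complex.exp (Complex.I * (ph p.1 x : ℝ)) * Complex.exp (Complex.I * (ph p.2 x : ℝ)) := by
    rw [← Complex.exp_add]
    unfold ph
    push_cast
    rw [← mul_add, ← sum_add_distrib, mul_sum, Complex.exp_sum]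
    refine prod_congr rfl fun i _ => ?_
    rw [← Complex.exp_int_mul]
    congr 1
    ring
  show ((Real.exp (-(om 1 p.1 + om 1 p.2)) : ℝ) : ℂ) ^ t *
    ∏ i, (Complex.exp (Complex.I * ((p.1 i + p.2 i : ℝ) : ℂ))) ^ x i = _
  rw [h1, h2]
  ring

/-- the two-particle measure -/
noncomputable def rinf (a : ℝ) : Measure (ℝ × (Fin D → ℂ)) :=
  ((((kap D).prod (kap D)).withDensity fun p =>
    ENNReal.ofReal (a * (wgt σ b δ p.1 * wgt σ b δ p.2)))).map Psi

lemma dens2_int (hD : 2 ≤ D) (a : ℝ) : Integrable (fun p : (Fin D → ℝ) × (Fin D → ℝ) =>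
    a * (wgt σ b δ p.1 * wgt σ b δ p.2)) ((kap D).prod (kap D)) :=
  ((wgt_int σ b δ hD).mul_prod (wgt_int σ b δ hD)).const_mul a

lemma dens2_meas (a : ℝ) : Measurable (fun p : (Fin D → ℝ) × (Fin D → ℝ) =>
    a * (wgt σ b δ p.1 * wgt σ b δ p.2)) :=
  (((wgt_meas σ b δ).comp measurable_fst).mul ((wgt_meas σ b δ).comp measurable_snd)).const_mul a

lemma rinf_fin (hD : 2 ≤ D) (a : ℝ) : IsFiniteMeasure (rinf σ b δ a) := by
  have := isFiniteMeasure_withDensity_ofReal (dens2_int σ b δ hD a).2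
  unfold rinf
  infer_instance

lemma rinf_supp (a : ℝ) : rinf σ b δ a (KK D)ᶜ = 0 := by
  unfold rinf
  rw [Measure.map_apply Psi_cont.measurable KK_compact.isClosed.measurableSet.compl]
  have : Psi ⁻¹' (KK D)ᶜ = (∅ : Set ((Fin D → ℝ) × (Fin D → ℝ))) := by
    ext p
    simp only [Set.mem_preimage, Set.mem_compl_iff, Set.mem_empty_iff_false, iff_false, not_not]
    exact Psi_mem p
  rw [this, measure_empty]

lemma KF_complex (hD : 2 ≤ D) (t : ℕ) (x : Fin D → ℤ) :
    ∫ θ, ((wgt σ b δ θ : ℝ) : ℂ) * (((Real.exp (-(om 1 θ * t)) : ℝ) : ℂ) *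
      Complex.exp (Complex.I * (ph θ x : ℝ))) ∂(kap D) = (KF σ b δ t x : ℂ) := by
  have hp := ph_cont x
  have ho := om_cont (D := D) one_pos le_rfl
  have hi : Integrable (fun θ : Fin D → ℝ => ((wgt σ b δ θ : ℝ) : ℂ) *
      (((Real.exp (-(om 1 θ * t)) : ℝ) : ℂ) * Complex.exp (Complex.I * (ph θ x : ℝ)))) (kap D) := by
    refine Integrable.mono' (wgt_int σ b δ hD) ?_ (Eventually.of_forall fun θ => ?_)
    · refine AEStronglyMeasurable.mul ?_ (Continuous.aestronglyMeasurable (by fun_prop))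
      exact (Complex.measurable_ofReal.comp (wgt_meas σ b δ)).aestronglyMeasurable
    · rw [norm_mul, norm_mul, Complex.norm_real, Complex.norm_real, Real.norm_eq_abs,
        Real.norm_eq_abs, abs_of_nonneg (wgt_nonneg σ b δ θ), Real.abs_exp, mul_comm Complex.I,
        Complex.norm_exp_ofReal_mul_I, mul_one]
      refine mul_le_of_le_one_right (wgt_nonneg σ b δ θ) ?_
      rw [Real.exp_le_one_iff]
      have := mul_nonneg (om_nonneg one_pos le_rfl θ) (Nat.cast_nonneg (α := ℝ) t)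
      linarith
  have hval : ∀ θ : Fin D → ℝ, ((wgt σ b δ θ : ℝ) : ℂ) * (((Real.exp (-(om 1 θ * t)) : ℝ) : ℂ) *
      Complex.exp (Complex.I * (ph θ x : ℝ))) = ((wgt σ b δ θ * Real.exp (-(om 1 θ * t)) : ℝ) : ℂ) *
        Complex.exp ((ph θ x : ℝ) * Complex.I) := by
    intro θ
    rw [mul_comm Complex.I]
    push_cast
    ring
  apply Complex.ext
  · rw [re_int hi, Complex.ofReal_re]
    unfold KF
    refine integral_congr_ae (Eventually.of_forall fun θ => ?_)
    show (_ : ℂ).re = _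
    rw [hval, Complex.re_ofReal_mul, Complex.exp_ofReal_mul_I_re]
    ring
  · rw [im_int hi, Complex.ofReal_im]
    have h1 : ∀ θ : Fin D → ℝ, (((wgt σ b δ θ : ℝ) : ℂ) * (((Real.exp (-(om 1 θ * t)) : ℝ) : ℂ) *
        Complex.exp (Complex.I * (ph θ x : ℝ)))).im =
        wgt σ b δ θ * Real.exp (-(om 1 θ * t)) * Real.sin (ph θ x) := by
      intro θ
      rw [hval, Complex.im_ofReal_mul, Complex.exp_ofReal_mul_I_im]
    simp only [h1]
    have h2 := kap_neg (D := D) fun θ => wgt σ b δ θ * Real.exp (-(om 1 θ * t)) * Real.sin (ph θ x)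
    have h3 : ∀ θ : Fin D → ℝ, wgt σ b δ (-θ) * Real.exp (-(om 1 (-θ) * t)) * Real.sin (ph (-θ) x) =
        -(wgt σ b δ θ * Real.exp (-(om 1 θ * t)) * Real.sin (ph θ x)) := by
      intro θ
      have h4 : ph (-θ) x = -ph θ x := by
        unfold ph
        rw [← sum_neg_distrib]
        exact sum_congr rfl fun j _ => by rw [Pi.neg_apply]; ring
      rw [wgt_neg, om_neg, h4, Real.sin_neg]
      ring
    simp only [h3] at h2
    rw [integral_neg] at h2
    linarith

/-- **The moments of the two-particle measure.** -/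
theorem rinf_mom (hD : 2 ≤ D) {a : ℝ} (ha : 0 ≤ a) (t : ℕ) (x : Fin D → ℤ) :
    mom (rinf σ b δ a) (t, x) = ((a * KF σ b δ t x ^ 2 : ℝ) : ℂ) := by
  unfold mom rinf
  rw [integral_map Psi_cont.aemeasurable (mn_meas t x).aestronglyMeasurable,
    integral_withDensity_eq_integral_toReal_smul (dens2_meas σ b δ a).ennreal_ofReal
      (Eventually.of_forall fun p => ENNReal.ofReal_lt_top)]
  have h1 : ∀ p : (Fin D → ℝ) × (Fin D → ℝ),
      (ENNReal.ofReal (a * (wgt σ b δ p.1 * wgt σ b δ p.2))).toReal • mn t x (Psi p) =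
      (a : ℂ) * ((((wgt σ b δ p.1 : ℝ) : ℂ) * (((Real.exp (-(om 1 p.1 * t)) : ℝ) : ℂ) *
        Complex.exp (Complex.I * (ph p.1 x : ℝ)))) *
        (((wgt σ b δ p.2 : ℝ) : ℂ) * (((Real.exp (-(om 1 p.2 * t)) : ℝ) : ℂ) *
        Complex.exp (Complex.I * (ph p.2 x : ℝ))))) := by
    intro p
    rw [ENNReal.toReal_ofReal (mul_nonneg ha (mul_nonneg (wgt_nonneg _ _ _ _) (wgt_nonneg _ _ _ _))),
      mn_Psi, Complex.real_smul]
    push_cast
    ring
  simp only [h1]
  rw [integral_const_mul, integral_prod_mul (μ := kap D) (ν := kap D) (fun θ : Fin D → ℝ =>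
    ((wgt σ b δ θ : ℝ) : ℂ) * (((Real.exp (-(om 1 θ * t)) : ℝ) : ℂ) *
      Complex.exp (Complex.I * (ph θ x : ℝ)))) (fun θ : Fin D → ℝ =>
    ((wgt σ b δ θ : ℝ) : ℂ) * (((Real.exp (-(om 1 θ * t)) : ℝ) : ℂ) *
      Complex.exp (Complex.I * (ph θ x : ℝ)))), KF_complex σ b δ hD]
  push_cast
  ring

end current

end Pool.Agent.X134.SM
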