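import Pool.Agent.Results.MP_7f377f_mp.WilsonLoopsWeakCoupling
import Pool.Agent.X134.SM.RPZ
import Pool.Agent.X134.SM.TwoG

/-!
# The Wilson loops at time zero
-/

open MeasureTheory Matrix Filter
open scoped Matrix.Norms.Frobenius ContDiff Topology
open Pool.Agent.H906R3.YM (LD)
open Pool.Agent.W793.YM (Ez lf gz EX)
open Pool.Agent.Results.MP_7f377f_mp.WilsonLoopsWeakCoupling

namespace Pool.Agent.X134.SM

set_option linter.unusedSectionVars false
set_option linter.unusedVariables false

noncomputable section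

section paths

variable {d : ℕ}

lemma dest_add (p : List (Fin d × Bool)) (x v : Fin d → ℤ) : dest (x + v) p = dest x p + v := by
  induction p generalizing x with
  | nil => rfl
  | cons s p ih =>
    obtain ⟨i, s⟩ := s
    cases s with
    | true =>
      simp only [dest]
      rw [add_right_comm, ih]
    | false =>
      simp only [dest]
      rw [add_sub_right_comm, ih]

lemma links_add (p : List (Fin d × Bool)) (x v : Fin d → ℤ) : links (x + v) p =
    (links x p).map fun e => ((e.1.1 + v, e.1.2), e.2) := by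
  induction p generalizing x with
  | nil => rfl
  | cons s p ih =>
    obtain ⟨i, s⟩ := s
    cases s with
    | true =>
      simp only [links, List.map_cons]
      rw [add_right_comm, ih]
    | false =>
      simp only [links, List.map_cons]
      rw [add_sub_right_comm, ih]

/-- the translated loop -/
def shl (v : Fin d → ℤ) (γ : Loop d) : Loop d :=
  ⟨γ.base + v, γ.steps, by rw [dest_add, γ.closed]⟩

end paths

variable {D : ℕ}

/-- the loops in the hyperplane of time zero -/
structure Flat (γ : Loop (D + 1)) : Prop where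
  base : γ.base (Fin.last D) = 0
  steps : ∀ s ∈ γ.steps, s.1 ≠ Fin.last D

section hol

variable {N n : ℕ} {G : Subgroup (UU N)}

lemma hol_sh (V : LinkZ (D + 1) → G) (p : List (Fin (D + 1) × Bool)) (x v : Fin (D + 1) → ℤ) :
    hol V (x + v) p = hol (sh v V) x p := by
  induction p generalizing x with
  | nil => rfl
  | cons s p ih =>
    obtain ⟨i, s⟩ := s
    cases s with
    | true =>
      simp only [hol]
      rw [add_right_comm, ih]
      rfl
    | false =>
      simp only [hol]
      rw [add_sub_right_comm, ih]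
      rfl

lemma hol_gz (g : (Fin (D + 1) → ℤ) → G) (V : LinkZ (D + 1) → G) (p : List (Fin (D + 1) × Bool))
    (x : Fin (D + 1) → ℤ) : hol (gz g V) x p = g x * hol V x p * (g (dest x p))⁻¹ := by
  induction p generalizing x with
  | nil => simp [hol, dest]
  | cons s p ih =>
    obtain ⟨i, s⟩ := s
    cases s with
    | true =>
      simp only [hol, dest]
      rw [ih]
      unfold gz
      simp only
      group
    | false =>
      simp only [hol, dest]
      rw [ih]
      unfold gz
      simp only [sub_add_cancel]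
      group

lemma hol_dep {V V' : LinkZ (D + 1) → G}
    (h : ∀ e : LinkZ (D + 1), e.1 (Fin.last D) = 0 → e.2 ≠ Fin.last D → V e = V' e)
    (p : List (Fin (D + 1) × Bool)) (hp : ∀ s ∈ p, s.1 ≠ Fin.last D)
    (x : Fin (D + 1) → ℤ) (hx : x (Fin.last D) = 0) : hol V x p = hol V' x p := by
  induction p generalizing x with
  | nil => rfl
  | cons s p ih =>
    obtain ⟨i, s⟩ := s
    have hi : i ≠ Fin.last D := hp (i, s) List.mem_cons_self
    have hp' : ∀ s ∈ p, s.1 ≠ Fin.last D := fun s hs => hp s (List.mem_cons_of_mem _ hs)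
    have h1 : (Pi.single i 1 : Fin (D + 1) → ℤ) (Fin.last D) = 0 := Pi.single_eq_of_ne (Ne.symm hi) _
    cases s with
    | true =>
      simp only [hol]
      rw [h (x, i) hx hi, ih hp' _ (by rw [Pi.add_apply, hx, h1, add_zero])]
    | false =>
      simp only [hol]
      have h2 : (x - Pi.single i 1 : Fin (D + 1) → ℤ) (Fin.last D) = 0 := by
        rw [Pi.sub_apply, hx, h1, sub_zero]
      rw [h (x - Pi.single i 1, i) h2 hi, ih hp' _ h2]

lemma wilson_sh (γ : Loop (D + 1)) (v : Fin (D + 1) → ℤ) (V : LinkZ (D + 1) → G) :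
    wilson (shl v γ) V = wilson γ (sh v V) := by
  unfold wilson shl
  simp only
  rw [hol_sh]

lemma mt_mul (g h : G) : mt (g * h) = mt g * mt h := rfl

lemma mt_one : mt (1 : G) = 1 := rfl

lemma wilson_gz (γ : Loop (D + 1)) (g : (Fin (D + 1) → ℤ) → G) (V : LinkZ (D + 1) → G) :
    wilson γ (gz g V) = wilson γ V := by
  unfold wilson
  rw [hol_gz, γ.closed, mt_mul, mt_mul, trace_mul_comm, ← mul_assoc, ← mt_mul, inv_mul_cancel,
    mt_one, one_mul]

lemma loopVar_sh (β : ℝ) (γ : Loop (D + 1)) (v : Fin (D + 1) → ℤ) (V : LinkZ (D + 1) → G)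
    (h : inter (shl v γ) (shl v γ) = inter γ γ) :
    loopVar n β (shl v γ) V = loopVar n β γ (sh v V) := by
  unfold loopVar
  rw [wilson_sh, h]

variable [CompactSpace G] [SecondCountableTopology G]

lemma wilson_TZ {γ : Loop (D + 1)} (hγ : Flat γ) : TZ (wilson γ : (LinkZ (D + 1) → G) → ℝ) := by
  refine ⟨wilson_cont γ, fun g V => wilson_gz γ g V, fun V V' h => ?_⟩
  unfold wilson
  rw [hol_dep h γ.steps hγ.steps γ.base hγ.base]

lemma loopVar_TZ (β : ℝ) {γ : Loop (D + 1)} (hγ : Flat γ) :
    TZ (loopVar n β γ : (LinkZ (D + 1) → G) → ℝ) := by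
  have h := wilson_TZ (G := G) hγ
  refine ⟨(continuous_const.mul (continuous_const.sub h.cont)).sub continuous_const,
    fun g V => ?_, fun V V' hV => ?_⟩
  · unfold loopVar
    rw [h.inv]
  · unfold loopVar
    rw [h.tz V V' hV]

lemma prod_TZ {ι : Type*} (s : Finset ι) {O : ι → (LinkZ (D + 1) → G) → ℝ}
    (h : ∀ i, TZ (O i)) : TZ fun V => ∏ i ∈ s, O i V := by
  refine ⟨continuous_finsetProd _ fun i _ => (h i).cont, fun g V => ?_, fun V V' hV => ?_⟩
  · exact Finset.prod_congr rfl fun i _ => (h i).inv g V
  · exact Finset.prod_congr rfl fun i _ => (h i).tz V V' hV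

end hol

lemma inter_sh (γ γ' : Loop (D + 1)) (v w : Fin (D + 1) → ℤ) : inter (shl v γ) (shl w γ') =
    ((links γ.base γ.steps).map fun e => ((links γ'.base γ'.steps).map fun e' =>
      if e.1.2 = e'.1.2 then (if e.2 then 1 else -1) * (if e'.2 then 1 else -1) *
        green (D + 1) (e.1.1 - e'.1.1 + (v - w)) else 0).sum).sum := by
  unfold inter shl
  simp only [links_add, List.map_map, Function.comp_def]
  congr 1
  refine List.map_congr_left fun e _ => ?_
  congr 1
  refine List.map_congr_left fun e' _ => ?_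
  have h : e.1.1 + v - (e'.1.1 + w) = e.1.1 - e'.1.1 + (v - w) := by abel
  rw [h]

lemma inter_shift (γ γ' : Loop (D + 1)) (v : Fin (D + 1) → ℤ) :
    inter (shl v γ) (shl v γ') = inter γ γ' := by
  rw [inter_sh]
  simp only [sub_self, add_zero]
  rfl

end

end Pool.Agent.X134.SM
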