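import Mathlib
import Pool.Agent.TH618.YM.SiteRP
import Pool.Agent.W793.YM.Inf

/-!
# Reflection positivity of the torus for observables at time zero
-/

open MeasureTheory Matrix Filter
open scoped Matrix.Norms.Frobenius ContDiff Topology
open Pool.Agent.H906R3.YM hiding Pl
open Pool.Agent.W793.YM
open Pool.Agent.TH618.YM

namespace Pool.Agent.X134.SM

set_option linter.unusedSectionVars false
set_option linter.unusedVariables false

noncomputable section

section obs

variable {D : ℕ} {G : Type*} [Group G]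

/-- translation of the configurations -/
def sh (v : Fin (D + 1) → ℤ) (V : Ez (D + 1) → G) : Ez (D + 1) → G := fun e => V (e.1 + v, e.2)

/-- the point with space part `x` and time `t` -/
def ptz (x : Fin D → ℤ) (t : ℤ) : Fin (D + 1) → ℤ := Fin.snoc x t

@[simp] lemma ptz_last (x : Fin D → ℤ) (t : ℤ) : ptz x t (Fin.last D) = t := by simp [ptz]

@[simp] lemma ptz_cast (x : Fin D → ℤ) (t : ℤ) (j : Fin D) : ptz x t j.castSucc = x j := by simp [ptz]

lemma ptz_add (x y : Fin D → ℤ) (s t : ℤ) : ptz x s + ptz y t = ptz (x + y) (s + t) := by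
  funext i
  refine Fin.lastCases ?_ (fun j => ?_) i
  · simp
  · simp

lemma ptz_zero : ptz (0 : Fin D → ℤ) 0 = 0 := by
  funext i
  refine Fin.lastCases ?_ (fun j => ?_) i
  · simp
  · simp

/-- gauge invariant continuous observables at time zero -/
structure TZ [TopologicalSpace G] (O : (Ez (D + 1) → G) → ℝ) : Prop where
  cont : Continuous O
  inv : ∀ γ V, O (gz γ V) = O V
  tz : ∀ V V', (∀ e : Ez (D + 1), e.1 (Fin.last D) = 0 → e.2 ≠ Fin.last D → V e = V' e) → O V = O V'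

variable {m : ℕ} [NeZero m] [TopologicalSpace G] {O : (Ez (D + 1) → G) → ℝ}

/-- the translated observable on the torus -/
def Ot (O : (Ez (D + 1) → G) → ℝ) (v : Fin (D + 1) → ℤ) (U : Ed (D + 1) (2 * m) → G) : ℝ :=
  O (sh v (lf U))

/-- the reduction of a point -/
def cz (m : ℕ) (v : Fin (D + 1) → ℤ) : Fin (D + 1) → ZMod (2 * m) := fun i => (v i : ZMod (2 * m))

lemma lf_tr (v : Fin (D + 1) → ℤ) (U : Ed (D + 1) (2 * m) → G) : lf (tr (cz m v) U) = sh v (lf U) := by
  funext e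
  unfold lf tr sh cz
  simp only
  congr 1
  refine Prod.ext ?_ rfl
  funext i
  simp

lemma sh_sh (u v : Fin (D + 1) → ℤ) (V : Ez (D + 1) → G) : sh u (sh v V) = sh (u + v) V := by
  funext e
  unfold sh
  simp only
  rw [add_assoc]

lemma Ot_tr (u v : Fin (D + 1) → ℤ) (U : Ed (D + 1) (2 * m) → G) :
    Ot O u (tr (cz m v) U) = Ot O (u + v) U := by
  unfold Ot
  rw [lf_tr, sh_sh]

lemma sh_gz (v : Fin (D + 1) → ℤ) (γ : (Fin (D + 1) → ℤ) → G) (V : Ez (D + 1) → G) :
    sh v (gz γ V) = gz (fun x => γ (x + v)) (sh v V) := by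
  funext e
  unfold sh gz
  simp only
  rw [add_right_comm]

lemma lf_gt (γ : (Fin (D + 1) → ZMod (2 * m)) → G) (U : Ed (D + 1) (2 * m) → G) :
    lf (gt γ U) = gz (fun x => γ (cz m x)) (lf U) := by
  funext e
  unfold lf gt gz cz
  simp only
  congr 3
  funext i
  simp only [eT, Pi.add_apply]
  push_cast
  congr 1
  by_cases h : i = e.2
  · rw [h]; simp
  · simp [Pi.single_eq_of_ne h]

lemma Ot_GI (hO : TZ O) (v : Fin (D + 1) → ℤ) : GI (Ot (m := m) O v) := by
  intro γ U
  unfold Ot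
  rw [lf_gt, sh_gz, hO.inv]

lemma sh_cont (v : Fin (D + 1) → ℤ) : Continuous (sh (G := G) v) :=
  continuous_pi fun e => continuous_apply _

lemma lf_cont' : Continuous (lf : (Ed (D + 1) (2 * m) → G) → Ez (D + 1) → G) :=
  continuous_pi fun e => continuous_apply _

lemma Ot_cont (hO : TZ O) (v : Fin (D + 1) → ℤ) : Continuous (Ot (m := m) O v) :=
  hO.cont.comp ((sh_cont v).comp lf_cont')

/-- the dependence on the links -/
lemma Ot_dep (hO : TZ O) (v : Fin (D + 1) → ℤ) {U U' : Ed (D + 1) (2 * m) → G}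
    (h : ∀ e : Ed (D + 1) (2 * m), e.1 (Fin.last D) = (v (Fin.last D) : ZMod (2 * m)) →
      e.2 ≠ Fin.last D → U e = U' e) : Ot O v U = Ot O v U' := by
  unfold Ot
  refine hO.tz _ _ fun e he1 he2 => ?_
  unfold sh lf
  refine h _ ?_ he2
  simp only [Pi.add_apply, he1, zero_add]

lemma Ot_SR (hO : TZ O) (hm : 2 ≤ m) (x : Fin D → ℤ) (s : ℤ) (U : Ed (D + 1) (2 * m) → G) :
    Ot O (ptz x s) ((SR hm (Fin.last D)).tU U) = Ot O (ptz x (-s)) U := by
  unfold Ot
  refine hO.tz _ _ fun e he1 he2 => ?_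
  unfold sh lf
  rw [sU_ne _ _ he2]
  congr 1
  refine Prod.ext ?_ rfl
  funext i
  refine Fin.lastCases ?_ (fun j => ?_) i
  · simp only [rB, Function.update_self]
    simp only [Pi.add_apply, he1, ptz_last, zero_add]
    push_cast
    ring
  · simp only [rB]
    rw [Function.update_of_ne (Fin.castSucc_lt_last j).ne]
    simp only [Pi.add_apply, ptz_cast]

lemma Ot_TR (hO : TZ O) (hm : 2 ≤ m) (x : Fin D → ℤ) (s : ℤ) (U : Ed (D + 1) (2 * m) → G) :
    Ot O (ptz x s) ((TR hm (Fin.last D)).tU U) = Ot O (ptz x (1 - s)) U := by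
  unfold Ot
  refine hO.tz _ _ fun e he1 he2 => ?_
  unfold sh lf
  rw [tU_ne _ _ he2]
  congr 1
  refine Prod.ext ?_ rfl
  funext i
  refine Fin.lastCases ?_ (fun j => ?_) i
  · simp only [rA, Function.update_self]
    simp only [Pi.add_apply, he1, ptz_last, zero_add]
    push_cast
    ring
  · simp only [rA]
    rw [Function.update_of_ne (Fin.castSucc_lt_last j).ne]
    simp only [Pi.add_apply, ptz_cast]

end obs

section rp

variable {D : ℕ} {m : ℕ} [NeZero m] {G : Type*} [Group G] [TopologicalSpace G]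
  [IsTopologicalGroup G] [CompactSpace G] [SecondCountableTopology G] [MeasurableSpace G]
  [BorelSpace G] (μ : Measure G) [IsProbabilityMeasure μ] [μ.IsMulLeftInvariant]
  [μ.IsMulRightInvariant] [μ.IsInvInvariant] {N n : ℕ} {L : LD G N n}
  {O : (Ez (D + 1) → G) → ℝ}

/-- site reflection positivity -/
lemma rp_S (hm : 2 ≤ m) (β : ℝ) {f : (Ed (D + 1) (2 * m) → G) → ℝ} (hf : Continuous f)
    (hd : Dep (HQ (Fin.last D)) f) :
    0 ≤ Zt μ L β (fun U => f U * f ((SR hm (Fin.last D)).tU U)) := by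
  have hc : Continuous fun U : Ed (D + 1) (2 * m) → G =>
      f U * Real.exp (-(β * sS L (Fin.last D) U)) :=
    hf.mul (Real.continuous_exp.comp (continuous_const.mul (sS_cont _)).neg)
  have hdd : Dep (HQ (Fin.last D)) fun U : Ed (D + 1) (2 * m) → G =>
      f U * Real.exp (-(β * sS L (Fin.last D) U)) := by
    intro U U' h
    show f U * _ = f U' * _
    rw [hd U U' h, sS_dep (L := L) hm U U' h]
  have h1 := SB_self μ (SR hm (Fin.last D)) (PP (Fin.last D)) PP_fix PP_th hc (Dep_HQ hm hdd)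
  refine h1.trans_eq ?_
  unfold SB Zt
  refine integral_congr_ae (Filter.Eventually.of_forall fun U => ?_)
  simp only
  rw [act_sS (i0 := Fin.last D) hm]
  have h2 : ∀ a b : ℝ, Real.exp (-(β * (a + b))) =
      Real.exp (-(β * a)) * Real.exp (-(β * b)) := by
    intro a b
    rw [← Real.exp_add]
    congr 1; ring
  rw [h2]
  ring

/-- link reflection positivity -/
lemma rp_T (hm : 2 ≤ m) {β : ℝ} (hβ : 0 ≤ β) {f : (Ed (D + 1) (2 * m) → G) → ℝ} (hf : Continuous f)
    (hd : Dep (TR hm (Fin.last D)).R f) (hg : GI f)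
    (hg' : GI fun U => f ((TR hm (Fin.last D)).tU U)) :
    0 ≤ Zt μ L β (fun U => f U * f ((TR hm (Fin.last D)).tU U)) := by
  obtain ⟨c, hc, hred⟩ := Zt_red μ (L := L) hm (Fin.last D) β
  have hF : Continuous fun U : Ed (D + 1) (2 * m) → G => f U * f ((TR hm (Fin.last D)).tU U) :=
    hf.mul (hf.comp (TR hm (Fin.last D)).tU_cont)
  have hGI : GI fun U : Ed (D + 1) (2 * m) → G => f U * f ((TR hm (Fin.last D)).tU U) := by
    intro γ U
    show f (gt γ U) * f ((TR hm (Fin.last D)).tU (gt γ U)) = _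
    rw [hg γ U]
    have := hg' γ U
    simp only at this
    rw [this]
  rw [hred _ hF hGI]
  refine mul_nonneg hc.le ?_
  have hnc : ∀ e : Ed (D + 1) (2 * m), (TR hm (Fin.last D)).R e → ¬Cr (Fin.last D) e ∧
      ¬Cr (Fin.last D) ((TR hm (Fin.last D)).th e) := by
    intro e he
    by_cases h : e.2 = Fin.last D
    · have h1 : H2 m (e.1 (Fin.last D)) := by
        have : (if e.2 = Fin.last D then H2 m (e.1 (Fin.last D)) else H1 m (e.1 (Fin.last D))) := he
        rwa [if_pos h] at this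
      refine ⟨fun hc => H2_not hm h1 hc.2, fun hc => ?_⟩
      have h2 : ((TR hm (Fin.last D)).th e) = (rB (Fin.last D) e.1, e.2) := by
        show (if e.2 = Fin.last D then (rB (Fin.last D) e.1, e.2) else
          (rA (Fin.last D) e.1, e.2)) = _
        rw [if_pos h]
      rw [h2] at hc
      have h3 := hc.2
      simp only [rB_same] at h3
      refine H2_not' hm (v := -e.1 (Fin.last D)) ?_ h3
      rw [neg_neg]
      exact h1
    · refine ⟨fun hc => h hc.1, fun hc => h ?_⟩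
      have h2 : ((TR hm (Fin.last D)).th e).2 = e.2 := by
        show (if e.2 = Fin.last D then (rB (Fin.last D) e.1, e.2) else
          (rA (Fin.last D) e.1, e.2)).2 = _
        rw [if_neg h]
      rw [← h2]
      exact hc.1
  have h1 : ∀ U : Ed (D + 1) (2 * m) → G, f (fix (Fin.last D) U) = f U := by
    intro U
    refine hd _ _ fun e he => ?_
    unfold fix
    rw [if_neg (hnc e he).1]
  have h2 : ∀ U : Ed (D + 1) (2 * m) → G, f ((TR hm (Fin.last D)).tU (fix (Fin.last D) U)) =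
      f ((TR hm (Fin.last D)).tU U) := by
    intro U
    refine hd _ _ fun e he => ?_
    unfold Refl.tU
    have h3 : fix (Fin.last D) U ((TR hm (Fin.last D)).th e) = U ((TR hm (Fin.last D)).th e) := by
      unfold fix
      rw [if_neg (hnc e he).2]
    rw [h3]
  have hc' : Continuous fun U : Ed (D + 1) (2 * m) → G => f U * (wR L β m (Fin.last D)).1 U :=
    hf.mul (Sm_cont _)
  have hdd : Dep (TR hm (Fin.last D)).R fun U : Ed (D + 1) (2 * m) → G =>
      f U * (wR L β m (Fin.last D)).1 U := by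
    intro U U' h
    show f U * _ = f U' * _
    rw [hd U U' h, wR_dep (L := L) hm β (Fin.last D) U U' h]
  refine ((TR hm (Fin.last D)).B_self μ (L := L) hβ hc' hdd).trans_eq ?_
  unfold Refl.B Refl.Ew
  refine integral_congr_ae (Filter.Eventually.of_forall fun U => ?_)
  simp only [h1, h2]
  ring

lemma EX_tr (β : ℝ) (v : Fin (D + 1) → ℤ) (F : (Ed (D + 1) (2 * m) → G) → ℝ) :
    EX μ L β (fun U => F (tr (cz m v) U)) = EX μ L β F := by
  unfold EX
  rw [Zt_tr]

/-- the covariance on the torus -/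
def cvT (m : ℕ) [NeZero m] (L : LD G N n) (β : ℝ) (O : (Ez (D + 1) → G) → ℝ) (v : Fin (D + 1) → ℤ) : ℝ :=
  EX μ L β (fun U : Ed (D + 1) (2 * m) → G => Ot O 0 U * Ot O v U) -
    EX μ L β (fun U : Ed (D + 1) (2 * m) → G => Ot O 0 U) ^ 2

lemma EX_Ot (β : ℝ) (v : Fin (D + 1) → ℤ) :
    EX μ L β (fun U : Ed (D + 1) (2 * m) → G => Ot O v U) =
      EX μ L β (fun U : Ed (D + 1) (2 * m) → G => Ot O 0 U) := by
  rw [← EX_tr μ β v (fun U : Ed (D + 1) (2 * m) → G => Ot O 0 U)]
  simp only [Ot_tr, zero_add]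

lemma EX_Ot2 (β : ℝ) (u v : Fin (D + 1) → ℤ) :
    EX μ L β (fun U : Ed (D + 1) (2 * m) → G => Ot O u U * Ot O v U) =
      EX μ L β (fun U : Ed (D + 1) (2 * m) → G => Ot O 0 U * Ot O (u - v) U) := by
  rw [← EX_tr μ β v (fun U : Ed (D + 1) (2 * m) → G => Ot O 0 U * Ot O (u - v) U)]
  simp only [Ot_tr, zero_add, sub_add_cancel]
  congr 1
  funext U
  ring

lemma EX_lin {ι : Type*} (s : Finset ι) (β : ℝ) (a : ι → ℝ) {F : ι → (Ed (D + 1) (2 * m) → G) → ℝ}
    (hF : ∀ i, Continuous (F i)) :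
    EX μ L β (fun U => ∑ i ∈ s, a i * F i U) = ∑ i ∈ s, a i * EX μ L β (F i) := by
  unfold EX Zt
  have h1 : ∀ U : Ed (D + 1) (2 * m) → G, (∑ i ∈ s, a i * F i U) * Real.exp (-(β * act L U)) =
      ∑ i ∈ s, a i * (F i U * Real.exp (-(β * act L U))) := by
    intro U
    rw [Finset.sum_mul]
    exact Finset.sum_congr rfl fun i _ => by ring
  have hi : ∀ i ∈ s, Integrable (fun U : Ed (D + 1) (2 * m) → G =>
      a i * (F i U * Real.exp (-(β * act L U)))) (ME μ (Ed (D + 1) (2 * m))) := fun i _ =>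
    (integrable_cont μ ((hF i).mul (wt_contT β))).const_mul (a i)
  simp only [h1]
  rw [integral_finsetSum _ hi, Finset.sum_div]
  refine Finset.sum_congr rfl fun i _ => ?_
  rw [integral_const_mul]
  ring

lemma EX_one (β : ℝ) : EX μ L β (fun _ : Ed (D + 1) (2 * m) → G => 1) = 1 := by
  unfold EX
  exact div_self (Zt_pos μ (L := L) β).ne'

/-- the general form of the positivity -/
lemma rp_gen (hO : TZ O) (β : ℝ) (s : Finset (ℕ × (Fin D → ℤ))) (a : ℕ × (Fin D → ℤ) → ℝ)
    (P Q : ℕ × (Fin D → ℤ) → Fin (D + 1) → ℤ) (e : ℝ)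
    (he : e = EX μ L β (fun U : Ed (D + 1) (2 * m) → G => Ot O 0 U))
    (h : 0 ≤ Zt μ L β (fun U : Ed (D + 1) (2 * m) → G => (∑ p ∈ s, a p * (Ot O (P p) U - e)) *
      (∑ q ∈ s, a q * (Ot O (Q q) U - e)))) :
    0 ≤ ∑ p ∈ s, ∑ q ∈ s, a p * a q * cvT μ m L β O (P p - Q q) := by
  have h1 : 0 ≤ EX μ L β (fun U : Ed (D + 1) (2 * m) → G => (∑ p ∈ s, a p * (Ot O (P p) U - e)) *
      (∑ q ∈ s, a q * (Ot O (Q q) U - e))) := by
    unfold EX
    exact div_nonneg h (Zt_pos μ (L := L) β).le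
  refine h1.trans_eq ?_
  have h2 : (fun U : Ed (D + 1) (2 * m) → G => (∑ p ∈ s, a p * (Ot O (P p) U - e)) *
      (∑ q ∈ s, a q * (Ot O (Q q) U - e))) = fun U => ∑ z ∈ s ×ˢ s, (a z.1 * a z.2) *
        ((Ot O (P z.1) U - e) * (Ot O (Q z.2) U - e)) := by
    funext U
    rw [Finset.sum_mul_sum, Finset.sum_product]
    exact Finset.sum_congr rfl fun p _ => Finset.sum_congr rfl fun q _ => by ring
  have hc := Ot_cont (m := m) hO
  rw [h2, EX_lin μ (s ×ˢ s) β (fun z => a z.1 * a z.2) (F := fun z U =>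
    (Ot O (P z.1) U - e) * (Ot O (Q z.2) U - e)) (fun z => ((hc _).sub continuous_const).mul
    ((hc _).sub continuous_const)), Finset.sum_product]
  refine Finset.sum_congr rfl fun p _ => Finset.sum_congr rfl fun q _ => ?_
  congr 1
  have h3 : (fun U : Ed (D + 1) (2 * m) → G => (Ot O (P p) U - e) * (Ot O (Q q) U - e)) = fun U =>
      ∑ i : Fin 4, (![1, -e, -e, e ^ 2] : Fin 4 → ℝ) i *
        (![fun U => Ot O (P p) U * Ot O (Q q) U, Ot O (P p), Ot O (Q q), fun _ => 1] :
          Fin 4 → (Ed (D + 1) (2 * m) → G) → ℝ) i U := by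
    funext U
    rw [Fin.sum_univ_four]
    simp
    ring
  rw [h3, EX_lin μ Finset.univ β]
  · rw [Fin.sum_univ_four]
    simp only [cons_val_zero, cons_val_one, cons_val]
    rw [EX_one, EX_Ot2]
    have e1 : EX μ L β (Ot (m := m) O (P p)) = e := by
      rw [he]
      exact EX_Ot μ β (P p)
    have e2 : EX μ L β (Ot (m := m) O (Q q)) = e := by
      rw [he]
      exact EX_Ot μ β (Q q)
    rw [e1, e2]
    unfold cvT
    rw [← he]
    ring
  · intro i
    fin_cases i
    · exact (hc _).mul (hc _)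
    · exact hc _
    · exact hc _
    · exact continuous_const

lemma val_nat' {k : ℕ} (hk : k < 2 * m) : (((k : ℕ) : ℤ) : ZMod (2 * m)).val = k := by
  rw [Int.cast_natCast]
  exact ZMod.val_natCast_of_lt hk

/-- **Site reflection positivity of the covariance.** -/
theorem cv_rp0 (hO : TZ O) (hm : 2 ≤ m) (β : ℝ) (s : Finset (ℕ × (Fin D → ℤ)))
    (a : ℕ × (Fin D → ℤ) → ℝ) (hs : ∀ p ∈ s, p.1 ≤ m) :
    0 ≤ ∑ p ∈ s, ∑ q ∈ s, a p * a q * cvT μ m L β O (ptz (p.2 - q.2) ((p.1 + q.1 : ℕ) : ℤ)) := by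
  have h0 := rp_gen μ (L := L) (m := m) hO β s a (fun p => ptz p.2 p.1) (fun q => ptz q.2 (-(q.1 : ℤ)))
    _ rfl ?_
  · refine h0.trans_eq ?_
    refine Finset.sum_congr rfl fun p _ => Finset.sum_congr rfl fun q _ => ?_
    congr 2
    funext i
    refine Fin.lastCases ?_ (fun j => ?_) i
    · rw [Pi.sub_apply, ptz_last, ptz_last, ptz_last]
      push_cast
      ring
    · rw [Pi.sub_apply, ptz_cast, ptz_cast, ptz_cast, Pi.sub_apply]
  · obtain ⟨e, he⟩ : ∃ e, e = EX μ L β (fun U : Ed (D + 1) (2 * m) → G => Ot O 0 U) := ⟨_, rfl⟩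
    rw [← he]
    have hc : Continuous fun U : Ed (D + 1) (2 * m) → G => ∑ p ∈ s, a p * (Ot O (ptz p.2 p.1) U - e) :=
      continuous_finsetSum _ fun p _ => continuous_const.mul ((Ot_cont hO _).sub continuous_const)
    have hd : Dep (HQ (Fin.last D)) fun U : Ed (D + 1) (2 * m) → G =>
        ∑ p ∈ s, a p * (Ot O (ptz p.2 p.1) U - e) := by
      intro U U' h
      refine Finset.sum_congr rfl fun p hp => ?_
      congr 2
      refine Ot_dep hO _ fun e he1 he2 => h e ?_
      unfold HQ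
      rw [if_neg he2, he1, ptz_last, val_nat' (by have := hs p hp; omega)]
      exact hs p hp
    have h1 := rp_S μ (L := L) hm β hc hd
    simp only [Ot_SR hO hm] at h1
    exact h1

/-- **Link reflection positivity of the covariance.** -/
theorem cv_rp1 (hO : TZ O) (hm : 2 ≤ m) {β : ℝ} (hβ : 0 ≤ β) (s : Finset (ℕ × (Fin D → ℤ)))
    (a : ℕ × (Fin D → ℤ) → ℝ) (hs : ∀ p ∈ s, p.1 + 1 ≤ m) :
    0 ≤ ∑ p ∈ s, ∑ q ∈ s, a p * a q * cvT μ m L β O (ptz (p.2 - q.2) ((p.1 + q.1 + 1 : ℕ) : ℤ)) := by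
  have h0 := rp_gen μ (L := L) (m := m) hO β s a (fun p => ptz p.2 (p.1 + 1))
    (fun q => ptz q.2 (1 - ((q.1 : ℤ) + 1))) _ rfl ?_
  · refine h0.trans_eq ?_
    refine Finset.sum_congr rfl fun p _ => Finset.sum_congr rfl fun q _ => ?_
    congr 2
    funext i
    refine Fin.lastCases ?_ (fun j => ?_) i
    · rw [Pi.sub_apply, ptz_last, ptz_last, ptz_last]
      push_cast
      ring
    · rw [Pi.sub_apply, ptz_cast, ptz_cast, ptz_cast, Pi.sub_apply]
  · obtain ⟨e, he⟩ : ∃ e, e = EX μ L β (fun U : Ed (D + 1) (2 * m) → G => Ot O 0 U) := ⟨_, rfl⟩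
    rw [← he]
    have hc : Continuous fun U : Ed (D + 1) (2 * m) → G =>
        ∑ p ∈ s, a p * (Ot O (ptz p.2 (p.1 + 1)) U - e) :=
      continuous_finsetSum _ fun p _ => continuous_const.mul ((Ot_cont hO _).sub continuous_const)
    have hd : Dep (TR hm (Fin.last D)).R fun U : Ed (D + 1) (2 * m) → G =>
        ∑ p ∈ s, a p * (Ot O (ptz p.2 (p.1 + 1)) U - e) := by
      intro U U' h
      refine Finset.sum_congr rfl fun p hp => ?_
      congr 2
      refine Ot_dep hO _ fun e he1 he2 => h e ?_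
      show (if e.2 = Fin.last D then H2 m (e.1 (Fin.last D)) else H1 m (e.1 (Fin.last D)))
      rw [if_neg he2, he1, ptz_last]
      unfold H1
      have h2 : (((p.1 : ℤ) + 1 : ℤ) : ZMod (2 * m)).val = p.1 + 1 := by
        have := val_nat' (m := m) (k := p.1 + 1) (by have := hs p hp; omega)
        push_cast at this ⊢
        exact this
      rw [h2]
      have := hs p hp
      omega
    have hg : GI fun U : Ed (D + 1) (2 * m) → G => ∑ p ∈ s, a p * (Ot O (ptz p.2 (p.1 + 1)) U - e) := by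
      intro γ U
      refine Finset.sum_congr rfl fun p _ => ?_
      rw [Ot_GI hO _ γ U]
    have hg' : GI fun U : Ed (D + 1) (2 * m) → G =>
        (fun U : Ed (D + 1) (2 * m) → G => ∑ p ∈ s, a p * (Ot O (ptz p.2 (p.1 + 1)) U - e))
          ((TR hm (Fin.last D)).tU U) := by
      intro γ U
      simp only [Ot_TR hO hm]
      refine Finset.sum_congr rfl fun p _ => ?_
      rw [Ot_GI hO _ γ U]
    have h1 := rp_T μ (L := L) hm hβ hc hd hg hg'
    simp only [Ot_TR hO hm] at h1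
    exact h1

end rp

end

end Pool.Agent.X134.SM
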